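import Mathlib

/-!
# H93I (MP_5a327f_al): a subgroup of infinite index of `SL_n(ℤ)` meeting many conjugacy classes

Definitions.  See PROOF.md.
-/

namespace H93I

open Matrix

/-- `SL_n(ℤ)` -/
abbrev SLZ (n : ℕ) := Matrix.SpecialLinearGroup (Fin n) ℤ

variable {n : ℕ}

/-- the complex eigenvalues of `g` -/
def eig (g : SLZ n) : Set ℂ :=
  spectrum ℂ ((g : Matrix (Fin n) (Fin n) ℤ).map (fun a : ℤ => (a : ℂ)))

/-- every complex eigenvalue of `g` of largest or of smallest modulus is a positive real number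
times a root of unity -/
def Tame (g : SLZ n) : Prop :=
  ∀ z ∈ eig g, ((∀ w ∈ eig g, ‖w‖ ≤ ‖z‖) ∨ (∀ w ∈ eig g, ‖z‖ ≤ ‖w‖)) →
    ∃ N : ℕ, 0 < N ∧ z ^ N = (‖z‖ : ℂ) ^ N

/-- scalar matrices -/
def Scal (g : SLZ n) : Prop :=
  ∃ a : ℤ, (g : Matrix (Fin n) (Fin n) ℤ) = a • (1 : Matrix (Fin n) (Fin n) ℤ)

/-- the real matrix of `g` -/
def R (g : SLZ n) : Matrix (Fin n) (Fin n) ℝ :=
  (g : Matrix (Fin n) (Fin n) ℤ).map (fun a : ℤ => (a : ℝ))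

/-- the real vector of an integral vector -/
def rv (v : Fin n → ℤ) : Fin n → ℝ := fun i => (v i : ℝ)

/-- `ℓ¹` size of a vector -/
def vx (v : Fin n → ℝ) : ℝ := ∑ i, |v i|

/-- `ℓ¹` size of a matrix -/
def mx (M : Matrix (Fin n) (Fin n) ℝ) : ℝ := ∑ i, ∑ j, |M i j|

/-- exceptional exponents: `g ^ m` is not scalar and its normalisation is not `ε`-close to `S` -/
def Exc (g : SLZ n) (S : Set (Matrix (Fin n) (Fin n) ℝ)) (ε : ℝ) : Set ℤ :=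
  {m : ℤ | ¬ Scal (g ^ m) ∧ ∀ X ∈ S, ε ≤ mx ((mx (R (g ^ m)))⁻¹ • R (g ^ m) - X)}

/-- the normalised non-scalar powers `g ^ m` (`m ∈ ℤ`) accumulate only at finitely many
matrices, none of them scalar -/
def LD (g : SLZ n) : Prop :=
  ∃ S : Set (Matrix (Fin n) (Fin n) ℝ), S.Finite ∧
    (∀ X ∈ S, ∀ t : ℝ, X ≠ t • (1 : Matrix (Fin n) (Fin n) ℝ)) ∧
    ∀ ε : ℝ, 0 < ε → (Exc g S ε).Finite

/-- data attached to one element -/
structure Dat (n : ℕ) where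
  v : Fin n → ℤ
  φ : Fin n → ℤ
  δ : ℝ
  η : ℝ
  x : SLZ n

/-- attracting set: the cone over the ball of radius `η` around `v` -/
def Dat.A (d : Dat n) : Set (Fin n → ℝ) :=
  {w | ∃ α : ℝ, α ≠ 0 ∧ vx (w - α • rv d.v) ≤ d.η * |α|}

/-- the complement of the `δ`-neighbourhood of the hyperplane `φ = 0` -/
def Dat.P (d : Dat n) : Set (Fin n → ℝ) :=
  {w | 0 < vx w ∧ d.δ * vx w ≤ |rv d.φ ⬝ᵥ w|}

/-- invariant which makes the induction possible -/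
def Inv (i2 i3 : Fin n) (d : Dat n) : Prop :=
  0 < d.δ ∧ d.δ < |(d.φ i2 : ℝ)| ∧ 0 < d.η ∧ d.η < |(d.v i3 : ℝ)|

/-- all non-scalar powers of `x g x⁻¹` map `P` into `A`, and the base vector `e_{i1}` lies in `P`
and not in `A` -/
def Good (i1 : Fin n) (g : SLZ n) (d : Dat n) : Prop :=
  (∀ m : ℤ, ¬ Scal (g ^ m) → ∀ w ∈ d.P, R (d.x * g ^ m * d.x⁻¹) *ᵥ w ∈ d.A) ∧
  (Pi.single i1 (1 : ℝ) : Fin n → ℝ) ∈ d.P ∧ (Pi.single i1 (1 : ℝ) : Fin n → ℝ) ∉ d.A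

/-- ping-pong compatibility -/
def Compat (d d' : Dat n) : Prop := d.A ⊆ d'.P ∧ d'.A ⊆ d.P

end H93I
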