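import Pool.Agent.Lib.H93I.Norm

/-! # H93I, chunk PONG: the ping-pong argument

PROOF.  Inductive predicate `Red h : Option ι → SLZ n → Prop` (reduced words, with the first index):
`Red none c` for `c` scalar; `Red (some i) (h i ^ m * u)` if `h i ^ m` is not scalar, `Red o u` and
`o ≠ some i`.
(1) `Red o u`, `c` scalar `→ Red o (c * u)` (scalars are central).
(2) For every `s` in the closure there is `o` with `Red o s`: `Subgroup.closure_induction_left` (or show that
the set of such `s` contains `1` and is stable under left multiplication by the generators and their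
inverses).  Scalars: (1).  For `h i ^ (±1)` and `Red o s`: if `o ≠ some i`: either `h i` is scalar (use (1)) or
`Red (some i) (h i ^ (±1) * s)`.  If `s = h i ^ m * u`, `Red o' u`, `o' ≠ some i`, then
`h i ^ (±1) * s = h i ^ (m ± 1) * u`: scalar power: (1); otherwise `Red (some i)`.
(3) `Red o u` implies `R u *ᵥ w0 ∈ A i` if `o = some i`, and `R u *ᵥ w0 = ± w0` if `o = none`
(`Scal.mulVec`); in both cases `R u *ᵥ w0 ∈ P j` for all `j` with `o ≠ some j`.  Induction on `Red`.
(4) If `R s *ᵥ w0 = w0` then `o = some i` is impossible since `w0 ∉ A i`; so `s` is scalar. -/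

namespace H93I

open Matrix

variable {n : ℕ}

/-- reduced words with their first index -/
inductive PONG_Red {ι : Type*} (h : ι → SLZ n) : Option ι → SLZ n → Prop
  | base (c : SLZ n) (hc : Scal c) : PONG_Red h none c
  | step (o : Option ι) (u : SLZ n) (i : ι) (m : ℤ) (hm : ¬ Scal (h i ^ m)) (ho : o ≠ some i)
      (hu : PONG_Red h o u) : PONG_Red h (some i) (h i ^ m * u)

theorem PONG_scal {ι : Type*} (h : ι → SLZ n) {o : Option ι} {u c : SLZ n} (hc : Scal c)
    (hu : PONG_Red h o u) : PONG_Red h o (c * u) := by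
  induction hu with
  | base d hd => exact PONG_Red.base _ (hc.mul hd)
  | step o u i m hm ho hu ih =>
    have : c * (h i ^ m * u) = h i ^ m * (c * u) := by
      rw [← mul_assoc, hc.comm, mul_assoc]
    rw [this]
    exact PONG_Red.step o _ i m hm ho ih

theorem PONG_pow {ι : Type*} (h : ι → SLZ n) {o : Option ι} {s : SLZ n} (i : ι) (e : ℤ)
    (hs : PONG_Red h o s) : ∃ o', PONG_Red h o' (h i ^ e * s) := by
  by_cases ho : o = some i
  · cases hs with
    | base c hc => exact absurd ho (by simp)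
    | step o1 u j m hm ho1 hu =>
      have hji : j = i := Option.some.inj ho
      subst hji
      rw [← mul_assoc, ← _root_.zpow_add]
      by_cases hsc : Scal (h j ^ (e + m))
      · exact ⟨o1, PONG_scal h hsc hu⟩
      · exact ⟨some j, PONG_Red.step o1 u j _ hsc ho1 hu⟩
  · by_cases hsc : Scal (h i ^ e)
    · exact ⟨o, PONG_scal h hsc hs⟩
    · exact ⟨some i, PONG_Red.step o s i e hsc ho hs⟩

theorem PONG_closure {ι : Type*} (h : ι → SLZ n) (s : SLZ n)
    (hs : s ∈ Subgroup.closure ({s : SLZ n | Scal s} ∪ Set.range h)) : ∃ o, PONG_Red h o s := by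
  induction hs using Subgroup.closure_induction_left with
  | one => exact ⟨none, PONG_Red.base 1 scal_one⟩
  | mul_left x hx y hy ih =>
    obtain ⟨o, ho⟩ := ih
    rcases hx with hx | ⟨i, rfl⟩
    · exact ⟨o, PONG_scal h hx ho⟩
    · have := PONG_pow h i 1 ho
      rwa [zpow_one] at this
  | inv_mul_cancel x hx y hy ih =>
    obtain ⟨o, ho⟩ := ih
    rcases hx with hx | ⟨i, rfl⟩
    · exact ⟨o, PONG_scal h (Scal.inv hx) ho⟩
    · have := PONG_pow h i (-1) ho
      rwa [_root_.zpow_neg_one] at this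

theorem PONG_dyn {ι : Type*} (h : ι → SLZ n) (A P : ι → Set (Fin n → ℝ)) (w0 : Fin n → ℝ)
    (h1 : ∀ i, ∀ m : ℤ, ¬ Scal (h i ^ m) → ∀ w ∈ P i, R (h i ^ m) *ᵥ w ∈ A i)
    (h2 : ∀ i j, i ≠ j → A j ⊆ P i) (h3 : ∀ i, ∀ w ∈ P i, -w ∈ P i) (h4 : ∀ i, w0 ∈ P i)
    {o : Option ι} {u : SLZ n} (hu : PONG_Red h o u) :
    (∀ i, o = some i → R u *ᵥ w0 ∈ A i) ∧ (∀ j, o ≠ some j → R u *ᵥ w0 ∈ P j) := by
  induction hu with
  | base c hc =>
    refine ⟨fun i hi => absurd hi (by simp), fun j _ => ?_⟩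
    rcases hc.mulVec w0 with h' | h'
    · rw [h']; exact h4 j
    · rw [h']; exact h3 j _ (h4 j)
  | step o u i m hm ho hu ih =>
    have key : R (h i ^ m * u) *ᵥ w0 ∈ A i := by
      rw [R_mul, ← Matrix.mulVec_mulVec]
      exact h1 i m hm _ (ih.2 i ho)
    refine ⟨fun j hj => ?_, fun j hj => ?_⟩
    · have : i = j := Option.some.inj hj
      subst this
      exact key
    · have hne : j ≠ i := fun hji => hj (by rw [hji])
      exact h2 j i hne key

theorem pong {ι : Type*} (h : ι → SLZ n) (A P : ι → Set (Fin n → ℝ)) (w0 : Fin n → ℝ)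
    (h1 : ∀ i, ∀ m : ℤ, ¬ Scal (h i ^ m) → ∀ w ∈ P i, R (h i ^ m) *ᵥ w ∈ A i)
    (h2 : ∀ i j, i ≠ j → A j ⊆ P i) (h3 : ∀ i, ∀ w ∈ P i, -w ∈ P i) (h4 : ∀ i, w0 ∈ P i)
    (h5 : ∀ i, w0 ∉ A i) (s : SLZ n)
    (hs : s ∈ Subgroup.closure ({s : SLZ n | Scal s} ∪ Set.range h)) (hw : R s *ᵥ w0 = w0) :
    Scal s := by
  obtain ⟨o, ho⟩ := PONG_closure h s hs
  have hd := PONG_dyn h A P w0 h1 h2 h3 h4 ho
  cases ho with
  | base c hc => exact hc
  | step o u i m hm ho hu =>
    exfalso
    have := hd.1 i rfl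
    rw [hw] at this
    exact h5 i this

end H93I
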