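import Pool.Agent.Lib.H93I.Norm

/-! # H93I, chunk TAMEINV: the inverse of a tame element is tame

PROOF of `tame_inv`: `eig g⁻¹ = {z⁻¹ : z ∈ eig g}` (the complex matrices of `g` and `g⁻¹` are inverse to each
other; `spectrum.map_inv` or directly), moduli are inverted, and `(z⁻¹)^N = ‖z⁻¹‖^N`. -/

namespace H93I

open Matrix Filter Topology

variable {n : ℕ}

/-- the complex matrix of `g` as a unit -/
noncomputable def tameInvUnit (g : SLZ n) : (Matrix (Fin n) (Fin n) ℂ)ˣ where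
  val := (g : Matrix (Fin n) (Fin n) ℤ).map (fun a : ℤ => (a : ℂ))
  inv := ((g⁻¹ : SLZ n) : Matrix (Fin n) (Fin n) ℤ).map (fun a : ℤ => (a : ℂ))
  val_inv := by
    have h1 : g.1 * (g⁻¹).1 = 1 := congrArg Subtype.val (mul_inv_cancel g)
    have h2 := congrArg (RingHom.mapMatrix (m := Fin n) (Int.castRingHom ℂ)) h1
    rw [map_mul, map_one] at h2
    exact h2
  inv_val := by
    have h1 : (g⁻¹).1 * g.1 = 1 := congrArg Subtype.val (inv_mul_cancel g)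
    have h2 := congrArg (RingHom.mapMatrix (m := Fin n) (Int.castRingHom ℂ)) h1
    rw [map_mul, map_one] at h2
    exact h2

theorem tameInv_mem (g : SLZ n) (z : ℂ) : z ∈ eig g⁻¹ ↔ z⁻¹ ∈ eig g := by
  have h1 : (spectrum ℂ ((tameInvUnit g : (Matrix (Fin n) (Fin n) ℂ)ˣ) : Matrix (Fin n) (Fin n) ℂ))⁻¹ =
      spectrum ℂ (((tameInvUnit g)⁻¹ : (Matrix (Fin n) (Fin n) ℂ)ˣ) : Matrix (Fin n) (Fin n) ℂ) :=
    spectrum.map_inv _
  have h2 : eig g⁻¹ = (eig g)⁻¹ := h1.symm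
  rw [h2, Set.mem_inv]

theorem tameInv_ne_zero (g : SLZ n) {z : ℂ} (hz : z ∈ eig g) : z ≠ 0 := by
  rintro rfl
  have h1 : (0 : ℂ) ∈ spectrum ℂ
      ((tameInvUnit g : (Matrix (Fin n) (Fin n) ℂ)ˣ) : Matrix (Fin n) (Fin n) ℂ) := hz
  exact (spectrum.zero_notMem_iff ℂ).2 (Units.isUnit _) h1

theorem tame_inv (g : SLZ n) (hg : Tame g) : Tame g⁻¹ := by
  intro z hz hext
  have hz' := (tameInv_mem g z).1 hz
  have hz0 : z ≠ 0 := tameInv_ne_zero g⁻¹ hz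
  have hzn : 0 < ‖z‖ := norm_pos_iff.2 hz0
  have key : ∀ w ∈ eig g, w⁻¹ ∈ eig g⁻¹ := by
    intro w hw
    rw [tameInv_mem, inv_inv]
    exact hw
  have hext' : (∀ w ∈ eig g, ‖w‖ ≤ ‖z⁻¹‖) ∨ (∀ w ∈ eig g, ‖z⁻¹‖ ≤ ‖w‖) := by
    rcases hext with h | h
    · right
      intro w hw
      have h1 := h _ (key w hw)
      have hw0 : 0 < ‖w‖ := norm_pos_iff.2 (tameInv_ne_zero g hw)
      rw [norm_inv] at h1 ⊢
      exact inv_le_of_inv_le₀ hw0 h1
    · left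
      intro w hw
      have h1 := h _ (key w hw)
      have hw0 : 0 < ‖w‖ := norm_pos_iff.2 (tameInv_ne_zero g hw)
      rw [norm_inv] at h1 ⊢
      exact le_inv_of_le_inv₀ hzn h1
  obtain ⟨N, hN, h⟩ := hg z⁻¹ hz' hext'
  refine ⟨N, hN, ?_⟩
  rw [norm_inv, Complex.ofReal_inv, inv_pow, inv_pow, _root_.inv_inj] at h
  exact h

end H93I
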