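import Pool.Agent.Lib.H93I.HalfLD
import Pool.Agent.Lib.H93I.TameInv

/-! # H93I, chunk TAMELD: tame elements have finitely many limit directions

PROOF of `tame_LD`: if `g^m = 1` for some `m > 0`, let `S` be the set of all normalised `R (g^m)`, `m ∈ ℤ`,
`g^m` not scalar: finite (only finitely many powers), none is scalar (`scal_of_real`, `mx_R_pos`), and
`Exc g S ε = ∅`.  Otherwise take the union of the two sets given by `half_LD` for `g` and for `g⁻¹`
(`tame_inv`); `m ∈ Exc` is `k` or `-k` with `k : ℕ` exceptional for `g` or `g⁻¹` (`g^(-k) = (g⁻¹)^k`). -/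

namespace H93I

open Matrix Filter Topology

variable {n : ℕ}

theorem tameLD_not_scal (hn : 0 < n) (x : SLZ n) (hx : ¬ Scal x) (t : ℝ) :
    (mx (R x))⁻¹ • R x ≠ t • (1 : Matrix (Fin n) (Fin n) ℝ) := by
  intro h
  apply hx
  apply scal_of_real hn (t := mx (R x) * t)
  rw [mul_smul, ← h, smul_smul, mul_inv_cancel₀ (mx_R_pos hn x).ne', one_smul]

theorem tameLD_torsion (hn : 0 < n) (g : SLZ n) (m : ℕ) (hm : 0 < m) (hgm : g ^ m = 1) : LD g := by
  refine ⟨{X | ∃ k : ℤ, ¬ Scal (g ^ k) ∧ X = (mx (R (g ^ k)))⁻¹ • R (g ^ k)}, ?_, ?_, ?_⟩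
  · have hfin : ((fun k : ℕ => (mx (R (g ^ k)))⁻¹ • R (g ^ k)) '' Set.Iio m).Finite :=
      (Set.finite_Iio m).image _
    refine hfin.subset ?_
    rintro _ ⟨k, _, rfl⟩
    have hm' : (0 : ℤ) < m := by exact_mod_cast hm
    have h1 : 0 ≤ k % (m : ℤ) := Int.emod_nonneg k hm'.ne'
    have h2 : k % (m : ℤ) < m := Int.emod_lt_of_pos k hm'
    refine ⟨(k % (m : ℤ)).toNat, ?_, ?_⟩
    · change (k % (m : ℤ)).toNat < m
      omega
    · have h3 : g ^ (k % (m : ℤ)).toNat = g ^ k := by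
        rw [← zpow_natCast, Int.toNat_of_nonneg h1]
        conv_rhs => rw [← Int.emod_add_mul_ediv k m, _root_.zpow_add, _root_.zpow_mul, zpow_natCast, hgm,
          _root_.one_zpow, mul_one]
      change (mx (R (g ^ (k % (m : ℤ)).toNat)))⁻¹ • R (g ^ (k % (m : ℤ)).toNat) = _
      rw [h3]
  · rintro _ ⟨k, hk, rfl⟩ t
    exact tameLD_not_scal hn _ hk t
  · intro ε hε
    have h1 : Exc g {X | ∃ k : ℤ, ¬ Scal (g ^ k) ∧ X = (mx (R (g ^ k)))⁻¹ • R (g ^ k)} ε = ∅ := by
      rw [Set.eq_empty_iff_forall_notMem]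
      rintro k ⟨hk, hk'⟩
      have h2 := hk' _ ⟨k, hk, rfl⟩
      rw [sub_self, mx_eq_zero.2 rfl] at h2
      linarith
    rw [h1]
    exact Set.finite_empty

theorem tame_LD (hn : 0 < n) (g : SLZ n) (hg : Tame g) : LD g := by
  by_cases htor : ∃ m : ℕ, 0 < m ∧ g ^ m = 1
  · obtain ⟨m, hm, hgm⟩ := htor
    exact tameLD_torsion hn g m hm hgm
  · push Not at htor
    obtain ⟨S1, hf1, hs1, he1⟩ := half_LD hn g htor hg
    obtain ⟨S2, hf2, hs2, he2⟩ := half_LD hn g⁻¹ (fun m hm h => htor m hm (by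
      rw [inv_pow, inv_eq_one] at h
      exact h)) (tame_inv g hg)
    refine ⟨S1 ∪ S2, hf1.union hf2, ?_, ?_⟩
    · rintro X (hX | hX) t
      · exact hs1 X hX t
      · exact hs2 X hX t
    · intro ε hε
      have hfin := ((he1 ε hε).image (fun k : ℕ => (k : ℤ))).union
        ((he2 ε hε).image (fun k : ℕ => -(k : ℤ)))
      refine hfin.subset ?_
      rintro k ⟨_, hk⟩
      rcases Int.eq_nat_or_neg k with ⟨j, rfl | rfl⟩
      · left
        refine ⟨j, ?_, rfl⟩
        intro X hX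
        have := hk X (Or.inl hX)
        rwa [zpow_natCast] at this
      · right
        refine ⟨j, ?_, rfl⟩
        intro X hX
        have := hk X (Or.inr hX)
        rwa [_root_.zpow_neg, zpow_natCast, ← inv_pow] at this

end H93I
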