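import Pool.Agent.Lib.H93I.Seq
import Pool.Agent.Lib.H93I.Pong
import Pool.Agent.Lib.H93I.TameLD

/-! # H93I, chunk FINAL

PROOF.  Enumerate the countable set of the tame elements: `g : ℕ → SLZ n` (it contains `1`).  `seq` gives the data
`f k`; `h k = x_k g_k x_k⁻¹`, `H = closure ({scalars} ∪ range h)`.  `H` meets the class of every tame element.
`pong` (with `A = (f k).A`, `P = (f k).P`, `w0 = e_{i1}`): every element of `H` fixing `e_{i1}` is scalar.
(`h k ^ m = x_k g_k^m x_k⁻¹`, `scal_conj_iff`.)  If `H` had finite index, a power `E^m`, `m > 0`, of the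
elementary matrix `E = 1 + E_{i1,i2}` would lie in `H` (`Subgroup.exists_pow_mem_of_index_ne_zero`); it fixes
`e_{i1}` and is not scalar (entry `m` at `(i1, i2)`). -/

namespace H93I

open Matrix

variable {n : ℕ}

theorem FINAL_P_neg (d : Dat n) (w : Fin n → ℝ) (hw : w ∈ d.P) : -w ∈ d.P := by
  obtain ⟨h1, h2⟩ := hw
  refine ⟨by rwa [vx_neg], ?_⟩
  rw [vx_neg, dotProduct_neg, abs_neg]
  exact h2

theorem FINAL_tame_one : Tame (1 : SLZ n) := by
  intro z hz _
  refine ⟨1, one_pos, ?_⟩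
  have h1 : ((1 : SLZ n) : Matrix (Fin n) (Fin n) ℤ).map (fun a : ℤ => (a : ℂ)) = 1 := by
    rw [Matrix.SpecialLinearGroup.coe_one]
    ext i j
    by_cases h : i = j
    · subst h; simp
    · simp [Matrix.one_apply_ne h]
  unfold eig at hz
  rw [h1] at hz
  rcases isEmpty_or_nonempty (Fin n) with he | he
  · have : Subsingleton (Matrix (Fin n) (Fin n) ℂ) := inferInstance
    rw [spectrum.of_subsingleton] at hz
    exact absurd hz (Set.notMem_empty _)
  · have : Nontrivial (Matrix (Fin n) (Fin n) ℂ) := inferInstance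
    rw [spectrum.one_eq] at hz
    rw [Set.mem_singleton_iff.mp hz]
    simp

/-- the elementary matrix -/
theorem FINAL_elem {i1 i2 : Fin n} (h12 : i1 ≠ i2) (T : ℤ) :
    ∃ x : SLZ n, (x : Matrix (Fin n) (Fin n) ℤ) = Matrix.transvection i1 i2 T :=
  ⟨⟨Matrix.transvection i1 i2 T, Matrix.det_transvection_of_ne i1 i2 h12 T⟩, rfl⟩

theorem FINAL_elem_pow {i1 i2 : Fin n} (h12 : i1 ≠ i2) (x : SLZ n)
    (hx : (x : Matrix (Fin n) (Fin n) ℤ) = Matrix.transvection i1 i2 1) (m : ℕ) :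
    ((x ^ m : SLZ n) : Matrix (Fin n) (Fin n) ℤ) = Matrix.transvection i1 i2 (m : ℤ) := by
  induction m with
  | zero =>
    rw [pow_zero, Matrix.SpecialLinearGroup.coe_one]
    simp [Matrix.transvection]
  | succ m ih =>
    rw [pow_succ, Matrix.SpecialLinearGroup.coe_mul, ih, hx,
      Matrix.transvection_mul_transvection_same i1 i2 h12]
    push_cast
    rfl

theorem main (hn : 3 ≤ n) :
    ∃ H : Subgroup (SLZ n), H.index = 0 ∧ ∀ g : SLZ n, Tame g → ∃ x : SLZ n, x * g * x⁻¹ ∈ H := by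
  classical
  have hn0 : 0 < n := by omega
  obtain ⟨i1, i2, i3, h12, h13, h23⟩ : ∃ i1 i2 i3 : Fin n, i1 ≠ i2 ∧ i1 ≠ i3 ∧ i2 ≠ i3 :=
    ⟨⟨0, by omega⟩, ⟨1, by omega⟩, ⟨2, by omega⟩, by simp, by simp, by simp⟩
  have hcount : Countable (SLZ n) := by
    have : Function.Injective (fun g : SLZ n => (g : Matrix (Fin n) (Fin n) ℤ)) :=
      Subtype.coe_injective
    have h2 : Countable (Matrix (Fin n) (Fin n) ℤ) :=
      inferInstanceAs (Countable (Fin n → Fin n → ℤ))
    exact this.countable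
  have hne : Nonempty {g : SLZ n // Tame g} := ⟨⟨1, FINAL_tame_one⟩⟩
  obtain ⟨e, he⟩ := exists_surjective_nat {g : SLZ n // Tame g}
  obtain ⟨f, hf1, hf2⟩ := seq h12 h13 h23 (fun k => (e k : SLZ n))
    (fun k => tame_LD hn0 _ (e k).2)
  obtain ⟨h, hh⟩ : ∃ h : ℕ → SLZ n, ∀ k, h k = (f k).x * (e k : SLZ n) * (f k).x⁻¹ :=
    ⟨fun k => (f k).x * (e k : SLZ n) * (f k).x⁻¹, fun _ => rfl⟩
  have hpow : ∀ k, ∀ m : ℤ, h k ^ m = (f k).x * (e k : SLZ n) ^ m * (f k).x⁻¹ := by
    intro k m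
    rw [hh, conj_zpow]
  refine ⟨Subgroup.closure ({s : SLZ n | Scal s} ∪ Set.range h), ?_, ?_⟩
  · by_contra hidx
    obtain ⟨x, hx⟩ := FINAL_elem (n := n) h12 1
    obtain ⟨m, hm0, -, hm⟩ := Subgroup.exists_pow_mem_of_index_ne_zero hidx x
    have hR : R (x ^ m) = Matrix.transvection i1 i2 (m : ℝ) := by
      unfold R
      rw [FINAL_elem_pow h12 x hx m]
      ext i j
      simp only [Matrix.map_apply, Matrix.transvection, Matrix.add_apply]
      by_cases hE : i = j
      · subst hE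
        by_cases h' : i1 = i ∧ i2 = i
        · exact absurd (h'.1.trans h'.2.symm) h12
        · simp [Matrix.single_apply, h']
      · rw [Matrix.one_apply_ne hE, Matrix.one_apply_ne hE]
        by_cases h' : i1 = i ∧ i2 = j
        · simp [Matrix.single_apply, h']
        · simp [Matrix.single_apply, h']
    have hfix : R (x ^ m) *ᵥ (Pi.single i1 (1 : ℝ)) = Pi.single i1 (1 : ℝ) := by
      rw [hR, Matrix.transvection, Matrix.add_mulVec, Matrix.one_mulVec]
      have : (Matrix.single i1 i2 (m : ℝ)) *ᵥ (Pi.single i1 (1 : ℝ)) = 0 := by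
        ext i
        rw [Matrix.mulVec_single_one]
        simp [Matrix.col_apply, Matrix.single_apply, h12.symm]
      rw [this, add_zero]
    have hsc := pong h (fun k => (f k).A) (fun k => (f k).P) (Pi.single i1 (1 : ℝ))
      (fun k m' hm' w hw => by
        rw [hpow] at hm' ⊢
        exact (hf1 k).1 m' (fun hc => hm' ((scal_conj_iff _ _).mpr hc)) w hw)
      (fun i j hij => hf2 i j hij) (fun k w hw => FINAL_P_neg _ w hw) (fun k => (hf1 k).2.1)
      (fun k => (hf1 k).2.2) (x ^ m) hm hfix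
    obtain ⟨a, ha⟩ := hsc
    rw [FINAL_elem_pow h12 x hx m] at ha
    have h1 := congrFun (congrFun ha i1) i2
    rw [Matrix.smul_apply, Matrix.one_apply_ne h12, smul_zero] at h1
    simp [Matrix.transvection, Matrix.one_apply_ne h12] at h1
    omega
  · intro g hg
    obtain ⟨k, hk⟩ := he ⟨g, hg⟩
    refine ⟨(f k).x, Subgroup.subset_closure (Or.inr ⟨k, ?_⟩)⟩
    rw [hh, hk]

end H93I
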