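import Pool.Agent.Lib.H93I.Norm

/-! # H93I, chunk ASYM: growth of the powers of a complex matrix with one dominant eigenvalue

PROOF.  `f = Matrix.toLin' B` on `V = Fin n → ℂ`.  Let `E = f.maxGenEigenspace ρ ≠ ⊥`, `(f - ρ)^n = 0` on `E`
(`Module.End.maxGenEigenspace_eq_genEigenspace_finrank`), and let `k` be the largest `j` with
`(f - ρ)^j` not identically zero on `E`.  Put `a m = Nat.choose m k * ρ ^ m` (positive for `m ≥ k`).
Claim: for every `v : V` the sequence `(a m)⁻¹ • f^m v` converges.  By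
`Module.End.iSup_maxGenEigenspace_eq_top` and `Submodule.iSup_induction` it is enough to treat
`v` in a generalised eigenspace of `μ`: then (binomial theorem for the commuting maps `μ`, `f - μ`)
`f^m v = Σ_{j < n} (m choose j) μ^(m-j) (f - μ)^j v` for `m ≥ n`.
* `|μ| < ρ`: each term divided by `a m` tends to `0` (polynomial times `(|μ|/ρ)^m`; the case `μ = 0` is
  trivial; `μ` is an eigenvalue unless the space is `0`, so `μ ∈ spectrum`).
* `μ = ρ`: the term `j` divided by `a m` is `ρ^(-j) (m choose j)/(m choose k) (f-ρ)^j v`: it tends to `0` for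
  `j < k`, equals `ρ^(-k) (f-ρ)^k v` for `j = k`, and vanishes for `j > k`.
So the limit exists for all `v`, and for `v0 ∈ E` with `(f-ρ)^k v0 ≠ 0` it is not `0`.  The columns
`B^m e_j` then give the convergence of the matrices, to `X` with `X v0 ≠ 0`. -/

namespace H93I

open Matrix Filter Topology

variable {n : ℕ}

/-- binomial theorem for the powers of an endomorphism -/
theorem asym_binom {V : Type*} [AddCommGroup V] [Module ℂ V] (f : Module.End ℂ V) (μ : ℂ) (m : ℕ)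
    (v : V) : (f ^ m) v = ∑ j ∈ Finset.range (m + 1),
      ((m.choose j : ℂ) * μ ^ (m - j)) • ((f - μ • (1 : Module.End ℂ V)) ^ j) v := by
  have hc : Commute (f - μ • (1 : Module.End ℂ V)) (μ • (1 : Module.End ℂ V)) :=
    (Commute.one_right _).smul_right μ
  have h1 : f = (f - μ • (1 : Module.End ℂ V)) + μ • (1 : Module.End ℂ V) := by
    rw [sub_add_cancel]
  conv_lhs => rw [h1, hc.add_pow m]
  rw [LinearMap.sum_apply]
  refine Finset.sum_congr rfl fun j _ => ?_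
  rw [smul_pow, one_pow, mul_smul_comm, mul_one, smul_mul_assoc, LinearMap.smul_apply,
    ← nsmul_eq_mul', LinearMap.smul_apply, ← Nat.cast_smul_eq_nsmul ℂ, smul_smul, mul_comm]

/-- truncated binomial sum -/
theorem asym_binom' {V : Type*} [AddCommGroup V] [Module ℂ V] (f : Module.End ℂ V) (μ : ℂ)
    (K m : ℕ) (v : V) (hK : ∀ j, K ≤ j → ((f - μ • (1 : Module.End ℂ V)) ^ j) v = 0)
    (hm : K ≤ m + 1) : (f ^ m) v = ∑ j ∈ Finset.range K,
      ((m.choose j : ℂ) * μ ^ (m - j)) • ((f - μ • (1 : Module.End ℂ V)) ^ j) v := by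
  rw [asym_binom f μ m v]
  symm
  apply Finset.sum_subset
  · intro j hj
    rw [Finset.mem_range] at hj ⊢
    omega
  · intro j _ hj
    rw [Finset.mem_range, not_lt] at hj
    rw [hK j hj, smul_zero]

theorem asym_small (μ : ℂ) (ρ : ℝ) (hρ : 0 < ρ) (hμ : ‖μ‖ < ρ) (j k : ℕ) :
    Tendsto (fun m : ℕ => (((m.choose k : ℝ) * ρ ^ m : ℝ) : ℂ)⁻¹ * ((m.choose j : ℂ) * μ ^ (m - j)))
      atTop (𝓝 0) := by
  set r : ℝ := max ‖μ‖ (ρ / 2) with hr
  have hr0 : 0 < r := lt_of_lt_of_le (by positivity) (le_max_right _ _)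
  have hr1 : r < ρ := max_lt hμ (by linarith)
  have hrr : |r / ρ| < 1 := by
    rw [abs_of_pos (by positivity), div_lt_one hρ]
    exact hr1
  have hlim := (tendsto_pow_const_mul_const_pow_of_abs_lt_one j hrr).mul_const (r ^ j)⁻¹
  rw [zero_mul] at hlim
  apply squeeze_zero_norm' _ hlim
  filter_upwards [eventually_ge_atTop j, eventually_ge_atTop k] with m hmj hmk
  have hck : (1 : ℝ) ≤ (m.choose k : ℝ) := by
    exact_mod_cast Nat.choose_pos hmk
  have hcj : (m.choose j : ℝ) ≤ (m : ℝ) ^ j := by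
    exact_mod_cast Nat.choose_le_pow m j
  have hpow : ‖μ‖ ^ (m - j) ≤ r ^ m * (r ^ j)⁻¹ := by
    calc ‖μ‖ ^ (m - j) ≤ r ^ (m - j) := pow_le_pow_left₀ (norm_nonneg _) (le_max_left _ _) _
      _ = r ^ m * (r ^ j)⁻¹ := by
        rw [eq_mul_inv_iff_mul_eq₀ (by positivity), ← pow_add, Nat.sub_add_cancel hmj]
  rw [norm_mul, norm_inv, Complex.norm_real, Real.norm_of_nonneg (by positivity), norm_mul,
    norm_pow, Complex.norm_natCast]
  calc ((m.choose k : ℝ) * ρ ^ m)⁻¹ * ((m.choose j : ℝ) * ‖μ‖ ^ (m - j))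
      ≤ (ρ ^ m)⁻¹ * ((m : ℝ) ^ j * (r ^ m * (r ^ j)⁻¹)) := by
        apply mul_le_mul _ _ (by positivity) (by positivity)
        · apply inv_anti₀ (by positivity)
          exact le_mul_of_one_le_left (by positivity) hck
        · exact mul_le_mul hcj hpow (by positivity) (by positivity)
    _ = (m : ℝ) ^ j * (r / ρ) ^ m * (r ^ j)⁻¹ := by
        rw [div_pow]
        field_simp

theorem asym_choose (j k : ℕ) (hjk : j < k) :
    Tendsto (fun m : ℕ => (m.choose j : ℝ) / (m.choose k : ℝ)) atTop (𝓝 0) := by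
  have h1 : (fun m : ℕ => (m.choose j : ℝ)) =o[atTop] (fun m : ℕ => (m.choose k : ℝ)) := by
    have h2 : (fun m : ℕ => ((m : ℝ)) ^ j) =o[atTop] (fun m : ℕ => ((m : ℝ)) ^ k) :=
      (Asymptotics.isLittleO_pow_pow_atTop_of_lt hjk).comp_tendsto tendsto_natCast_atTop_atTop
    exact ((isTheta_choose j).1.trans_isLittleO h2).trans_isBigO (isTheta_choose k).2
  exact h1.tendsto_div_nhds_zero

theorem asym_lt (ρ : ℝ) (hρ : 0 < ρ) (j k : ℕ) (hjk : j < k) :
    Tendsto (fun m : ℕ => (((m.choose k : ℝ) * ρ ^ m : ℝ) : ℂ)⁻¹ *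
      ((m.choose j : ℂ) * (ρ : ℂ) ^ (m - j))) atTop (𝓝 0) := by
  have h1 := (asym_choose j k hjk).mul_const ((ρ ^ j)⁻¹)
  rw [zero_mul] at h1
  have h2 := (Complex.continuous_ofReal.tendsto 0).comp h1
  rw [Complex.ofReal_zero] at h2
  refine h2.congr' ?_
  filter_upwards [eventually_ge_atTop j] with m hmj
  have hρ' : (ρ : ℂ) ≠ 0 := by exact_mod_cast hρ.ne'
  have h3 : (ρ : ℂ) ^ m = (ρ : ℂ) ^ (m - j) * (ρ : ℂ) ^ j := by
    rw [← pow_add, Nat.sub_add_cancel hmj]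
  simp only [Function.comp]
  push_cast
  rw [h3]
  field_simp

theorem asym_eq (ρ : ℝ) (hρ : 0 < ρ) (k : ℕ) :
    Tendsto (fun m : ℕ => (((m.choose k : ℝ) * ρ ^ m : ℝ) : ℂ)⁻¹ *
      ((m.choose k : ℂ) * (ρ : ℂ) ^ (m - k))) atTop (𝓝 (((ρ : ℂ) ^ k)⁻¹)) := by
  refine tendsto_const_nhds.congr' ?_
  filter_upwards [eventually_ge_atTop k] with m hmk
  have hρ' : (ρ : ℂ) ≠ 0 := by exact_mod_cast hρ.ne'
  have hck : (m.choose k : ℂ) ≠ 0 := by
    exact_mod_cast (Nat.choose_pos hmk).ne'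
  have h3 : (ρ : ℂ) ^ m = (ρ : ℂ) ^ (m - k) * (ρ : ℂ) ^ k := by
    rw [← pow_add, Nat.sub_add_cancel hmk]
  push_cast
  rw [h3]
  field_simp

theorem asym_vec (f : Module.End ℂ (Fin n → ℂ)) (ρ : ℝ) (μ : ℂ) (k K : ℕ) (v : Fin n → ℂ)
    (hK : ∀ j, K ≤ j → ((f - μ • (1 : Module.End ℂ (Fin n → ℂ))) ^ j) v = 0) (c : ℕ → ℂ)
    (hc : ∀ j < K, Tendsto (fun m : ℕ => (((m.choose k : ℝ) * ρ ^ m : ℝ) : ℂ)⁻¹ *
      ((m.choose j : ℂ) * μ ^ (m - j))) atTop (𝓝 (c j))) :
    Tendsto (fun m : ℕ => (((m.choose k : ℝ) * ρ ^ m : ℝ) : ℂ)⁻¹ • (f ^ m) v) atTop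
      (𝓝 (∑ j ∈ Finset.range K, c j • ((f - μ • (1 : Module.End ℂ (Fin n → ℂ))) ^ j) v)) := by
  have h1 : Tendsto (fun m : ℕ => ∑ j ∈ Finset.range K,
      ((((m.choose k : ℝ) * ρ ^ m : ℝ) : ℂ)⁻¹ * ((m.choose j : ℂ) * μ ^ (m - j))) •
        ((f - μ • (1 : Module.End ℂ (Fin n → ℂ))) ^ j) v) atTop
      (𝓝 (∑ j ∈ Finset.range K, c j • ((f - μ • (1 : Module.End ℂ (Fin n → ℂ))) ^ j) v)) := by
    apply tendsto_finsetSum
    intro j hj
    exact (hc j (Finset.mem_range.1 hj)).smul_const _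
  refine h1.congr' ?_
  filter_upwards [eventually_ge_atTop K] with m hm
  rw [asym_binom' f μ K m v hK (by omega), Finset.smul_sum]
  refine Finset.sum_congr rfl fun j _ => ?_
  rw [smul_smul]

theorem asym_zero_of_le {V : Type*} [AddCommGroup V] [Module ℂ V] (N : Module.End ℂ V) (v : V)
    (K : ℕ) (h : (N ^ K) v = 0) : ∀ j, K ≤ j → (N ^ j) v = 0 := by
  intro j hj
  obtain ⟨i, rfl⟩ := Nat.exists_eq_add_of_le hj
  rw [add_comm, pow_add, Module.End.mul_apply, h, map_zero]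

theorem pow_asymp (B : Matrix (Fin n) (Fin n) ℂ) (ρ : ℝ) (hρ : 0 < ρ)
    (h1 : (ρ : ℂ) ∈ spectrum ℂ B) (h2 : ∀ z ∈ spectrum ℂ B, z ≠ (ρ : ℂ) → ‖z‖ < ρ) :
    ∃ (a : ℕ → ℝ) (X : Matrix (Fin n) (Fin n) ℂ), X ≠ 0 ∧ (∀ᶠ m in atTop, 0 < a m) ∧
      Tendsto (fun m : ℕ => ((a m)⁻¹ : ℂ) • B ^ m) atTop (𝓝 X) := by
  classical
  set f : Module.End ℂ (Fin n → ℂ) := Matrix.toLin' B with hf
  have hfpow : ∀ (m : ℕ) (v : Fin n → ℂ), (f ^ m) v = (B ^ m) *ᵥ v := by
    intro m v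
    rw [hf, ← Matrix.toLin'_pow, Matrix.toLin'_apply]
  have hspec : ∀ μ : ℂ, f.HasEigenvalue μ ↔ μ ∈ spectrum ℂ B := by
    intro μ
    rw [Module.End.hasEigenvalue_iff_mem_spectrum, hf, Matrix.spectrum_toLin']
  set N : Module.End ℂ (Fin n → ℂ) := f - (ρ : ℂ) • (1 : Module.End ℂ (Fin n → ℂ)) with hN
  -- the exponent `k`
  obtain ⟨u, hu⟩ := ((hspec _).2 h1).exists_hasEigenvector
  have hu0 : u ≠ 0 := hu.2
  have huE : u ∈ f.maxGenEigenspace (ρ : ℂ) :=
    Module.End.eigenspace_le_maxGenEigenspace hu.1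
  have hex : ∃ K : ℕ, ∀ v ∈ f.maxGenEigenspace (ρ : ℂ), (N ^ K) v = 0 := by
    refine ⟨Module.finrank ℂ (Fin n → ℂ), fun v hv => ?_⟩
    rw [Module.End.maxGenEigenspace_eq_genEigenspace_finrank, Module.End.mem_genEigenspace_nat] at hv
    exact LinearMap.mem_ker.1 hv
  set K := Nat.find hex with hKdef
  have hK : ∀ v ∈ f.maxGenEigenspace (ρ : ℂ), (N ^ K) v = 0 := Nat.find_spec hex
  have hK0 : K ≠ 0 := by
    intro h0
    have h3 := hK u huE
    rw [h0, pow_zero] at h3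
    exact hu0 h3
  obtain ⟨k, hk⟩ := Nat.exists_eq_succ_of_ne_zero hK0
  obtain ⟨v0, hv0E, hv0⟩ : ∃ v0 ∈ f.maxGenEigenspace (ρ : ℂ), (N ^ k) v0 ≠ 0 := by
    by_contra hcon
    push Not at hcon
    exact Nat.find_min hex (show k < K by omega) hcon
  set a : ℕ → ℝ := fun m => (m.choose k : ℝ) * ρ ^ m with ha
  -- convergence
  have hconvρ : ∀ v ∈ f.maxGenEigenspace (ρ : ℂ),
      Tendsto (fun m : ℕ => ((a m : ℝ) : ℂ)⁻¹ • (f ^ m) v) atTop
        (𝓝 (((ρ : ℂ) ^ k)⁻¹ • (N ^ k) v)) := by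
    intro v hv
    have h3 := asym_vec f ρ (ρ : ℂ) k (k + 1) v
      (asym_zero_of_le N v (k + 1) (by rw [← Nat.succ_eq_add_one, ← hk]; exact hK v hv))
      (fun j => if j = k then ((ρ : ℂ) ^ k)⁻¹ else 0) (fun j hj => by
        by_cases hjk : j = k
        · rw [if_pos hjk, hjk]
          exact asym_eq ρ hρ k
        · rw [if_neg hjk]
          exact asym_lt ρ hρ j k (by omega))
    have h4 : ∑ j ∈ Finset.range (k + 1), (if j = k then ((ρ : ℂ) ^ k)⁻¹ else 0) •
        ((f - (ρ : ℂ) • (1 : Module.End ℂ (Fin n → ℂ))) ^ j) v =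
        ((ρ : ℂ) ^ k)⁻¹ • (N ^ k) v := by
      rw [Finset.sum_eq_single k]
      · rw [if_pos rfl]
      · intro j _ hjk
        rw [if_neg hjk, zero_smul]
      · intro h
        exact absurd (Finset.self_mem_range_succ k) h
    rw [h4] at h3
    exact h3
  have hconv : ∀ v : Fin n → ℂ, ∃ L : Fin n → ℂ,
      Tendsto (fun m : ℕ => ((a m : ℝ) : ℂ)⁻¹ • (f ^ m) v) atTop (𝓝 L) := by
    intro v
    have hv : v ∈ ⨆ μ : ℂ, f.maxGenEigenspace μ := by
      rw [Module.End.iSup_maxGenEigenspace_eq_top]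
      trivial
    induction hv using Submodule.iSup_induction' with
    | mem μ v hv =>
      by_cases hμ : μ = (ρ : ℂ)
      · subst hμ
        exact ⟨_, hconvρ v hv⟩
      · by_cases hv0 : v = 0
        · subst hv0
          refine ⟨0, ?_⟩
          simp only [map_zero, smul_zero]
          exact tendsto_const_nhds
        · obtain ⟨K', hK'⟩ := (Module.End.mem_maxGenEigenspace f μ v).1 hv
          have heig : f.HasEigenvalue μ := by
            have hgen : f.HasGenEigenvalue μ K' := by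
              intro hbot
              apply hv0
              have h5 : v ∈ f.genEigenspace μ K' := by
                rw [Module.End.mem_genEigenspace_nat]
                exact hK'
              rw [hbot] at h5
              exact (Submodule.mem_bot ℂ).1 h5
            exact Module.End.hasEigenvalue_of_hasGenEigenvalue hgen
          have hlt : ‖μ‖ < ρ := h2 μ ((hspec μ).1 heig) hμ
          exact ⟨_, asym_vec f ρ μ k K' v (asym_zero_of_le _ v K' hK') (fun _ => 0)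
            (fun j _ => asym_small μ ρ hρ hlt j k)⟩
    | zero =>
      refine ⟨0, ?_⟩
      simp only [map_zero, smul_zero]
      exact tendsto_const_nhds
    | add x y _ _ hx hy =>
      obtain ⟨L, hL⟩ := hx
      obtain ⟨L', hL'⟩ := hy
      refine ⟨L + L', ?_⟩
      have := hL.add hL'
      simpa only [map_add, smul_add] using this
  choose L hL using hconv
  set X : Matrix (Fin n) (Fin n) ℂ := Matrix.of fun i j => L (Pi.single j 1) i with hX
  have hT : Tendsto (fun m : ℕ => ((a m)⁻¹ : ℂ) • B ^ m) atTop (𝓝 X) := by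
    refine tendsto_pi_nhds.2 fun i => tendsto_pi_nhds.2 fun j => ?_
    have h3 := tendsto_pi_nhds.1 (hL (Pi.single j 1)) i
    refine h3.congr fun m => ?_
    rw [hfpow, Pi.smul_apply, Matrix.smul_apply, Matrix.mulVec_single_one, Matrix.col_apply]
  refine ⟨a, X, ?_, ?_, hT⟩
  · intro hX0
    have h3 : Tendsto (fun m : ℕ => (((a m)⁻¹ : ℂ) • B ^ m) *ᵥ v0) atTop (𝓝 (X *ᵥ v0)) :=
      ((continuous_id.matrix_mulVec continuous_const).tendsto X).comp hT
    have h4 := hconvρ v0 hv0E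
    have h5 : (fun m : ℕ => (((a m)⁻¹ : ℂ) • B ^ m) *ᵥ v0) =
        fun m : ℕ => ((a m : ℝ) : ℂ)⁻¹ • (f ^ m) v0 := by
      funext m
      rw [hfpow, Matrix.smul_mulVec]
    rw [h5] at h3
    have h6 := tendsto_nhds_unique h3 h4
    rw [hX0, Matrix.zero_mulVec] at h6
    have h7 : ((ρ : ℂ) ^ k)⁻¹ ≠ 0 := inv_ne_zero (pow_ne_zero _ (by exact_mod_cast hρ.ne'))
    exact (smul_ne_zero h7 hv0) h6.symm
  · filter_upwards [eventually_ge_atTop k] with m hm
    have : 0 < m.choose k := Nat.choose_pos hm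
    have h3 : (0 : ℝ) < (m.choose k : ℝ) := by exact_mod_cast this
    positivity

end H93I
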