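import Pool.Agent.Lib.H93I.Asym

/-! # H93I, chunk ASYMR: normalised powers of a real matrix converge

PROOF of `real_limit`: apply `pow_asymp` to `B.map (↑)`; the entries of `(a m)⁻¹ • B^m` are real, so the
limit is real: `X = X'.map (↑)` with `X' ≠ 0` and `(a m)⁻¹ • B^m → X'` (take real parts).  By continuity
`mx ((a m)⁻¹ • B^m) → mx X' > 0`, and for `a m > 0`
`(mx (B^m))⁻¹ • B^m = (mx ((a m)⁻¹ • B^m))⁻¹ • ((a m)⁻¹ • B^m) → (mx X')⁻¹ • X'`. -/

namespace H93I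

open Matrix Filter Topology

variable {n : ℕ}

theorem asymR_mx_pos {Y : Matrix (Fin n) (Fin n) ℝ} (hY : Y ≠ 0) : 0 < mx Y :=
  lt_of_le_of_ne (mx_nonneg Y) fun h => hY (mx_eq_zero.1 h.symm)

/-- normalisation of a convergent sequence with a nonzero limit -/
theorem asymR_norm (c : ℕ → ℝ) (Z : ℕ → Matrix (Fin n) (Fin n) ℝ) (Y : Matrix (Fin n) (Fin n) ℝ)
    (hc : ∀ᶠ m in atTop, 0 < c m) (hY : Y ≠ 0) (h : Tendsto (fun m => c m • Z m) atTop (𝓝 Y)) :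
    mx ((mx Y)⁻¹ • Y) = 1 ∧
      Tendsto (fun m => (mx (Z m))⁻¹ • Z m) atTop (𝓝 ((mx Y)⁻¹ • Y)) := by
  have hpos := asymR_mx_pos hY
  constructor
  · rw [mx_smul, abs_of_pos (inv_pos.2 hpos), inv_mul_cancel₀ hpos.ne']
  · have h1 : Tendsto (fun m => mx (c m • Z m)) atTop (𝓝 (mx Y)) :=
      (continuous_mx.tendsto Y).comp h
    have h2 := (h1.inv₀ hpos.ne').smul h
    refine h2.congr' ?_
    filter_upwards [hc] with m hm
    rw [mx_smul, abs_of_pos hm, smul_smul]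
    congr 1
    rw [mul_inv, mul_comm (c m)⁻¹, mul_assoc, inv_mul_cancel₀ hm.ne', mul_one]

theorem real_limit (B : Matrix (Fin n) (Fin n) ℝ) (ρ : ℝ) (hρ : 0 < ρ)
    (h1 : (ρ : ℂ) ∈ spectrum ℂ (B.map (fun a : ℝ => (a : ℂ))))
    (h2 : ∀ z ∈ spectrum ℂ (B.map (fun a : ℝ => (a : ℂ))), z ≠ (ρ : ℂ) → ‖z‖ < ρ) :
    ∃ X : Matrix (Fin n) (Fin n) ℝ, mx X = 1 ∧
      Tendsto (fun m : ℕ => (mx (B ^ m))⁻¹ • B ^ m) atTop (𝓝 X) := by
  obtain ⟨a, X, hX0, ha, hT⟩ := pow_asymp (B.map (fun a : ℝ => (a : ℂ))) ρ hρ h1 h2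
  have hpow : ∀ m : ℕ, (B.map (fun a : ℝ => (a : ℂ))) ^ m = (B ^ m).map (fun a : ℝ => (a : ℂ)) := by
    intro m
    exact (map_pow (RingHom.mapMatrix (m := Fin n) Complex.ofRealHom) B m).symm
  have hent : ∀ i j, Tendsto (fun m : ℕ => (((a m)⁻¹ * (B ^ m) i j : ℝ) : ℂ)) atTop (𝓝 (X i j)) := by
    intro i j
    have h3 := tendsto_pi_nhds.1 (tendsto_pi_nhds.1 hT i) j
    refine h3.congr fun m => ?_
    rw [hpow, Matrix.smul_apply, Matrix.map_apply]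
    push_cast
    rfl
  set X' : Matrix (Fin n) (Fin n) ℝ := Matrix.of fun i j => (X i j).re with hX'
  have hT' : Tendsto (fun m : ℕ => (a m)⁻¹ • B ^ m) atTop (𝓝 X') := by
    refine tendsto_pi_nhds.2 fun i => tendsto_pi_nhds.2 fun j => ?_
    have h3 := (Complex.continuous_re.tendsto _).comp (hent i j)
    exact h3
  have him : ∀ i j, (X i j).im = 0 := by
    intro i j
    have h3 := (Complex.continuous_im.tendsto _).comp (hent i j)
    have h4 : (Complex.im ∘ fun m : ℕ => (((a m)⁻¹ * (B ^ m) i j : ℝ) : ℂ)) = fun _ => (0 : ℝ) := by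
      funext m
      exact Complex.ofReal_im _
    rw [h4] at h3
    exact tendsto_nhds_unique h3 tendsto_const_nhds
  have hX'0 : X' ≠ 0 := by
    intro h0
    apply hX0
    ext i j
    have h3 : (X i j).re = 0 := congrFun (congrFun h0 i) j
    exact Complex.ext h3 (him i j)
  obtain ⟨h3, h4⟩ := asymR_norm (fun m => (a m)⁻¹) (fun m => B ^ m) X'
    (ha.mono fun m hm => inv_pos.2 hm) hX'0 hT'
  exact ⟨_, h3, h4⟩

end H93I
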