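import Mathlib
import Pool.Agent.Lib.Helper20.Simplicial

/-!
Own form of the result of `S07755` (MP_284e51_co): the largest singular value of the boundary map
of a finite simplicial complex does not increase with the dimension.
-/

set_option autoImplicit false

namespace Pool.Agent.Lib.H93I

open scoped Matrix

universe u

/-- A finite abstract simplicial complex on a vertex set `V`: finitely many nonempty finite sets
of vertices (the faces), such that every nonempty subset of a face is a face. -/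
structure SimplicialCpx (V : Type u) where
  /-- the faces -/
  faces : Finset (Finset V)
  nonempty_of_mem : ∀ s ∈ faces, s.Nonempty
  mem_of_subset : ∀ s ∈ faces, ∀ t : Finset V, t ⊆ s → t.Nonempty → t ∈ faces

/-- The `k`-dimensional faces of `X`: the faces with `k + 1` vertices. -/
def SimplicialCpx.Face {V : Type u} (X : SimplicialCpx V) (k : ℕ) : Type u :=
  {s : Finset V // s ∈ X.faces ∧ s.card = k + 1}

noncomputable instance {V : Type u} (X : SimplicialCpx V) (k : ℕ) : Fintype (X.Face k) := by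
  classical
  exact Fintype.ofInjective
    (fun s : X.Face k => (⟨s.1, s.2.1⟩ : {s : Finset V // s ∈ X.faces}))
    (fun s t h => Subtype.ext (congrArg (fun z : {s : Finset V // s ∈ X.faces} => z.1) h))

noncomputable instance {V : Type u} (X : SimplicialCpx V) (k : ℕ) : DecidableEq (X.Face k) :=
  Classical.decEq _

/-- The matrix of the boundary map from `(k+1)`-chains to `k`-chains of `X`, with real
coefficients. The orientation of a face `s` is the one given by the increasing order of its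
vertices if `o s = 1` and the opposite one if `o s = -1`. If the vertices of `s` are
`v_0 < ... < v_(k+1)`, then (for `o = 1`) the boundary of `[v_0, ..., v_(k+1)]` is the sum over
`i` of `(-1)^i` times the face without `v_i`; `i` is the number of vertices of `s` below `v_i`. -/
noncomputable def boundary {V : Type u} [LinearOrder V] (X : SimplicialCpx V) (o : Finset V → ℤˣ)
    (k : ℕ) : Matrix (X.Face k) (X.Face (k + 1)) ℝ :=
  fun t s => (((o t.1 * o s.1 : ℤˣ) : ℤ) : ℝ) *
    ∑ v ∈ s.1, if t.1 = s.1.erase v then (-1 : ℝ) ^ (s.1.filter (fun w => w < v)).card else 0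

/-- The largest singular value of a real matrix `A`: the operator norm of `x ↦ A x` for the
Euclidean norms (it is `0` if `A` has no columns). -/
noncomputable def sigmaMax {m n : Type u} [Fintype m] [Fintype n] (A : Matrix m n ℝ) : ℝ := by
  classical
  exact ‖LinearMap.toContinuousLinearMap (Matrix.toEuclideanLin A)‖

/-! ### Proof -/

section proof

variable {V : Type u} [Fintype V] [LinearOrder V]

lemma sigmaMax_nonneg {m n : Type u} [Fintype m] [Fintype n] (A : Matrix m n ℝ) :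
    0 ≤ sigmaMax A := by
  classical
  exact norm_nonneg _

lemma dot_mulVec_le {m n : Type u} [Fintype m] [Fintype n] (A : Matrix m n ℝ) (z : n → ℝ) :
    (A *ᵥ z) ⬝ᵥ (A *ᵥ z) ≤ sigmaMax A ^ 2 * (z ⬝ᵥ z) := by
  classical
  have h := (LinearMap.toContinuousLinearMap (Matrix.toEuclideanLin A)).le_opNorm
    (WithLp.toLp 2 z)
  have h2 : ‖(LinearMap.toContinuousLinearMap (Matrix.toEuclideanLin A)) (WithLp.toLp 2 z)‖ ^ 2
      = (A *ᵥ z) ⬝ᵥ (A *ᵥ z) := by
    rw [EuclideanSpace.norm_sq_eq]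
    simp only [dotProduct, Real.norm_eq_abs, sq_abs]
    apply Finset.sum_congr rfl
    intro i _
    rw [← sq]
    rfl
  have h3 : ‖(WithLp.toLp 2 z : EuclideanSpace ℝ n)‖ ^ 2 = z ⬝ᵥ z := by
    rw [EuclideanSpace.norm_sq_eq]
    simp only [dotProduct, Real.norm_eq_abs, sq_abs]
    apply Finset.sum_congr rfl
    intro i _
    rw [← sq]
  have h4 := pow_le_pow_left₀ (norm_nonneg _) h 2
  rw [h2, mul_pow, h3] at h4
  exact h4

lemma sigmaMax_le {m n : Type u} [Fintype m] [Fintype n] (A : Matrix m n ℝ) (c : ℝ) (hc : 0 ≤ c)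
    (h : ∀ z : n → ℝ, (A *ᵥ z) ⬝ᵥ (A *ᵥ z) ≤ c ^ 2 * (z ⬝ᵥ z)) : sigmaMax A ≤ c := by
  classical
  apply ContinuousLinearMap.opNorm_le_bound _ hc
  intro x
  have h2 : ‖(LinearMap.toContinuousLinearMap (Matrix.toEuclideanLin A)) x‖ ^ 2
      = (A *ᵥ x.ofLp) ⬝ᵥ (A *ᵥ x.ofLp) := by
    rw [EuclideanSpace.norm_sq_eq]
    simp only [dotProduct, Real.norm_eq_abs, sq_abs]
    apply Finset.sum_congr rfl
    intro i _
    rw [← sq]
    rfl
  have h3 : ‖x‖ ^ 2 = x.ofLp ⬝ᵥ x.ofLp := by
    rw [EuclideanSpace.norm_sq_eq]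
    simp only [dotProduct, Real.norm_eq_abs, sq_abs]
    apply Finset.sum_congr rfl
    intro i _
    rw [← sq]
  have h4 := h x.ofLp
  rw [← h2, ← h3, ← mul_pow] at h4
  exact abs_le_of_sq_le_sq' h4 (mul_nonneg hc (norm_nonneg _)) |>.2

/-- the coefficient of the set `t` in the boundary of the set `s` -/
noncomputable def coef {α : Type*} [LinearOrder α] (t s : Finset α) : ℝ :=
  ∑ v ∈ s, if t = s.erase v then (-1 : ℝ) ^ (s.filter (fun w => w < v)).card else 0

/-- the order isomorphism from an initial segment of the natural numbers -/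
noncomputable def ord (V : Type u) [Fintype V] [LinearOrder V] : Fin (Fintype.card V) ≃o V :=
  Fintype.orderIsoFinOfCardEq V rfl

/-- the induced bijection of finite sets -/
noncomputable def eqv (V : Type u) [Fintype V] [LinearOrder V] :
    Finset (Fin (Fintype.card V)) ≃ Finset V := (ord V).toEquiv.finsetCongr

lemma eqv_apply (s : Finset (Fin (Fintype.card V))) :
    eqv V s = s.map (ord V).toEquiv.toEmbedding := rfl

lemma eqv_erase (s : Finset (Fin (Fintype.card V))) (v : Fin (Fintype.card V)) :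
    (eqv V s).erase (ord V v) = eqv V (s.erase v) := by
  rw [eqv_apply, eqv_apply]
  ext w
  simp only [Finset.mem_erase, Finset.mem_map, Equiv.coe_toEmbedding]
  constructor
  · rintro ⟨h1, a, h2, rfl⟩
    exact ⟨a, ⟨fun h => h1 (by rw [h]; rfl), h2⟩, rfl⟩
  · rintro ⟨a, ⟨h1, h2⟩, rfl⟩
    exact ⟨fun h => h1 ((ord V).injective h), a, h2, rfl⟩

lemma eqv_filter (s : Finset (Fin (Fintype.card V))) (v : Fin (Fintype.card V)) :
    ((eqv V s).filter (fun w => w < ord V v)).card = (s.filter (fun w => w < v)).card := by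
  rw [eqv_apply, Finset.filter_map, Finset.card_map]
  congr 1
  apply Finset.filter_congr
  intro w _
  exact (ord V).lt_iff_lt

lemma coef_eqv (t s : Finset (Fin (Fintype.card V))) :
    coef (eqv V t) (eqv V s) = coef t s := by
  unfold coef
  have h : eqv V s = s.map (ord V).toEquiv.toEmbedding := rfl
  conv_lhs => rw [h, Finset.sum_map]
  apply Finset.sum_congr rfl
  intro v _
  have h1 : (ord V).toEquiv.toEmbedding v = ord V v := rfl
  rw [← h, h1, eqv_erase, eqv_filter]
  by_cases h2 : t = s.erase v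
  · rw [if_pos h2, if_pos (by rw [h2])]
  · rw [if_neg h2, if_neg (fun h3 => h2 ((eqv V).injective h3))]

lemma eqv_card (s : Finset (Fin (Fintype.card V))) : (eqv V s).card = s.card := by
  rw [eqv_apply, Finset.card_map]

lemma sum_face (X : SimplicialCpx V) (k : ℕ) (g : Finset V → ℝ) :
    ∑ s : X.Face k, g s.1 =
      ∑ s ∈ Finset.univ.filter (fun s => s ∈ X.faces ∧ s.card = k + 1), g s := by
  classical
  symm
  exact Finset.sum_subtype _ (by simp) g

/-- the complex, transported to an initial segment of the natural numbers -/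
noncomputable def img (X : SimplicialCpx V) : Finset (Finset (Fin (Fintype.card V))) :=
  Finset.univ.filter (fun s => eqv V s ∈ X.faces)

lemma mem_img (X : SimplicialCpx V) (s : Finset (Fin (Fintype.card V))) :
    s ∈ img X ↔ eqv V s ∈ X.faces := by
  simp [img]

lemma img_down (X : SimplicialCpx V) :
    ∀ s ∈ img X, ∀ t : Finset (Fin (Fintype.card V)), t ⊆ s → t.Nonempty → t ∈ img X := by
  intro s hs t hts ht
  rw [mem_img] at hs ⊢
  refine X.mem_of_subset _ hs _ ?_ ?_
  · rw [eqv_apply, eqv_apply]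
    exact Finset.map_subset_map.2 hts
  · rw [eqv_apply]
    exact ht.map

/-- the matrices of the frozen statement -/
noncomputable def bigD (X : SimplicialCpx V) (m : ℕ) :
    Matrix (Finset (Fin (Fintype.card V))) (Finset (Fin (Fintype.card V))) ℝ :=
  fun t s => if s ∈ img X ∧ s.card = m then
              ∑ v ∈ s, (if t = s.erase v then
                (-1 : ℝ) ^ (Finset.filter (fun w => w < v) s).card else 0)
            else 0

lemma coef_ne_zero {α : Type*} [LinearOrder α] {t s : Finset α} (h : coef t s ≠ 0) :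
    ∃ v ∈ s, t = s.erase v := by
  unfold coef at h
  obtain ⟨v, hv, hv2⟩ := Finset.exists_ne_zero_of_sum_ne_zero h
  refine ⟨v, hv, ?_⟩
  by_contra h3
  rw [if_neg h3] at hv2
  exact hv2 rfl

lemma bigD_mulVec (X : SimplicialCpx V) (k : ℕ) (y : Finset (Fin (Fintype.card V)) → ℝ)
    (t : Finset V) :
    (bigD X (k + 2) *ᵥ y) ((eqv V).symm t) =
      ∑ s : X.Face (k + 1), coef t s.1 * y ((eqv V).symm s.1) := by
  rw [sum_face X (k + 1) (fun s => coef t s * y ((eqv V).symm s)), Finset.sum_filter]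
  simp only [Matrix.mulVec, dotProduct]
  rw [← Equiv.sum_comp (eqv V).symm]
  apply Finset.sum_congr rfl
  intro s _
  have h1 : (((eqv V).symm s ∈ img X) ∧ ((eqv V).symm s).card = k + 2) ↔
      (s ∈ X.faces ∧ s.card = k + 1 + 1) := by
    rw [mem_img, Equiv.apply_symm_apply, ← eqv_card, Equiv.apply_symm_apply]
  unfold bigD
  by_cases h2 : s ∈ X.faces ∧ s.card = k + 1 + 1
  · rw [if_pos h2, if_pos (h1.2 h2)]
    congr 1
    have h3 := coef_eqv ((eqv V).symm t) ((eqv V).symm s)
    rw [Equiv.apply_symm_apply, Equiv.apply_symm_apply] at h3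
    rw [h3]
    rfl
  · rw [if_neg h2, if_neg (fun h => h2 (h1.1 h)), zero_mul]

lemma unit_sq (u : ℤˣ) : (((u : ℤˣ) : ℤ) : ℝ) * (((u : ℤˣ) : ℤ) : ℝ) = 1 := by
  rcases Int.units_eq_one_or u with h | h <;> simp [h]

lemma boundary_mulVec (X : SimplicialCpx V) (o : Finset V → ℤˣ) (k : ℕ)
    (y : Finset (Fin (Fintype.card V)) → ℝ) (z : X.Face (k + 1) → ℝ)
    (hz : ∀ s, z s = ((o s.1 : ℤ) : ℝ) * y ((eqv V).symm s.1)) (t : X.Face k) :
    (boundary X o k *ᵥ z) t =
      ((o t.1 : ℤ) : ℝ) * (bigD X (k + 2) *ᵥ y) ((eqv V).symm t.1) := by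
  rw [bigD_mulVec, Finset.mul_sum]
  simp only [Matrix.mulVec, dotProduct]
  apply Finset.sum_congr rfl
  intro s _
  rw [hz s]
  have h1 := unit_sq (o s.1)
  have h2 : boundary X o k t s = (((o t.1 : ℤ) : ℝ) * ((o s.1 : ℤ) : ℝ)) * coef t.1 s.1 := by
    unfold boundary coef
    rw [Units.val_mul, Int.cast_mul]
  rw [h2]
  calc ((o t.1 : ℤ) : ℝ) * ((o s.1 : ℤ) : ℝ) * coef t.1 s.1 *
        (((o s.1 : ℤ) : ℝ) * y ((eqv V).symm s.1))
      = ((o t.1 : ℤ) : ℝ) * (coef t.1 s.1 * y ((eqv V).symm s.1)) *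
        (((o s.1 : ℤ) : ℝ) * ((o s.1 : ℤ) : ℝ)) := by ring
    _ = _ := by rw [h1, mul_one]

lemma dot_eq (X : SimplicialCpx V) (o : Finset V → ℤˣ) (k : ℕ)
    (y : Finset (Fin (Fintype.card V)) → ℝ) (z : X.Face (k + 1) → ℝ)
    (hz : ∀ s, z s = ((o s.1 : ℤ) : ℝ) * y ((eqv V).symm s.1)) :
    (bigD X (k + 2) *ᵥ y) ⬝ᵥ (bigD X (k + 2) *ᵥ y) =
      (boundary X o k *ᵥ z) ⬝ᵥ (boundary X o k *ᵥ z) := by
  have h1 : (bigD X (k + 2) *ᵥ y) ⬝ᵥ (bigD X (k + 2) *ᵥ y) =
      ∑ t : Finset V, (bigD X (k + 2) *ᵥ y) ((eqv V).symm t) *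
        (bigD X (k + 2) *ᵥ y) ((eqv V).symm t) := by
    unfold dotProduct
    exact (Equiv.sum_comp (eqv V).symm
      (fun t => (bigD X (k + 2) *ᵥ y) t * (bigD X (k + 2) *ᵥ y) t)).symm
  have h2 : (boundary X o k *ᵥ z) ⬝ᵥ (boundary X o k *ᵥ z) =
      ∑ t : X.Face k, (bigD X (k + 2) *ᵥ y) ((eqv V).symm t.1) *
        (bigD X (k + 2) *ᵥ y) ((eqv V).symm t.1) := by
    unfold dotProduct
    apply Finset.sum_congr rfl
    intro t _
    rw [boundary_mulVec X o k y z hz t]
    have h3 := unit_sq (o t.1)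
    calc ((o t.1 : ℤ) : ℝ) * (bigD X (k + 2) *ᵥ y) ((eqv V).symm t.1) *
          (((o t.1 : ℤ) : ℝ) * (bigD X (k + 2) *ᵥ y) ((eqv V).symm t.1))
        = (bigD X (k + 2) *ᵥ y) ((eqv V).symm t.1) *
          (bigD X (k + 2) *ᵥ y) ((eqv V).symm t.1) *
            (((o t.1 : ℤ) : ℝ) * ((o t.1 : ℤ) : ℝ)) := by ring
      _ = _ := by rw [h3, mul_one]
  rw [h1, h2, sum_face X k (fun t => (bigD X (k + 2) *ᵥ y) ((eqv V).symm t) *
        (bigD X (k + 2) *ᵥ y) ((eqv V).symm t)), Finset.sum_filter]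
  apply Finset.sum_congr rfl
  intro t _
  by_cases h4 : t ∈ X.faces ∧ t.card = k + 1
  · rw [if_pos h4]
  · rw [if_neg h4]
    have h5 : (bigD X (k + 2) *ᵥ y) ((eqv V).symm t) = 0 := by
      rw [bigD_mulVec]
      apply Finset.sum_eq_zero
      intro s _
      have h6 : coef t s.1 = 0 := by
        by_contra h7
        obtain ⟨v, hv, h8⟩ := coef_ne_zero h7
        apply h4
        have h9 : t.card = k + 1 := by
          rw [h8, Finset.card_erase_of_mem hv, s.2.2]
          rfl
        refine ⟨?_, h9⟩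
        refine X.mem_of_subset _ s.2.1 t ?_ ?_
        · rw [h8]
          exact Finset.erase_subset _ _
        · rw [← Finset.card_pos, h9]
          exact Nat.succ_pos _
      rw [h6, zero_mul]
    rw [h5, mul_zero]

/-- **Own form of `S07755`.** -/
theorem sigmaMax_boundary_succ_le (X : SimplicialCpx V) (o : Finset V → ℤˣ) (k : ℕ) :
    sigmaMax (boundary X o (k + 1)) ≤ sigmaMax (boundary X o k) := by
  classical
  apply sigmaMax_le _ _ (sigmaMax_nonneg _)
  intro z
  have key := Pool.Agent.Lib.Helper20.Simplicial.main (Fintype.card V) (img X) (img_down X)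
    (bigD X) (fun m t s => rfl) (k + 1) (sigmaMax (boundary X o k) ^ 2)
  have hc : ∀ y : Finset (Fin (Fintype.card V)) → ℝ,
      (bigD X (k + 1 + 1) *ᵥ y) ⬝ᵥ (bigD X (k + 1 + 1) *ᵥ y) ≤
        sigmaMax (boundary X o k) ^ 2 * (y ⬝ᵥ y) := by
    intro y
    have h1 := dot_eq X o k y (fun s => ((o s.1 : ℤ) : ℝ) * y ((eqv V).symm s.1))
      (fun s => rfl)
    have h2 := dot_mulVec_le (boundary X o k)
      (fun s => ((o s.1 : ℤ) : ℝ) * y ((eqv V).symm s.1))
    have h3 : (fun s : X.Face (k + 1) => ((o s.1 : ℤ) : ℝ) * y ((eqv V).symm s.1)) ⬝ᵥ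
        (fun s : X.Face (k + 1) => ((o s.1 : ℤ) : ℝ) * y ((eqv V).symm s.1)) ≤ y ⬝ᵥ y := by
      have h4 : (fun s : X.Face (k + 1) => ((o s.1 : ℤ) : ℝ) * y ((eqv V).symm s.1)) ⬝ᵥ
        (fun s : X.Face (k + 1) => ((o s.1 : ℤ) : ℝ) * y ((eqv V).symm s.1)) =
          ∑ s : X.Face (k + 1), y ((eqv V).symm s.1) * y ((eqv V).symm s.1) := by
        unfold dotProduct
        apply Finset.sum_congr rfl
        intro s _
        have h5 := unit_sq (o s.1)
        calc ((o s.1 : ℤ) : ℝ) * y ((eqv V).symm s.1) *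
              (((o s.1 : ℤ) : ℝ) * y ((eqv V).symm s.1))
            = y ((eqv V).symm s.1) * y ((eqv V).symm s.1) *
              (((o s.1 : ℤ) : ℝ) * ((o s.1 : ℤ) : ℝ)) := by ring
          _ = _ := by rw [h5, mul_one]
      rw [h4, sum_face X (k + 1) (fun s => y ((eqv V).symm s) * y ((eqv V).symm s))]
      have h6 : y ⬝ᵥ y = ∑ s : Finset V, y ((eqv V).symm s) * y ((eqv V).symm s) := by
        unfold dotProduct
        exact (Equiv.sum_comp (eqv V).symm (fun t => y t * y t)).symm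
      rw [h6]
      exact Finset.sum_le_sum_of_subset_of_nonneg (Finset.filter_subset _ _)
        (fun i _ _ => mul_self_nonneg _)
    have h7 : (bigD X (k + 1 + 1) *ᵥ y) ⬝ᵥ (bigD X (k + 1 + 1) *ᵥ y) ≤
        sigmaMax (boundary X o k) ^ 2 *
        ((fun s : X.Face (k + 1) => ((o s.1 : ℤ) : ℝ) * y ((eqv V).symm s.1)) ⬝ᵥ
        (fun s : X.Face (k + 1) => ((o s.1 : ℤ) : ℝ) * y ((eqv V).symm s.1))) := by
      rw [← h1] at h2
      exact h2
    exact h7.trans (mul_le_mul_of_nonneg_left h3 (sq_nonneg _))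
  have key2 := key hc
  -- the vector on all sets
  let y : Finset (Fin (Fintype.card V)) → ℝ := fun s' =>
    if h : eqv V s' ∈ X.faces ∧ (eqv V s').card = k + 1 + 1 + 1 then
      ((o (eqv V s') : ℤ) : ℝ) * z ⟨eqv V s', h⟩ else 0
  have hy : ∀ s : X.Face (k + 1 + 1), y ((eqv V).symm s.1) = ((o s.1 : ℤ) : ℝ) * z s := by
    intro s
    have h1 : eqv V ((eqv V).symm s.1) = s.1 := Equiv.apply_symm_apply _ _
    have h2 : eqv V ((eqv V).symm s.1) ∈ X.faces ∧
        (eqv V ((eqv V).symm s.1)).card = k + 1 + 1 + 1 := by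
      rw [h1]; exact s.2
    have h3 : y ((eqv V).symm s.1) = ((o (eqv V ((eqv V).symm s.1)) : ℤ) : ℝ) *
        z ⟨eqv V ((eqv V).symm s.1), h2⟩ := dif_pos h2
    rw [h3]
    have h4 : (⟨eqv V ((eqv V).symm s.1), h2⟩ : X.Face (k + 1 + 1)) = s := Subtype.ext h1
    rw [h4, h1]
  have hz : ∀ s : X.Face (k + 1 + 1), z s = ((o s.1 : ℤ) : ℝ) * y ((eqv V).symm s.1) := by
    intro s
    rw [hy s, ← mul_assoc, unit_sq, one_mul]
  have h1 := dot_eq X o (k + 1) y z hz
  have h2 := key2 y
  have h3 : y ⬝ᵥ y = z ⬝ᵥ z := by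
    have h6 : y ⬝ᵥ y = ∑ s : Finset V, y ((eqv V).symm s) * y ((eqv V).symm s) := by
      unfold dotProduct
      exact (Equiv.sum_comp (eqv V).symm (fun t => y t * y t)).symm
    have h7 : z ⬝ᵥ z = ∑ s : X.Face (k + 1 + 1), y ((eqv V).symm s.1) * y ((eqv V).symm s.1) := by
      unfold dotProduct
      apply Finset.sum_congr rfl
      intro s _
      rw [hy s]
      have h5 := unit_sq (o s.1)
      calc z s * z s = z s * z s * (((o s.1 : ℤ) : ℝ) * ((o s.1 : ℤ) : ℝ)) := by
            rw [h5, mul_one]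
        _ = _ := by ring
    rw [h6, h7, sum_face X (k + 1 + 1) (fun s => y ((eqv V).symm s) * y ((eqv V).symm s)),
      Finset.sum_filter]
    apply Finset.sum_congr rfl
    intro s _
    by_cases h8 : s ∈ X.faces ∧ s.card = k + 1 + 1 + 1
    · rw [if_pos h8]
    · rw [if_neg h8]
      have h9 : y ((eqv V).symm s) = 0 := by
        apply dif_neg
        rw [Equiv.apply_symm_apply]
        exact h8
      rw [h9, mul_zero]
  rw [← h1, ← h3]
  exact h2

end proof

end Pool.Agent.Lib.H93I
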