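import Pool.Agent.Lib.H93I.Norm

/-! # H93I, chunk CONTRACT: the dynamics of `x M x⁻¹`, `x = 1 + T v φ^T`

PROOF of `contract`.  Write `a = φ · w`, `b = φ · (M v)`, `d = φ · (M w)`.  Since `φ · v = 0`,
`(1 - T v φ^T) w = w - T a v`, `M (w - T a v) = M w - T a M v`, and `(1 + T v φ^T) u = u + T (φ·u) v`, so
`x M x⁻¹ w = (M w - T a M v) + T (d - T a b) v`.  Put `α = T (d - T a b)`.  With `μ = mx M`, `ω = vx w`:
`|α| ≥ T² |a| |b| - T |d| ≥ μ ω (T² δ c - T vx φ)` and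
`vx (M w - T a M v) ≤ μ ω (1 + T vx φ · vx v)`.  For `T` large (depending on `v, φ, c, δ, η` only)
`T² δ c - T vx φ > 0` and `1 + T vx φ vx v ≤ η (T² δ c - T vx φ)`. -/

namespace H93I

open Matrix Filter

variable {n : ℕ}

theorem CONTRACT_formula (v φ : Fin n → ℝ) (T : ℝ)
    (M : Matrix (Fin n) (Fin n) ℝ) (w : Fin n → ℝ) :
    ((1 + T • vecMulVec v φ) * M * (1 - T • vecMulVec v φ)) *ᵥ w
      = (M *ᵥ w - (T * (φ ⬝ᵥ w)) • (M *ᵥ v))
        + (T * (φ ⬝ᵥ (M *ᵥ w) - T * (φ ⬝ᵥ w) * (φ ⬝ᵥ (M *ᵥ v)))) • v := by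
  have hv : ∀ u : Fin n → ℝ, vecMulVec v φ *ᵥ u = (φ ⬝ᵥ u) • v := by
    intro u
    rw [Matrix.vecMulVec_mulVec]
    ext i
    simp [mul_comm]
  rw [← Matrix.mulVec_mulVec, ← Matrix.mulVec_mulVec, Matrix.sub_mulVec, Matrix.one_mulVec,
    Matrix.smul_mulVec, hv, Matrix.add_mulVec, Matrix.one_mulVec, Matrix.smul_mulVec, hv,
    Matrix.mulVec_sub, Matrix.mulVec_smul, Matrix.mulVec_smul, dotProduct_sub, dotProduct_smul,
    dotProduct_smul, smul_smul, smul_smul, smul_eq_mul, smul_eq_mul]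
  congr 2
  ring

theorem contract (v φ : Fin n → ℝ) (hφv : φ ⬝ᵥ v = 0) {c δ η : ℝ} (hc : 0 < c) (hδ : 0 < δ)
    (hη : 0 < η) :
    ∃ T0 : ℝ, ∀ T : ℝ, T0 ≤ T → ∀ M : Matrix (Fin n) (Fin n) ℝ, 0 < mx M →
      c * mx M ≤ |φ ⬝ᵥ (M *ᵥ v)| → ∀ w : Fin n → ℝ, 0 < vx w → δ * vx w ≤ |φ ⬝ᵥ w| →
      ∃ α : ℝ, α ≠ 0 ∧
        vx (((1 + T • vecMulVec v φ) * M * (1 - T • vecMulVec v φ)) *ᵥ w - α • v) ≤ η * |α| := by
  have hF := vx_nonneg φ
  have hV := vx_nonneg v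
  have hdc : 0 < δ * c := mul_pos hδ hc
  refine ⟨1 + (vx φ + (1 + vx φ * vx v) / η) / (δ * c), fun T hT M hM hcM w hw hδw => ?_⟩
  have hq : 0 ≤ (vx φ + (1 + vx φ * vx v) / η) / (δ * c) := by positivity
  have hT1 : 1 ≤ T := by linarith
  have hT0 : 0 < T := by linarith
  -- main inequality
  have hkey : vx φ + (1 + vx φ * vx v) / η < T * (δ * c) := by
    have : (vx φ + (1 + vx φ * vx v) / η) / (δ * c) < T := by linarith
    rwa [div_lt_iff₀ hdc] at this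
  have hE : 0 < T ^ 2 * (δ * c) - T * vx φ := by
    have h1 : 0 ≤ (1 + vx φ * vx v) / η := by positivity
    have h2 : vx φ < T * (δ * c) := by linarith
    nlinarith
  have hE2 : 1 + T * (vx φ * vx v) ≤ η * (T ^ 2 * (δ * c) - T * vx φ) := by
    have h1 : (1 + vx φ * vx v) / η < T * (δ * c) - vx φ := by linarith
    rw [div_lt_iff₀ hη] at h1
    have h2 : T * (1 + vx φ * vx v) ≤ T * ((T * (δ * c) - vx φ) * η) :=
      mul_le_mul_of_nonneg_left h1.le hT0.le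
    nlinarith [mul_nonneg hF hV]
  obtain ⟨a, ha⟩ : ∃ a, a = φ ⬝ᵥ w := ⟨_, rfl⟩
  obtain ⟨b, hb⟩ : ∃ b, b = φ ⬝ᵥ (M *ᵥ v) := ⟨_, rfl⟩
  obtain ⟨d, hd⟩ : ∃ d, d = φ ⬝ᵥ (M *ᵥ w) := ⟨_, rfl⟩
  have hμω : 0 < mx M * vx w := mul_pos hM hw
  have hα : (mx M * vx w) * (T ^ 2 * (δ * c) - T * vx φ) ≤ |T * (d - T * a * b)| := by
    have h1 : |T * (d - T * a * b)| = T * |d - T * a * b| := by rw [abs_mul, abs_of_pos hT0]
    have h2 : T * |a| * |b| - |d| ≤ |d - T * a * b| := by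
      have := abs_sub_abs_le_abs_sub (T * a * b) d
      rw [abs_sub_comm d, ← abs_of_pos hT0, ← abs_mul, ← abs_mul, abs_of_pos hT0]
      linarith
    have h3 : |d| ≤ vx φ * (mx M * vx w) := by
      rw [hd]
      exact (abs_dot_le _ _).trans (mul_le_mul_of_nonneg_left (vx_mulVec_le _ _) hF)
    have h4 : (δ * vx w) * (c * mx M) ≤ |a| * |b| := by
      rw [ha, hb]
      exact mul_le_mul hδw hcM (by positivity) (abs_nonneg _)
    rw [h1]
    have h5 : T * (T * ((δ * vx w) * (c * mx M)) - vx φ * (mx M * vx w)) ≤ T * |d - T * a * b| := by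
      refine mul_le_mul_of_nonneg_left ?_ hT0.le
      refine le_trans ?_ h2
      have h6 : T * ((δ * vx w) * (c * mx M)) ≤ T * (|a| * |b|) :=
        mul_le_mul_of_nonneg_left h4 hT0.le
      nlinarith
    refine le_trans (le_of_eq ?_) h5
    ring
  have hpos : 0 < |T * (d - T * a * b)| := lt_of_lt_of_le (mul_pos hμω hE) hα
  refine ⟨T * (d - T * a * b), abs_pos.mp hpos, ?_⟩
  rw [CONTRACT_formula, ← ha, ← hb, ← hd, add_sub_cancel_right]
  have h7 : vx (M *ᵥ w - (T * a) • (M *ᵥ v)) ≤ (mx M * vx w) * (1 + T * (vx φ * vx v)) := by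
    refine (vx_sub_le _ _).trans ?_
    rw [vx_smul, abs_mul, abs_of_pos hT0]
    have h8 : |a| ≤ vx φ * vx w := by rw [ha]; exact abs_dot_le _ _
    have h9 := vx_mulVec_le M w
    have h10 := vx_mulVec_le M v
    have h11 : T * |a| * vx (M *ᵥ v) ≤ T * (vx φ * vx w) * (mx M * vx v) := by
      refine mul_le_mul (mul_le_mul_of_nonneg_left h8 hT0.le) h10 (vx_nonneg _) (by positivity)
    calc vx (M *ᵥ w) + T * |a| * vx (M *ᵥ v)
        ≤ mx M * vx w + T * (vx φ * vx w) * (mx M * vx v) := add_le_add h9 h11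
      _ = (mx M * vx w) * (1 + T * (vx φ * vx v)) := by ring
  calc vx (M *ᵥ w - (T * a) • (M *ᵥ v)) ≤ (mx M * vx w) * (1 + T * (vx φ * vx v)) := h7
    _ ≤ (mx M * vx w) * (η * (T ^ 2 * (δ * c) - T * vx φ)) :=
        mul_le_mul_of_nonneg_left hE2 hμω.le
    _ = η * ((mx M * vx w) * (T ^ 2 * (δ * c) - T * vx φ)) := by ring
    _ ≤ η * |T * (d - T * a * b)| := mul_le_mul_of_nonneg_left hα hη.le

end H93I
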