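import Pool.Agent.Lib.H93I.Norm

/-! # H93I, chunk CURVE: an integral vector near `e_{i2}` which is not an eigenvector of finitely many
non-scalar matrices

PROOF.  Take `a : Fin n → ℕ`, `a i2 = 3 ^ n`, `a i = 3 ^ i` for `i ≠ i2` (all exponents of `3` distinct),
and `v_t = (t ^ (a i))_i`, `t ∈ ℕ` large.  Sums of two of the `a i` determine the unordered pair
(`3^x + 3^y = 3^z + 3^w` implies `{x,y} = {z,w}`).
* `v_t i2 > 0`, `v_t i3 ≠ 0` for `t ≥ 1`; for `j ≠ i2`: `t ^ (a j) ≤ t ^ (a i2 - 1) ≤ ε t ^ (a i2)` as soon as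
  `t ≥ 1/ε`.
* Let `X` be non-scalar.  If `X v_t = c v_t` then `(X v_t)_i (v_t)_j = (X v_t)_j (v_t)_i` for all `i, j`.
  If some off-diagonal entry `X_{ik} ≠ 0` (`i ≠ k`), use the pair `i, j = k`: the polynomial in `t`
  `Σ_l X_{il} t^(a_l + a_k) - Σ_l X_{kl} t^(a_l + a_i)` has coefficient `X_{ik} ≠ 0` at the exponent `2 a_k`
  (no other term has that exponent), so it has finitely many roots.  If `X` is diagonal with
  `X_{ii} ≠ X_{jj}`: the identity reads `(X_{ii} - X_{jj}) t^(a_i + a_j) = 0`, false for `t ≥ 1`.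
  So for each of the finitely many `X ∈ S` all large `t` are good.  (`Polynomial.eventually_no_roots` or
  finiteness of the root set; conditions valid for all large `t`, for finitely many `X`, combine.) -/

namespace H93I

open Matrix

variable {n : ℕ}

theorem CURVE_ap (x y z : ℕ) (h : 3 ^ x + 3 ^ y = 2 * 3 ^ z) : y = z := by
  have pos : ∀ m : ℕ, 0 < 3 ^ m := fun m => Nat.pow_pos (by norm_num)
  have big : ∀ m k : ℕ, m < k → 3 * 3 ^ m ≤ 3 ^ k := by
    intro m k hmk
    have : 3 ^ (m + 1) ≤ 3 ^ k := Nat.pow_le_pow_right (by norm_num) hmk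
    rw [pow_succ] at this
    omega
  have hx : x ≤ z := by
    by_contra hc
    have h1 := big z x (by omega)
    have h2 := pos y
    have h3 := pos z
    omega
  have hx' : 3 ^ x ≤ 3 ^ z := Nat.pow_le_pow_right (by norm_num) hx
  rcases lt_trichotomy y z with h1 | h1 | h1
  · have h2 := big y z h1
    have h3 := pos z
    omega
  · exact h1
  · have h2 := big z y h1
    have h3 := pos x
    have h4 := pos z
    omega

theorem CURVE_one (a : Fin n → ℕ) (hinj : Function.Injective a)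
    (hap : ∀ l i k, a l + a i = a k + a k → i = k) (hn : 0 < n) (X : Matrix (Fin n) (Fin n) ℝ)
    (hX : ∀ t : ℝ, X ≠ t • (1 : Matrix (Fin n) (Fin n) ℝ)) :
    ∀ᶠ t : ℕ in Filter.atTop, ∀ c : ℝ,
      X *ᵥ rv (fun i => (t : ℤ) ^ (a i)) ≠ c • rv (fun i => (t : ℤ) ^ (a i)) := by
  have hrv : ∀ (t : ℕ) (i : Fin n), rv (fun i => (t : ℤ) ^ (a i)) i = (t : ℝ) ^ (a i) := by
    intro t i
    rw [rv]
    push_cast
    rfl
  by_cases hoff : ∃ i k, i ≠ k ∧ X i k ≠ 0
  · obtain ⟨i, k, hik, hne⟩ := hoff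
    set P : Polynomial ℝ := (∑ l, Polynomial.C (X i l) * Polynomial.X ^ (a l + a k)) -
      ∑ l, Polynomial.C (X k l) * Polynomial.X ^ (a l + a i) with hP
    have hcoef : P.coeff (a k + a k) = X i k := by
      rw [hP, Polynomial.coeff_sub, Polynomial.finsetSum_coeff, Polynomial.finsetSum_coeff]
      simp only [Polynomial.coeff_C_mul_X_pow]
      rw [Finset.sum_eq_single k, Finset.sum_eq_zero]
      · simp
      · intro l _
        rw [if_neg]
        intro h
        exact hik (hap l i k h.symm)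
      · intro l _ hl
        rw [if_neg]
        intro h
        apply hl
        exact hinj (by omega)
      · intro h
        exact absurd (Finset.mem_univ k) h
    have hP0 : P ≠ 0 := by
      intro h
      rw [h, Polynomial.coeff_zero] at hcoef
      exact hne hcoef.symm
    have hev := tendsto_natCast_atTop_atTop.eventually (Polynomial.eventually_atTop_not_isRoot P hP0)
    filter_upwards [hev] with t ht c h
    apply ht
    rw [Polynomial.IsRoot.def, hP, Polynomial.eval_sub, Polynomial.eval_finsetSum,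
      Polynomial.eval_finsetSum]
    simp only [Polynomial.eval_mul, Polynomial.eval_C, Polynomial.eval_pow, Polynomial.eval_X]
    have hi := congrFun h i
    have hk := congrFun h k
    rw [Pi.smul_apply, smul_eq_mul, hrv] at hi hk
    have e1 : (∑ l, X i l * (t : ℝ) ^ (a l + a k)) = c * (t : ℝ) ^ (a i) * (t : ℝ) ^ (a k) := by
      rw [← hi, mulVec, dotProduct, Finset.sum_mul]
      refine Finset.sum_congr rfl fun l _ => ?_
      rw [hrv, pow_add, mul_assoc]
    have e2 : (∑ l, X k l * (t : ℝ) ^ (a l + a i)) = c * (t : ℝ) ^ (a k) * (t : ℝ) ^ (a i) := by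
      rw [← hk, mulVec, dotProduct, Finset.sum_mul]
      refine Finset.sum_congr rfl fun l _ => ?_
      rw [hrv, pow_add, mul_assoc]
    rw [e1, e2]
    ring
  · push Not at hoff
    have hdiag : ∃ i j, X i i ≠ X j j := by
      by_contra hcon
      push Not at hcon
      apply hX (X ⟨0, hn⟩ ⟨0, hn⟩)
      ext i j
      rw [Matrix.smul_apply, smul_eq_mul, Matrix.one_apply]
      by_cases hij : i = j
      · rw [if_pos hij, mul_one, hij]
        exact hcon j _
      · rw [if_neg hij, mul_zero]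
        exact hoff i j hij
    obtain ⟨i, j, hne⟩ := hdiag
    filter_upwards [Filter.eventually_ge_atTop 1] with t ht c h
    have ht0 : (0 : ℝ) < t := by exact_mod_cast ht
    have key : ∀ i, X i i = c := by
      intro i
      have hi := congrFun h i
      rw [Pi.smul_apply, smul_eq_mul, hrv, mulVec, dotProduct, Finset.sum_eq_single i, hrv] at hi
      · exact mul_right_cancel₀ (pow_pos ht0 _).ne' hi
      · intro l _ hl
        rw [hoff i l (Ne.symm hl), zero_mul]
      · intro h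
        exact absurd (Finset.mem_univ i) h
    exact hne ((key i).trans (key j).symm)

theorem exists_v {i2 i3 : Fin n} (h23 : i2 ≠ i3) (S : Set (Matrix (Fin n) (Fin n) ℝ)) (hS : S.Finite)
    (hSs : ∀ X ∈ S, ∀ t : ℝ, X ≠ t • (1 : Matrix (Fin n) (Fin n) ℝ)) {ε : ℝ} (hε : 0 < ε) :
    ∃ v : Fin n → ℤ, 0 < v i2 ∧ (∀ j, j ≠ i2 → |(v j : ℝ)| ≤ ε * v i2) ∧ v i3 ≠ 0 ∧
      ∀ X ∈ S, ∀ t : ℝ, X *ᵥ rv v ≠ t • rv v := by
  have hn : 0 < n := Fin.pos i2
  set b : Fin n → ℕ := fun i => if i = i2 then n else i.val with hb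
  have hb2 : b i2 = n := by rw [hb]; simp
  have hbj : ∀ j, j ≠ i2 → b j = j.val := by
    intro j hj
    rw [hb]
    simp [hj]
  have hbinj : Function.Injective b := by
    intro i j h
    by_cases hi : i = i2
    · by_cases hj : j = i2
      · rw [hi, hj]
      · rw [hi, hb2, hbj j hj] at h
        exact absurd h (ne_of_gt j.isLt)
    · by_cases hj : j = i2
      · rw [hj, hb2, hbj i hi] at h
        exact absurd h (ne_of_lt i.isLt)
      · rw [hbj i hi, hbj j hj] at h
        exact Fin.ext h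
  set a : Fin n → ℕ := fun i => 3 ^ (b i) with ha
  have hinj : Function.Injective a := by
    intro i j h
    exact hbinj (Nat.pow_right_injective (by norm_num) h)
  have hap : ∀ l i k, a l + a i = a k + a k → i = k := by
    intro l i k h
    have h1 : 3 ^ (b l) + 3 ^ (b i) = 2 * 3 ^ (b k) := by
      have : 3 ^ (b l) + 3 ^ (b i) = 3 ^ (b k) + 3 ^ (b k) := h
      omega
    exact hbinj (CURVE_ap _ _ _ h1)
  have E1 : ∀ᶠ t : ℕ in Filter.atTop, ∀ X ∈ S, ∀ c : ℝ,
      X *ᵥ rv (fun i => (t : ℤ) ^ (a i)) ≠ c • rv (fun i => (t : ℤ) ^ (a i)) := by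
    rw [Filter.eventually_all_finite hS]
    intro X hX
    exact CURVE_one a hinj hap hn X (hSs X hX)
  have E2 : ∀ᶠ t : ℕ in Filter.atTop, 1 < (t : ℝ) * ε :=
    (tendsto_natCast_atTop_atTop.atTop_mul_const hε).eventually_gt_atTop 1
  obtain ⟨t, ht1, ht2, ht3⟩ := (E1.and (E2.and (Filter.eventually_ge_atTop 1))).exists
  have ht0 : (0 : ℤ) < t := by exact_mod_cast ht3
  have ht0r : (0 : ℝ) < t := by exact_mod_cast ht3
  have ht1r : (1 : ℝ) ≤ t := by exact_mod_cast ht3
  refine ⟨fun i => (t : ℤ) ^ (a i), pow_pos ht0 _, ?_, (pow_pos ht0 _).ne', ht1⟩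
  intro j hj
  push_cast
  rw [abs_of_nonneg (by positivity)]
  have hlt : a j + 1 ≤ a i2 := by
    have h1 : b j < b i2 := by rw [hb2, hbj j hj]; exact j.isLt
    have h2 : 3 ^ (b j) < 3 ^ (b i2) := Nat.pow_lt_pow_right (by norm_num) h1
    exact h2
  have h3 : (t : ℝ) ^ (a j) * t ≤ (t : ℝ) ^ (a i2) := by
    rw [← pow_succ]
    exact pow_le_pow_right₀ ht1r hlt
  have h4 : 0 < (t : ℝ) ^ (a j) := pow_pos ht0r _
  calc (t : ℝ) ^ (a j) = (t : ℝ) ^ (a j) * 1 := (mul_one _).symm
    _ ≤ (t : ℝ) ^ (a j) * (t * ε) := mul_le_mul_of_nonneg_left ht2.le h4.le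
    _ = ε * ((t : ℝ) ^ (a j) * t) := by ring
    _ ≤ ε * (t : ℝ) ^ (a i2) := mul_le_mul_of_nonneg_left h3 hε.le

end H93I
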