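import Pool.Agent.Lib.H93I.AsymR

/-! # H93I, chunk DIRS: limit directions of the powers of a tame element

PROOF of `limit_dirs`.  `eig g` is finite and nonempty (`n > 0`), `0 ∉ eig g`; let `ρ₁ > 0` be the maximum of
the moduli.  For each of the finitely many `z ∈ eig g` with `‖z‖ = ρ₁` there is `N_z`; let `N` be the product.
Then `z^N = ρ₁^N` for these `z`.  `B = R g ^ N = R (g^N)`: the spectrum of `B.map (↑)` is
`{z^N : z ∈ eig g}` (spectral mapping, `spectrum.map_pow_of_pos` or `..._of_nonempty`), so `ρ = ρ₁^N` satisfies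
the hypotheses of `real_limit` (if `‖z‖ < ρ₁` then `‖z^N‖ < ρ₁^N`).  So `(mx (B^k))⁻¹ • B^k → X`, and with
`G = R (g^r)` (invertible, so `X * G ≠ 0`):
`(mx (B^k G))⁻¹ • (B^k G) = (mx (c_k B^k G))⁻¹ • (c_k B^k G) → (mx (X G))⁻¹ • (X G)`, `c_k = (mx (B^k))⁻¹ > 0`. -/

namespace H93I

open Matrix Filter Topology

variable {n : ℕ}

theorem dirs_exists_pow (s : Finset ℂ) (h : ∀ z ∈ s, ∃ N : ℕ, 0 < N ∧ z ^ N = (‖z‖ : ℂ) ^ N) :
    ∃ N : ℕ, 0 < N ∧ ∀ z ∈ s, z ^ N = (‖z‖ : ℂ) ^ N := by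
  classical
  induction s using Finset.induction_on with
  | empty => exact ⟨1, one_pos, fun z hz => absurd hz (Finset.notMem_empty z)⟩
  | insert w s _ ih =>
    obtain ⟨N1, hN1, h1⟩ := h w (Finset.mem_insert_self _ _)
    obtain ⟨N2, hN2, h2⟩ := ih fun z hz => h z (Finset.mem_insert_of_mem hz)
    refine ⟨N1 * N2, Nat.mul_pos hN1 hN2, fun z hz => ?_⟩
    rcases Finset.mem_insert.1 hz with rfl | hz
    · rw [pow_mul, h1, pow_mul]
    · rw [mul_comm, pow_mul, h2 z hz, pow_mul]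

theorem dirs_map (g : SLZ n) : (R g).map (fun a : ℝ => (a : ℂ)) =
    (g : Matrix (Fin n) (Fin n) ℤ).map (fun a : ℤ => (a : ℂ)) := by
  ext i j
  simp [R]

theorem limit_dirs (hn : 0 < n) (g : SLZ n)
    (h : ∀ z ∈ eig g, (∀ w ∈ eig g, ‖w‖ ≤ ‖z‖) → ∃ N : ℕ, 0 < N ∧ z ^ N = (‖z‖ : ℂ) ^ N) :
    ∃ N : ℕ, 0 < N ∧ ∀ r : ℕ, ∃ X : Matrix (Fin n) (Fin n) ℝ, mx X = 1 ∧
      Tendsto (fun k : ℕ => (mx (R (g ^ (N * k + r))))⁻¹ • R (g ^ (N * k + r))) atTop (𝓝 X) := by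
  classical
  have : Nonempty (Fin n) := ⟨⟨0, hn⟩⟩
  set C : Matrix (Fin n) (Fin n) ℂ := (R g).map (fun a : ℝ => (a : ℂ)) with hC
  have heig : eig g = spectrum ℂ C := by
    rw [hC, dirs_map]
    rfl
  have hfin : (spectrum ℂ C).Finite := Matrix.finite_spectrum C
  have hne : (spectrum ℂ C).Nonempty := spectrum.nonempty_of_isAlgClosed_of_finiteDimensional ℂ C
  have hpowC : ∀ m : ℕ, (R (g ^ m)).map (fun a : ℝ => (a : ℂ)) = C ^ m := by
    intro m
    rw [R_pow]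
    exact map_pow (RingHom.mapMatrix (m := Fin n) Complex.ofRealHom) (R g) m
  have hdet : C.det = 1 := by
    have h1 : C.det = ((R g).det : ℂ) := (RingHom.map_det Complex.ofRealHom (R g)).symm
    rw [h1, det_R]
    norm_num
  have h0 : (0 : ℂ) ∉ spectrum ℂ C := by
    rw [spectrum.zero_notMem_iff, Matrix.isUnit_iff_isUnit_det, hdet]
    exact isUnit_one
  obtain ⟨z0, hz0, hmax⟩ := Set.exists_max_image (spectrum ℂ C) (fun z => ‖z‖) hfin hne
  have hρ1 : 0 < ‖z0‖ := norm_pos_iff.2 fun h1 => h0 (h1 ▸ hz0)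
  -- the exponent
  obtain ⟨N, hN, hNz⟩ := dirs_exists_pow (hfin.toFinset.filter (fun z => ‖z‖ = ‖z0‖)) (by
    intro z hz
    rw [Finset.mem_filter, Set.Finite.mem_toFinset] at hz
    exact h z (heig ▸ hz.1) (fun w hw => by
      rw [hz.2]
      exact hmax w (heig ▸ hw)))
  have hNz' : ∀ z ∈ spectrum ℂ C, ‖z‖ = ‖z0‖ → z ^ N = (‖z0‖ : ℂ) ^ N := by
    intro z hz hzn
    rw [← hzn]
    exact hNz z (Finset.mem_filter.2 ⟨hfin.mem_toFinset.2 hz, hzn⟩)
  have hspec : spectrum ℂ ((R g ^ N).map (fun a : ℝ => (a : ℂ))) = (fun x => x ^ N) '' spectrum ℂ C := by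
    rw [← R_pow, hpowC, spectrum.map_pow_of_pos C hN]
  obtain ⟨X, hX1, hX⟩ := real_limit (R g ^ N) (‖z0‖ ^ N) (by positivity) (by
      rw [hspec]
      exact ⟨z0, hz0, by
        rw [Complex.ofReal_pow]
        exact hNz' z0 hz0 rfl⟩) (by
      intro z hz hne'
      rw [hspec] at hz
      obtain ⟨w, hw, rfl⟩ := hz
      have h1 : ‖w‖ < ‖z0‖ := by
        refine lt_of_le_of_ne (hmax w hw) fun h2 => hne' ?_
        rw [Complex.ofReal_pow]
        exact hNz' w hw h2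
      change ‖w ^ N‖ < ‖z0‖ ^ N
      rw [norm_pow]
      exact pow_lt_pow_left₀ h1 (norm_nonneg _) hN.ne')
  refine ⟨N, hN, fun r => ?_⟩
  have hX0 : X ≠ 0 := by
    rintro rfl
    rw [mx_eq_zero.2 rfl] at hX1
    exact zero_ne_one hX1
  have hXG : X * R (g ^ r) ≠ 0 := by
    intro h1
    apply hX0
    calc X = X * (R (g ^ r) * R (g ^ r)⁻¹) := by
          rw [← R_mul, mul_inv_cancel, R_one, mul_one]
      _ = (X * R (g ^ r)) * R (g ^ r)⁻¹ := by rw [mul_assoc]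
      _ = 0 := by rw [h1, zero_mul]
  have hT : Tendsto (fun k : ℕ => (mx ((R g ^ N) ^ k))⁻¹ • R (g ^ (N * k + r))) atTop
      (𝓝 (X * R (g ^ r))) := by
    have h1 := hX.mul (tendsto_const_nhds (x := R (g ^ r)))
    refine h1.congr fun k => ?_
    rw [smul_mul_assoc, pow_add, R_mul, pow_mul, R_pow (g ^ N) k, R_pow g N]
  obtain ⟨h3, h4⟩ := asymR_norm (fun k => (mx ((R g ^ N) ^ k))⁻¹) (fun k => R (g ^ (N * k + r)))
    (X * R (g ^ r)) (Eventually.of_forall fun k => by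
      rw [← R_pow, ← R_pow]
      exact inv_pos.2 (mx_R_pos hn _)) hXG hT
  exact ⟨_, h3, h4⟩

end H93I
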