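import Pool.Agent.Lib.H93I.Norm

/-! # H93I, chunk LINE: distance to a line

PROOF of `line_dist`.  Choose `a` with `v a ≠ 0`; some `b` has `D = v_a y_b - v_b y_a ≠ 0` (otherwise
`y = (y_a/v_a) v`).  For `y' = y - t v` one has `v_a y'_b - v_b y'_a = D`, so
`|D| ≤ (|v_a| + |v_b|) vx y'`: take `κ = |D| / (|v_a| + |v_b|)`. -/

namespace H93I

open Matrix

variable {n : ℕ}

theorem line_dist (v y : Fin n → ℝ) (hv : v ≠ 0) (h : ∀ t : ℝ, y ≠ t • v) :
    ∃ κ : ℝ, 0 < κ ∧ ∀ t : ℝ, κ ≤ vx (y - t • v) := by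
  obtain ⟨a, ha⟩ : ∃ a, v a ≠ 0 := by
    by_contra hc
    push Not at hc
    exact hv (funext hc)
  obtain ⟨b, hb⟩ : ∃ b, v a * y b - v b * y a ≠ 0 := by
    by_contra hc
    push Not at hc
    refine h (y a / v a) (funext fun b => ?_)
    rw [Pi.smul_apply, smul_eq_mul]
    have := hc b
    field_simp
    linarith
  have hpos : 0 < |v a| + |v b| := by
    have := abs_pos.mpr ha
    have := abs_nonneg (v b)
    linarith
  refine ⟨|v a * y b - v b * y a| / (|v a| + |v b|), div_pos (abs_pos.mpr hb) hpos, fun t => ?_⟩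
  rw [div_le_iff₀ hpos]
  have e : v a * y b - v b * y a = v a * (y - t • v) b - v b * (y - t • v) a := by
    simp only [Pi.sub_apply, Pi.smul_apply, smul_eq_mul]
    ring
  rw [e]
  have h1 := abs_le_vx (y - t • v) b
  have h2 := abs_le_vx (y - t • v) a
  calc |v a * (y - t • v) b - v b * (y - t • v) a|
      ≤ |v a * (y - t • v) b| + |v b * (y - t • v) a| := abs_sub _ _
    _ = |v a| * |(y - t • v) b| + |v b| * |(y - t • v) a| := by rw [abs_mul, abs_mul]
    _ ≤ |v a| * vx (y - t • v) + |v b| * vx (y - t • v) :=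
        add_le_add (mul_le_mul_of_nonneg_left h1 (abs_nonneg _))
          (mul_le_mul_of_nonneg_left h2 (abs_nonneg _))
    _ = vx (y - t • v) * (|v a| + |v b|) := by ring

end H93I
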