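import Pool.Agent.Lib.H93I.Psi
import Pool.Agent.Lib.H93I.Line

/-! # H93I, chunk INDEP: `v` is not an eigenvector of any non-scalar power

PROOF.  Suppose `R (g^m) v = t v` and `g^m` is not scalar.  Then `R (g^(m k)) v = t^k v` for all `k : ℕ`.
By `line_dist` there is `κ > 0` with `κ ≤ vx (X v - s v)` for all `X ∈ S` and `s : ℝ` (`S` finite: take
the minimum; for `S = ∅` any `κ`).  Put `ε = κ / (2 (vx v + 1))`; the set `Exc g S ε` is finite.
There are infinitely many `k : ℕ` with `g^(m k)` not scalar (if `g^(m k)` is scalar then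
`g^(m (k+1)) = g^(m k) g^m` is not scalar), and `k ↦ m k` is injective (`m ≠ 0` because `g^0 = 1` is scalar),
so some such `k` has `m k ∉ Exc g S ε`: there is `X ∈ S` with
`mx ((mx (R (g^(mk))))⁻¹ • R (g^(mk)) - X) < ε`.  Apply this to `v`:
`vx (s v - X v) ≤ ε vx v < κ` with `s = t^k / mx (R (g^(mk)))`.  Contradiction. -/

namespace H93I

open Matrix

variable {n : ℕ}

theorem INDEP_margin {α : Type*} {S : Set α} (hS : S.Finite) (P : α → ℝ → Prop)
    (hP : ∀ x ∈ S, ∃ κ : ℝ, 0 < κ ∧ P x κ) (hmono : ∀ x κ κ', κ' ≤ κ → P x κ → P x κ') :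
    ∃ κ : ℝ, 0 < κ ∧ ∀ x ∈ S, P x κ := by
  induction S, hS using Set.Finite.induction_on with
  | empty => exact ⟨1, one_pos, fun x hx => absurd hx (Set.notMem_empty x)⟩
  | insert _ _ ih =>
    rename_i a s _ _
    obtain ⟨κ, hκ, h⟩ := ih fun x hx => hP x (Set.mem_insert_of_mem _ hx)
    obtain ⟨κ', hκ', h'⟩ := hP a (Set.mem_insert _ _)
    refine ⟨min κ κ', lt_min hκ hκ', ?_⟩
    rintro x (rfl | hx)
    · exact hmono _ _ _ (min_le_right _ _) h'
    · exact hmono _ _ _ (min_le_left _ _) (h x hx)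

theorem indep (hn : 0 < n) (g : SLZ n) (S : Set (Matrix (Fin n) (Fin n) ℝ)) (hS : S.Finite)
    (hexc : ∀ ε : ℝ, 0 < ε → (Exc g S ε).Finite) (v : Fin n → ℝ) (hv : v ≠ 0)
    (hind : ∀ X ∈ S, ∀ t : ℝ, X *ᵥ v ≠ t • v) (m : ℤ) (hm : ¬ Scal (g ^ m)) (t : ℝ) :
    R (g ^ m) *ᵥ v ≠ t • v := by
  intro heig
  have hpow : ∀ k : ℕ, R (g ^ (m * k)) *ᵥ v = t ^ k • v := by
    intro k
    induction k with
    | zero => simp [R_one]
    | succ k ih =>
      have e : g ^ (m * ((k + 1 : ℕ) : ℤ)) = g ^ m * g ^ (m * (k : ℤ)) := by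
        rw [← _root_.zpow_add]
        congr 1
        push_cast
        ring
      rw [e, R_mul, ← mulVec_mulVec, ih, mulVec_smul, heig, smul_smul, pow_succ]
  obtain ⟨κ, hκ, hκS⟩ := INDEP_margin hS (fun X κ => ∀ s : ℝ, κ ≤ vx (X *ᵥ v - s • v))
    (fun X hX => line_dist v (X *ᵥ v) hv (hind X hX))
    (fun X κ κ' h1 h2 s => h1.trans (h2 s))
  set ε : ℝ := κ / (2 * (vx v + 1)) with hε
  have hvx := vx_nonneg v
  have hεpos : 0 < ε := by positivity
  have hfin := hexc ε hεpos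
  have hm0 : m ≠ 0 := by
    rintro rfl
    apply hm
    rw [zpow_zero]
    exact scal_one
  -- infinitely many non-scalar powers
  set T : Set ℕ := {k : ℕ | ¬ Scal (g ^ (m * k))} with hT
  have hTinf : T.Infinite := by
    intro hTf
    obtain ⟨B, hB⟩ := hTf.bddAbove
    have h1 : B + 1 ∉ T := fun h => absurd (hB h) (by omega)
    have h2 : B + 2 ∉ T := fun h => absurd (hB h) (by omega)
    simp only [hT, Set.mem_ofPred_eq, not_not] at h1 h2
    apply hm
    have e : g ^ m = g ^ (m * ((B + 2 : ℕ) : ℤ)) * (g ^ (m * ((B + 1 : ℕ) : ℤ)))⁻¹ := by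
      rw [← _root_.zpow_neg, ← _root_.zpow_add]
      congr 1
      push_cast
      ring
    rw [e]
    exact h2.mul h1.inv
  have himg : ((fun k : ℕ => m * (k : ℤ)) '' T).Infinite := by
    apply hTinf.image
    intro a _ b _ h
    have := mul_left_cancel₀ hm0 h
    exact_mod_cast this
  obtain ⟨j, hj, hjE⟩ : ∃ j ∈ (fun k : ℕ => m * (k : ℤ)) '' T, j ∉ Exc g S ε := by
    by_contra hcon
    push Not at hcon
    exact himg (hfin.subset hcon)
  obtain ⟨k, hk, rfl⟩ := hj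
  simp only at hjE
  have hex : ∃ X ∈ S, mx ((mx (R (g ^ (m * (k : ℤ)))))⁻¹ • R (g ^ (m * (k : ℤ))) - X) < ε := by
    by_contra hcon
    push Not at hcon
    exact hjE ⟨hk, hcon⟩
  obtain ⟨X, hX, hXε⟩ := hex
  set μ : ℝ := mx (R (g ^ (m * (k : ℤ)))) with hμ
  have h1 := hκS X hX (μ⁻¹ * t ^ k)
  have h2 : X *ᵥ v - (μ⁻¹ * t ^ k) • v = -((μ⁻¹ • R (g ^ (m * (k : ℤ))) - X) *ᵥ v) := by
    rw [sub_mulVec, smul_mulVec, hpow k, smul_smul, neg_sub]
  rw [h2, vx_neg] at h1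
  have h3 := vx_mulVec_le (μ⁻¹ • R (g ^ (m * (k : ℤ))) - X) v
  have h4 : mx (μ⁻¹ • R (g ^ (m * (k : ℤ))) - X) * vx v ≤ ε * vx v :=
    mul_le_mul_of_nonneg_right hXε.le hvx
  have h5 : ε * vx v < κ := by
    rw [hε, div_mul_eq_mul_div, div_lt_iff₀ (by linarith)]
    nlinarith
  linarith

end H93I
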