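import Pool.Agent.Lib.H93I.Curve
import Pool.Agent.Lib.H93I.Indep

/-! # H93I, chunk FLAG: the flag adapted to one element

PROOF.  Let `S` be as in `LD g`; we may assume `ε ≤ 1`.  `exists_v` with `ε/4` gives `v`; put `V = rv v`;
`V ≠ 0`.  By `indep`, `R (g^m) V ≠ t V` for all `t` whenever `g^m` is not scalar.

First functional.  `Y₁ = {X V : X ∈ S} ∪ {e_{i1}, e_{i2}}`: finite, no element is a multiple of `V`
(`e_{i1}`: its coordinate `i2` is `0` and `v i2 ≠ 0`; `e_{i2}`: its coordinate `i3` is `0` and `v i3 ≠ 0`).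
`exists_psi` gives `ψ₁` integral, `ψ₁ · v = 0`, `ψ₁ · y ≠ 0` on `Y₁`.  Put `β = v_{i2} e_{i3}^* - v_{i3} e_{i2}^*`
(`β · v = 0`) and `φ₀ = K β + ψ₁`, `K ∈ ℕ` large.  For `K` large: `φ₀ · y ≠ 0` for `y ∈ Y₁`
(`K a + b` with `b ≠ 0` vanishes for at most one `K`), `φ₀ i3 = K v_{i2} + ψ₁ i3 > 0`, and
`|φ₀ j| ≤ (ε/2) φ₀ i3` for `j ≠ i3` (`|φ₀ i2| ≤ K (ε/4) v_{i2} + |ψ₁ i2|`, `|φ₀ j| = |ψ₁ j|` otherwise).

Margin.  `κ > 0` with `2 κ ≤ |φ₀ · X V|` for all `X ∈ S` (finite).  Let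
`ε' = κ / (vx φ₀ · vx V + 1)`.  For `m` with `g^m` not scalar and `m ∉ Exc g S ε'` there is `X ∈ S` with
`mx (R (g^m)/mx - X) < ε'`, so `|φ₀ · R (g^m) V| ≥ κ · mx (R (g^m))`.

Second functional.  `Y₂ = {R (g^m) V : m ∈ Exc g S ε'}` is finite and contains no multiple of `V`;
`exists_psi` gives `ψ₂`.  Put `φ = k φ₀ + ψ₂`, `k ∈ ℕ` large: `φ · v = 0`; `φ i1 = k φ₀ i1 + ψ₂ i1 ≠ 0` and
`φ i2 ≠ 0` (`φ₀ i1 = φ₀ · e_{i1} ≠ 0`); `φ i3 > 0` and `|φ j| ≤ ε φ i3` for `j ≠ i3`; for `m ∉ Exc`: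
`|φ · R (g^m) V| ≥ (k κ - vx ψ₂ · vx V) mx (R (g^m)) ≥ mx (R (g^m))`; for `m ∈ Exc`: `φ · R (g^m) V ≠ 0`
(`k a + b`, `b ≠ 0`).  Let `c` be the minimum of `1` and of the finitely many numbers
`|φ · R (g^m) V| / mx (R (g^m))`, `m ∈ Exc g S ε'`. -/

namespace H93I

open Matrix

variable {n : ℕ}

theorem FLAG_ev_gt {a : ℝ} (ha : 0 < a) (b : ℝ) : ∀ᶠ K : ℕ in Filter.atTop, b < (K : ℝ) * a :=
  (tendsto_natCast_atTop_atTop.atTop_mul_const ha).eventually_gt_atTop b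

theorem FLAG_ev_ne {a : ℝ} (ha : a ≠ 0) (b : ℝ) : ∀ᶠ K : ℕ in Filter.atTop, (K : ℝ) * a + b ≠ 0 := by
  rcases lt_or_gt_of_ne ha with h | h
  · filter_upwards [FLAG_ev_gt (neg_pos.mpr h) b] with K hK h0
    linarith
  · filter_upwards [FLAG_ev_gt h (-b)] with K hK h0
    linarith

theorem FLAG_ev_ne' (a : ℝ) {b : ℝ} (hb : b ≠ 0) : ∀ᶠ K : ℕ in Filter.atTop, (K : ℝ) * a + b ≠ 0 := by
  by_cases ha : a = 0
  · refine Filter.Eventually.of_forall fun K => ?_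
    rw [ha, mul_zero, zero_add]
    exact hb
  · exact FLAG_ev_ne ha b

theorem FLAG_margin {α : Type*} {S : Set α} (hS : S.Finite) (f : α → ℝ) (hf : ∀ x ∈ S, 0 < f x) :
    ∃ κ : ℝ, 0 < κ ∧ ∀ x ∈ S, κ ≤ f x := by
  induction S, hS using Set.Finite.induction_on with
  | empty => exact ⟨1, one_pos, fun x hx => absurd hx (Set.notMem_empty x)⟩
  | insert _ _ ih =>
    obtain ⟨κ, hκ, h⟩ := ih fun x hx => hf x (Set.mem_insert_of_mem _ hx)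
    rename_i a s _ _
    refine ⟨min κ (f a), lt_min hκ (hf a (Set.mem_insert _ _)), ?_⟩
    rintro x (rfl | hx)
    · exact min_le_right _ _
    · exact (min_le_left _ _).trans (h x hx)

theorem FLAG_comb (K : ℕ) (β ψ : Fin n → ℤ) (y : Fin n → ℝ) :
    rv (fun j => (K : ℤ) * β j + ψ j) ⬝ᵥ y = K * (rv β ⬝ᵥ y) + rv ψ ⬝ᵥ y := by
  simp only [dotProduct, rv]
  rw [Finset.mul_sum, ← Finset.sum_add_distrib]
  refine Finset.sum_congr rfl fun j _ => ?_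
  push_cast
  ring

theorem FLAG_comb' (K : ℕ) (β ψ y : Fin n → ℤ) (hβ : β ⬝ᵥ y = 0) (hψ : ψ ⬝ᵥ y = 0) :
    (fun j => (K : ℤ) * β j + ψ j) ⬝ᵥ y = 0 := by
  have h : (fun j => (K : ℤ) * β j + ψ j) ⬝ᵥ y = K * (β ⬝ᵥ y) + ψ ⬝ᵥ y := by
    simp only [dotProduct]
    rw [Finset.mul_sum, ← Finset.sum_add_distrib]
    refine Finset.sum_congr rfl fun j _ => ?_
    ring
  rw [h, hβ, hψ, mul_zero, add_zero]

theorem FLAG_single (φ : Fin n → ℤ) (i : Fin n) :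
    rv φ ⬝ᵥ (Pi.single i (1 : ℝ) : Fin n → ℝ) = φ i := by
  rw [dotProduct_single, mul_one, rv]

/-- first functional -/
theorem FLAG_first {i1 i2 i3 : Fin n} (h12 : i1 ≠ i2) (h23 : i2 ≠ i3)
    (Y : Set (Fin n → ℝ)) (hY : Y.Finite) {e : ℝ} (he : 0 < e)
    (v : Fin n → ℤ) (hv2 : 0 < v i2) (hvj : ∀ j, j ≠ i2 → |(v j : ℝ)| ≤ e / 4 * v i2)
    (hv3 : v i3 ≠ 0) (hYv : ∀ y ∈ Y, ∀ t : ℝ, y ≠ t • rv v) :
    ∃ φ : Fin n → ℤ, φ ⬝ᵥ v = 0 ∧ 0 < φ i3 ∧ (∀ j, j ≠ i3 → |(φ j : ℝ)| ≤ e / 2 * φ i3) ∧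
      φ i1 ≠ 0 ∧ φ i2 ≠ 0 ∧ ∀ y ∈ Y, rv φ ⬝ᵥ y ≠ 0 := by
  have hv2r : (0 : ℝ) < v i2 := by exact_mod_cast hv2
  have hv3r : (v i3 : ℝ) ≠ 0 := by exact_mod_cast hv3
  have hv0 : v ≠ 0 := by
    intro h
    rw [h] at hv2
    exact lt_irrefl _ hv2
  set Y₁ : Set (Fin n → ℝ) := Y ∪ {Pi.single i1 1, Pi.single i2 1} with hY₁
  have hY₁f : Y₁.Finite := hY.union (Set.toFinite _)
  have hY₁v : ∀ y ∈ Y₁, ∀ t : ℝ, y ≠ t • rv v := by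
    rintro y (hy | hy | hy) t
    · exact hYv y hy t
    · rw [hy]
      intro h
      have k1 := congrFun h i2
      have k2 := congrFun h i1
      rw [Pi.single_eq_of_ne h12.symm, Pi.smul_apply, smul_eq_mul, rv] at k1
      have ht : t = 0 := by
        rcases mul_eq_zero.mp k1.symm with h0 | h0
        · exact h0
        · exact absurd h0 hv2r.ne'
      rw [Pi.single_eq_same, ht, zero_smul, Pi.zero_apply] at k2
      exact one_ne_zero k2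
    · rw [Set.mem_singleton_iff] at hy
      rw [hy]
      intro h
      have k1 := congrFun h i3
      have k2 := congrFun h i2
      rw [Pi.single_eq_of_ne h23.symm, Pi.smul_apply, smul_eq_mul, rv] at k1
      have ht : t = 0 := by
        rcases mul_eq_zero.mp k1.symm with h0 | h0
        · exact h0
        · exact absurd h0 hv3r
      rw [Pi.single_eq_same, ht, zero_smul, Pi.zero_apply] at k2
      exact one_ne_zero k2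
  obtain ⟨ψ, hψv, hψ⟩ := exists_psi v hv0 Y₁ hY₁f hY₁v
  set β : Fin n → ℤ := Pi.single i3 (v i2) - Pi.single i2 (v i3) with hβ
  have hβv : β ⬝ᵥ v = 0 := by
    rw [hβ, sub_dotProduct, single_dotProduct, single_dotProduct]
    ring
  have hβ3 : β i3 = v i2 := by
    rw [hβ, Pi.sub_apply, Pi.single_eq_same, Pi.single_eq_of_ne h23.symm, sub_zero]
  have hβ2 : β i2 = - v i3 := by
    rw [hβ, Pi.sub_apply, Pi.single_eq_same, Pi.single_eq_of_ne h23, zero_sub]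
  have hβj : ∀ j, j ≠ i3 → j ≠ i2 → β j = 0 := by
    intro j h3 h2
    rw [hβ, Pi.sub_apply, Pi.single_eq_of_ne h3, Pi.single_eq_of_ne h2, sub_zero]
  have E1 : ∀ᶠ K : ℕ in Filter.atTop, ∀ y ∈ Y₁, (K : ℝ) * (rv β ⬝ᵥ y) + rv ψ ⬝ᵥ y ≠ 0 := by
    rw [Filter.eventually_all_finite hY₁f]
    intro y hy
    exact FLAG_ev_ne' _ (hψ y hy)
  have E2 : ∀ᶠ K : ℕ in Filter.atTop, -(ψ i3 : ℝ) < (K : ℝ) * v i2 := FLAG_ev_gt hv2r _
  have E3 : ∀ᶠ K : ℕ in Filter.atTop, ∀ j : Fin n,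
      |(ψ j : ℝ)| - e / 2 * ψ i3 < (K : ℝ) * (e / 4 * v i2) := by
    rw [Filter.eventually_all]
    intro j
    exact FLAG_ev_gt (by positivity) _
  obtain ⟨K, hK1, hK2, hK3⟩ := (E1.and (E2.and E3)).exists
  have hK0 : (0 : ℝ) ≤ K := Nat.cast_nonneg K
  set φ : Fin n → ℤ := fun j => (K : ℤ) * β j + ψ j with hφ
  have hφy : ∀ y ∈ Y₁, rv φ ⬝ᵥ y ≠ 0 := by
    intro y hy
    rw [hφ, FLAG_comb]
    exact hK1 y hy
  have hφ3 : (φ i3 : ℝ) = K * v i2 + ψ i3 := by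
    rw [hφ]
    simp only [hβ3]
    push_cast
    ring
  refine ⟨φ, FLAG_comb' K β ψ v hβv hψv, ?_, ?_, ?_, ?_, ?_⟩
  · have : (0 : ℝ) < φ i3 := by rw [hφ3]; linarith
    exact_mod_cast this
  · intro j hj
    rw [hφ3]
    have hKj := hK3 j
    have hKv : 0 ≤ (K : ℝ) * (e / 4 * v i2) := by positivity
    by_cases hj2 : j = i2
    · subst hj2
      have hφ2 : (φ j : ℝ) = -(K * v i3) + ψ j := by
        rw [hφ]
        simp only [hβ2]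
        push_cast
        ring
      rw [hφ2]
      have h3 := hvj i3 h23.symm
      have h4 : |(-(K * v i3) + ψ j : ℝ)| ≤ K * (e / 4 * v j) + |(ψ j : ℝ)| := by
        refine (abs_add_le _ _).trans ?_
        rw [abs_neg, abs_mul, abs_of_nonneg hK0]
        exact add_le_add (mul_le_mul_of_nonneg_left h3 hK0) le_rfl
      linarith
    · have hφj : (φ j : ℝ) = ψ j := by
        rw [hφ]
        simp only [hβj j hj hj2]
        push_cast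
        ring
      rw [hφj]
      linarith
  · have := hφy (Pi.single i1 1) (Or.inr (Or.inl rfl))
    rw [FLAG_single] at this
    exact_mod_cast this
  · have := hφy (Pi.single i2 1) (Or.inr (Or.inr rfl))
    rw [FLAG_single] at this
    exact_mod_cast this
  · intro y hy
    exact hφy y (Or.inl hy)

theorem flag {i1 i2 i3 : Fin n} (h12 : i1 ≠ i2) (h13 : i1 ≠ i3) (h23 : i2 ≠ i3) (g : SLZ n)
    (hLD : LD g) {ε : ℝ} (hε : 0 < ε) :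
    ∃ v φ : Fin n → ℤ, φ ⬝ᵥ v = 0 ∧ 0 < v i2 ∧ (∀ j, j ≠ i2 → |(v j : ℝ)| ≤ ε * v i2) ∧ v i3 ≠ 0 ∧
      0 < φ i3 ∧ (∀ j, j ≠ i3 → |(φ j : ℝ)| ≤ ε * φ i3) ∧ φ i1 ≠ 0 ∧ φ i2 ≠ 0 ∧
      ∃ c : ℝ, 0 < c ∧ ∀ m : ℤ, ¬ Scal (g ^ m) →
        c * mx (R (g ^ m)) ≤ |rv φ ⬝ᵥ (R (g ^ m) *ᵥ rv v)| := by
  obtain ⟨S, hS, hSs, hExc⟩ := hLD
  have hn : 0 < n := Fin.pos i1
  obtain ⟨v, hv2, hvj, hv3, hvS⟩ := exists_v h23 S hS hSs (ε := ε / 4) (by positivity)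
  have hv2r : (0 : ℝ) < v i2 := by exact_mod_cast hv2
  set V : Fin n → ℝ := rv v with hV
  have hV0 : V ≠ 0 := by
    intro h
    have h1 := congrFun h i2
    rw [hV, rv, Pi.zero_apply] at h1
    exact hv2r.ne' h1
  have hv0 : v ≠ 0 := by
    intro h
    rw [h] at hv2
    exact lt_irrefl _ hv2
  have hind := indep hn g S hS hExc V hV0 hvS
  have hpos : ∀ m : ℤ, 0 < mx (R (g ^ m)) := fun m => mx_R_pos hn _
  -- first functional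
  obtain ⟨φ₀, hφ₀v, hφ₀3, hφ₀j, hφ₀1, hφ₀2, hφ₀Y⟩ := FLAG_first h12 h23 ((fun X => X *ᵥ V) '' S)
    (hS.image _) hε v hv2 hvj hv3 (by
      rintro _ ⟨X, hX, rfl⟩ t
      exact hvS X hX t)
  have hφ₀3r : (0 : ℝ) < φ₀ i3 := by exact_mod_cast hφ₀3
  obtain ⟨κ', hκ', hκS'⟩ := FLAG_margin hS (fun X => |rv φ₀ ⬝ᵥ (X *ᵥ V)|) (by
    intro X hX
    exact abs_pos.mpr (hφ₀Y _ ⟨X, hX, rfl⟩))
  set κ : ℝ := κ' / 2 with hκdef
  have hκ : 0 < κ := by positivity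
  have hκS : ∀ X ∈ S, 2 * κ ≤ |rv φ₀ ⬝ᵥ (X *ᵥ V)| := by
    intro X hX
    have := hκS' X hX
    rw [hκdef]
    linarith
  set D : ℝ := vx (rv φ₀) * vx V with hD
  have hD0 : 0 ≤ D := mul_nonneg (vx_nonneg _) (vx_nonneg _)
  set ε' : ℝ := κ / (D + 1) with hε'def
  have hε' : 0 < ε' := by positivity
  have hmain : ∀ m : ℤ, ¬ Scal (g ^ m) → m ∉ Exc g S ε' →
      κ * mx (R (g ^ m)) ≤ |rv φ₀ ⬝ᵥ (R (g ^ m) *ᵥ V)| := by
    intro m hm hmE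
    have hex : ∃ X ∈ S, mx ((mx (R (g ^ m)))⁻¹ • R (g ^ m) - X) < ε' := by
      by_contra hcon
      push Not at hcon
      exact hmE ⟨hm, hcon⟩
    obtain ⟨X, hX, hXε⟩ := hex
    have hμ := hpos m
    set μ : ℝ := mx (R (g ^ m)) with hμdef
    set N : Matrix (Fin n) (Fin n) ℝ := μ⁻¹ • R (g ^ m) - X with hN
    have hR : R (g ^ m) = μ • (X + N) := by
      rw [hN, add_sub_cancel, smul_smul, mul_inv_cancel₀ hμ.ne', one_smul]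
    have e1 : rv φ₀ ⬝ᵥ (R (g ^ m) *ᵥ V) = μ * (rv φ₀ ⬝ᵥ (X *ᵥ V) + rv φ₀ ⬝ᵥ (N *ᵥ V)) := by
      rw [hR, smul_mulVec, dotProduct_smul, add_mulVec, dotProduct_add, smul_eq_mul]
    rw [e1, abs_mul, abs_of_pos hμ, mul_comm κ μ]
    refine mul_le_mul_of_nonneg_left ?_ hμ.le
    have h1 : |rv φ₀ ⬝ᵥ (N *ᵥ V)| ≤ κ := by
      refine (abs_dot_le _ _).trans ?_
      have h2 : vx (N *ᵥ V) ≤ ε' * vx V :=
        (vx_mulVec_le _ _).trans (mul_le_mul_of_nonneg_right hXε.le (vx_nonneg _))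
      have h3 : vx (rv φ₀) * vx (N *ᵥ V) ≤ vx (rv φ₀) * (ε' * vx V) :=
        mul_le_mul_of_nonneg_left h2 (vx_nonneg _)
      refine h3.trans ?_
      have h4 : vx (rv φ₀) * (ε' * vx V) = κ * (D / (D + 1)) := by
        rw [hε'def, hD]
        ring
      rw [h4]
      refine mul_le_of_le_one_right hκ.le ?_
      rw [div_le_one (by linarith)]
      linarith
    have h5 := hκS X hX
    have h6 : |rv φ₀ ⬝ᵥ (X *ᵥ V)| ≤
        |rv φ₀ ⬝ᵥ (X *ᵥ V) + rv φ₀ ⬝ᵥ (N *ᵥ V)| + |rv φ₀ ⬝ᵥ (N *ᵥ V)| := by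
      have := abs_sub (rv φ₀ ⬝ᵥ (X *ᵥ V) + rv φ₀ ⬝ᵥ (N *ᵥ V)) (rv φ₀ ⬝ᵥ (N *ᵥ V))
      rwa [add_sub_cancel_right] at this
    linarith
  -- second functional
  have hEf := hExc ε' hε'
  obtain ⟨ψ, hψv, hψ⟩ := exists_psi v hv0 ((fun m : ℤ => R (g ^ m) *ᵥ V) '' (Exc g S ε'))
    (hEf.image _) (by
      rintro _ ⟨m, hm, rfl⟩ t
      exact hind m hm.1 t)
  have E1 : ∀ᶠ k : ℕ in Filter.atTop, (k : ℝ) * φ₀ i1 + ψ i1 ≠ 0 :=
    FLAG_ev_ne (by exact_mod_cast hφ₀1) _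
  have E2 : ∀ᶠ k : ℕ in Filter.atTop, (k : ℝ) * φ₀ i2 + ψ i2 ≠ 0 :=
    FLAG_ev_ne (by exact_mod_cast hφ₀2) _
  have E3 : ∀ᶠ k : ℕ in Filter.atTop, -(ψ i3 : ℝ) < (k : ℝ) * φ₀ i3 := FLAG_ev_gt hφ₀3r _
  have E4 : ∀ᶠ k : ℕ in Filter.atTop, ∀ j : Fin n,
      |(ψ j : ℝ)| - ε * ψ i3 < (k : ℝ) * (ε / 2 * φ₀ i3) := by
    rw [Filter.eventually_all]
    intro j
    exact FLAG_ev_gt (by positivity) _
  have E5 : ∀ᶠ k : ℕ in Filter.atTop, vx (rv ψ) * vx V + 1 < (k : ℝ) * κ := FLAG_ev_gt hκ _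
  have E6 : ∀ᶠ k : ℕ in Filter.atTop, ∀ m ∈ Exc g S ε',
      (k : ℝ) * (rv φ₀ ⬝ᵥ (R (g ^ m) *ᵥ V)) + rv ψ ⬝ᵥ (R (g ^ m) *ᵥ V) ≠ 0 := by
    rw [Filter.eventually_all_finite hEf]
    intro m hm
    exact FLAG_ev_ne' _ (hψ _ ⟨m, hm, rfl⟩)
  obtain ⟨k, hk1, hk2, hk3, hk4, hk5, hk6⟩ :=
    (E1.and (E2.and (E3.and (E4.and (E5.and E6))))).exists
  have hk0 : (0 : ℝ) ≤ k := Nat.cast_nonneg k
  set φ : Fin n → ℤ := fun j => (k : ℤ) * φ₀ j + ψ j with hφ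
  have hφr : ∀ j, (φ j : ℝ) = k * φ₀ j + ψ j := by
    intro j
    rw [hφ]
    push_cast
    ring
  have hφdot : ∀ y, rv φ ⬝ᵥ y = k * (rv φ₀ ⬝ᵥ y) + rv ψ ⬝ᵥ y := by
    intro y
    rw [hφ, FLAG_comb]
  obtain ⟨c₁, hc₁, hcE⟩ := FLAG_margin hEf
    (fun m : ℤ => |rv φ ⬝ᵥ (R (g ^ m) *ᵥ V)| / mx (R (g ^ m))) (by
      intro m hm
      refine div_pos (abs_pos.mpr ?_) (hpos m)
      rw [hφdot]
      exact hk6 m hm)
  refine ⟨v, φ, FLAG_comb' k φ₀ ψ v hφ₀v hψv, hv2, ?_, hv3, ?_, ?_, ?_, ?_, min 1 c₁,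
    lt_min one_pos hc₁, ?_⟩
  · intro j hj
    refine (hvj j hj).trans ?_
    refine mul_le_mul_of_nonneg_right (by linarith) hv2r.le
  · have : (0 : ℝ) < φ i3 := by rw [hφr]; linarith
    exact_mod_cast this
  · intro j hj
    rw [hφr j, hφr i3]
    have h1 := hφ₀j j hj
    have h2 := hk4 j
    have h3 : |(k * φ₀ j + ψ j : ℝ)| ≤ k * (ε / 2 * φ₀ i3) + |(ψ j : ℝ)| := by
      refine (abs_add_le _ _).trans ?_
      rw [abs_mul, abs_of_nonneg hk0]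
      exact add_le_add (mul_le_mul_of_nonneg_left h1 hk0) le_rfl
    linarith
  · have : (φ i1 : ℝ) ≠ 0 := by rw [hφr]; exact hk1
    exact_mod_cast this
  · have : (φ i2 : ℝ) ≠ 0 := by rw [hφr]; exact hk2
    exact_mod_cast this
  · intro m hm
    have hμ := hpos m
    by_cases hmE : m ∈ Exc g S ε'
    · have h1 := hcE m hmE
      rw [le_div_iff₀ hμ] at h1
      exact (mul_le_mul_of_nonneg_right (min_le_right _ _) hμ.le).trans h1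
    · have h1 := hmain m hm hmE
      refine (mul_le_mul_of_nonneg_right (min_le_left _ _) hμ.le).trans ?_
      rw [one_mul, hφdot]
      have h2 : |rv ψ ⬝ᵥ (R (g ^ m) *ᵥ V)| ≤ vx (rv ψ) * vx V * mx (R (g ^ m)) := by
        refine (abs_dot_le _ _).trans ?_
        have := mul_le_mul_of_nonneg_left (vx_mulVec_le (R (g ^ m)) V) (vx_nonneg (rv ψ))
        linarith
      have h3 : |(k : ℝ) * (rv φ₀ ⬝ᵥ (R (g ^ m) *ᵥ V))| ≤
          |(k : ℝ) * (rv φ₀ ⬝ᵥ (R (g ^ m) *ᵥ V)) + rv ψ ⬝ᵥ (R (g ^ m) *ᵥ V)| +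
            |rv ψ ⬝ᵥ (R (g ^ m) *ᵥ V)| := by
        have := abs_sub ((k : ℝ) * (rv φ₀ ⬝ᵥ (R (g ^ m) *ᵥ V)) + rv ψ ⬝ᵥ (R (g ^ m) *ᵥ V))
          (rv ψ ⬝ᵥ (R (g ^ m) *ᵥ V))
        rwa [add_sub_cancel_right] at this
      rw [abs_mul, abs_of_nonneg hk0] at h3
      have h4 := mul_le_mul_of_nonneg_left h1 hk0
      have h5 := mul_le_mul_of_nonneg_right hk5.le hμ.le
      nlinarith

end H93I
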