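import Pool.Agent.Lib.H93I.Norm

/-! # H93I, chunk SMALL: powers of an element of infinite order

PROOF of `finite_small`: the integral matrices with `Σ |entries| ≤ C` are finite in number, and `m ↦ g^m` is
injective when `g` has infinite order.

PROOF of `limit_not_scal`: if `X = t • 1` then `det X = t^n`; on the other hand
`det ((mx (R (s k)))⁻¹ • R (s k)) = (mx (R (s k)))^(-n) → 0`, so `t = 0`, `X = 0`, `mx X = 0 ≠ 1`. -/

namespace H93I

open Matrix Filter Topology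

variable {n : ℕ}

theorem small_finite_mat (C : ℝ) : {x : SLZ n | mx (R x) ≤ C}.Finite := by
  have h1 : {M : Matrix (Fin n) (Fin n) ℤ | ∀ i, M i ∈ {r : Fin n → ℤ | ∀ j, r j ∈
      Set.Icc (-⌊C⌋) ⌊C⌋}}.Finite :=
    Set.Finite.pi' fun _ => Set.Finite.pi' fun _ => Set.finite_Icc _ _
  have h2 : ((fun x : SLZ n => (x : Matrix (Fin n) (Fin n) ℤ)) ⁻¹' {M : Matrix (Fin n) (Fin n) ℤ |
      ∀ i, M i ∈ {r : Fin n → ℤ | ∀ j, r j ∈ Set.Icc (-⌊C⌋) ⌊C⌋}}).Finite :=
    h1.preimage (Subtype.val_injective.injOn)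
  refine h2.subset fun x hx => ?_
  intro i j
  have h3 : |(R x) i j| ≤ C := (abs_le_mx (R x) i j).trans hx
  have h4 : (R x) i j = (((x : Matrix (Fin n) (Fin n) ℤ) i j : ℤ) : ℝ) := rfl
  rw [h4] at h3
  have h5 : |(x : Matrix (Fin n) (Fin n) ℤ) i j| ≤ ⌊C⌋ := by
    rw [Int.le_floor]
    push_cast
    exact h3
  exact abs_le.1 h5

theorem finite_small (g : SLZ n) (hg : ∀ m : ℕ, 0 < m → g ^ m ≠ 1) (C : ℝ) :
    {m : ℤ | mx (R (g ^ m)) ≤ C}.Finite := by
  have hinj : Function.Injective fun m : ℤ => g ^ m := by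
    rw [injective_zpow_iff_not_isOfFinOrder, isOfFinOrder_iff_pow_eq_one]
    rintro ⟨m, hm, h⟩
    exact hg m hm h
  exact (small_finite_mat C).preimage (f := fun m : ℤ => g ^ m) hinj.injOn

theorem limit_not_scal (hn : 0 < n) (s : ℕ → SLZ n) (X : Matrix (Fin n) (Fin n) ℝ) (hX : mx X = 1)
    (hs : Tendsto (fun k => mx (R (s k))) atTop atTop)
    (hlim : Tendsto (fun k => (mx (R (s k)))⁻¹ • R (s k)) atTop (𝓝 X)) (t : ℝ) :
    X ≠ t • (1 : Matrix (Fin n) (Fin n) ℝ) := by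
  intro h
  have h1 : Tendsto (fun k => ((mx (R (s k)))⁻¹ • R (s k)).det) atTop (𝓝 X.det) :=
    ((continuous_id.matrix_det).tendsto X).comp hlim
  have h2 : Tendsto (fun k => ((mx (R (s k)))⁻¹) ^ n) atTop (𝓝 (0 ^ n)) :=
    (tendsto_inv_atTop_zero.comp hs).pow n
  have h3 : (fun k => ((mx (R (s k)))⁻¹ • R (s k)).det) = fun k => ((mx (R (s k)))⁻¹) ^ n := by
    funext k
    rw [det_smul, det_R, mul_one, Fintype.card_fin]
  rw [h3] at h1
  have h4 := tendsto_nhds_unique h1 h2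
  rw [h, det_smul, det_one, mul_one, Fintype.card_fin, zero_pow hn.ne'] at h4
  have h5 : t = 0 := pow_eq_zero_iff hn.ne' |>.1 h4
  rw [h5, zero_smul] at h
  rw [h, mx_eq_zero.2 rfl] at hX
  exact zero_ne_one hX

end H93I
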