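import Pool.Agent.Lib.H93I.Dirs
import Pool.Agent.Lib.H93I.Small

/-! # H93I, chunk HALF: limit directions for nonnegative exponents

PROOF of `half_LD`: `N` and the limits `X_r`, `r < N`, from `limit_dirs`; `S = {X_r : r < N}`.  They are not
scalar by `limit_not_scal` (the sizes tend to infinity by `finite_small`).  For `ε > 0` and each `r` only
finitely many `k` have `ε ≤ mx (normalised R (g^(Nk+r)) - X_r)` (continuity of `mx`), and every `m` is `N k + r`. -/

namespace H93I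

open Matrix Filter Topology

variable {n : ℕ}

theorem half_tendsto (g : SLZ n) (hg : ∀ m : ℕ, 0 < m → g ^ m ≠ 1) (N r : ℕ) (hN : 0 < N) :
    Tendsto (fun k : ℕ => mx (R (g ^ (N * k + r)))) atTop atTop := by
  rw [tendsto_atTop]
  intro C
  have h1 := finite_small g hg C
  have h2 : ((fun k : ℕ => ((N * k + r : ℕ) : ℤ)) ⁻¹' {m : ℤ | mx (R (g ^ m)) ≤ C}).Finite := by
    apply h1.preimage
    intro a _ b _ hab
    have h3 : N * a + r = N * b + r := Int.ofNat.inj hab
    exact Nat.eq_of_mul_eq_mul_left hN (by omega)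
  have h4 := h2.compl_mem_cofinite
  rw [Nat.cofinite_eq_atTop] at h4
  filter_upwards [h4] with k hk
  by_contra hcon
  apply hk
  change mx (R (g ^ ((N * k + r : ℕ) : ℤ))) ≤ C
  rw [zpow_natCast]
  exact (not_le.1 hcon).le

theorem half_LD (hn : 0 < n) (g : SLZ n) (hg : ∀ m : ℕ, 0 < m → g ^ m ≠ 1) (ht : Tame g) :
    ∃ S : Set (Matrix (Fin n) (Fin n) ℝ), S.Finite ∧
      (∀ X ∈ S, ∀ t : ℝ, X ≠ t • (1 : Matrix (Fin n) (Fin n) ℝ)) ∧
      ∀ ε : ℝ, 0 < ε →
        {m : ℕ | ∀ X ∈ S, ε ≤ mx ((mx (R (g ^ m)))⁻¹ • R (g ^ m) - X)}.Finite := by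
  obtain ⟨N, hN, hX⟩ := limit_dirs hn g (fun z hz hmax => ht z hz (Or.inl hmax))
  choose X hX1 hXT using hX
  refine ⟨X '' Set.Iio N, (Set.finite_Iio N).image X, ?_, ?_⟩
  · rintro _ ⟨r, _, rfl⟩ t
    exact limit_not_scal hn (fun k => g ^ (N * k + r)) (X r) (hX1 r) (half_tendsto g hg N r hN)
      (hXT r) t
  · intro ε hε
    have hfin : ∀ r : ℕ, {k : ℕ | ε ≤ mx ((mx (R (g ^ (N * k + r))))⁻¹ • R (g ^ (N * k + r)) -
        X r)}.Finite := by
      intro r
      have h1 : Tendsto (fun k : ℕ => mx ((mx (R (g ^ (N * k + r))))⁻¹ • R (g ^ (N * k + r)) - X r))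
          atTop (𝓝 (mx (X r - X r))) :=
        (continuous_mx.tendsto _).comp ((hXT r).sub tendsto_const_nhds)
      rw [sub_self, mx_eq_zero.2 rfl] at h1
      have h2 := h1.eventually (gt_mem_nhds hε)
      rw [← Nat.cofinite_eq_atTop] at h2
      have h3 := h2
      rw [Filter.eventually_cofinite] at h3
      refine h3.subset fun k hk => ?_
      exact not_lt.2 hk
    have hU : (⋃ r ∈ Set.Iio N, (fun k : ℕ => N * k + r) '' {k : ℕ | ε ≤
        mx ((mx (R (g ^ (N * k + r))))⁻¹ • R (g ^ (N * k + r)) - X r)}).Finite :=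
      (Set.finite_Iio N).biUnion fun r _ => (hfin r).image _
    refine hU.subset fun m hm => ?_
    rw [Set.mem_iUnion₂]
    refine ⟨m % N, Nat.mod_lt m hN, m / N, ?_, Nat.div_add_mod m N⟩
    change ε ≤ mx ((mx (R (g ^ (N * (m / N) + m % N))))⁻¹ • R (g ^ (N * (m / N) + m % N)) -
      X (m % N))
    rw [Nat.div_add_mod m N]
    exact hm (X (m % N)) ⟨m % N, Nat.mod_lt m hN, rfl⟩

end H93I
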