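import Pool.Agent.Lib.H93I.Defs

/-! # H93I, chunk NORM: elementary facts on `vx`, `mx`, `R`, `Scal` (all short) -/

namespace H93I

open Matrix

variable {n : ℕ}

theorem vx_nonneg (v : Fin n → ℝ) : 0 ≤ vx v :=
  Finset.sum_nonneg fun i _ => abs_nonneg _

theorem abs_le_vx (v : Fin n → ℝ) (i : Fin n) : |v i| ≤ vx v :=
  Finset.single_le_sum (f := fun i => |v i|) (fun i _ => abs_nonneg _) (Finset.mem_univ i)

theorem vx_add_le (v w : Fin n → ℝ) : vx (v + w) ≤ vx v + vx w := by
  unfold vx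
  rw [← Finset.sum_add_distrib]
  exact Finset.sum_le_sum fun i _ => abs_add_le _ _

theorem vx_neg (v : Fin n → ℝ) : vx (-v) = vx v := by
  unfold vx
  simp

theorem vx_sub_le (v w : Fin n → ℝ) : vx (v - w) ≤ vx v + vx w := by
  rw [sub_eq_add_neg, ← vx_neg w]
  exact vx_add_le _ _

theorem vx_smul (t : ℝ) (v : Fin n → ℝ) : vx (t • v) = |t| * vx v := by
  unfold vx
  rw [Finset.mul_sum]
  exact Finset.sum_congr rfl fun i _ => by rw [Pi.smul_apply, smul_eq_mul, abs_mul]

theorem vx_eq_zero {v : Fin n → ℝ} : vx v = 0 ↔ v = 0 := by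
  constructor
  · intro h
    funext i
    have := abs_le_vx v i
    rw [h] at this
    exact abs_nonpos_iff.mp this
  · rintro rfl
    simp [vx]

theorem vx_single (i : Fin n) : vx (Pi.single i (1 : ℝ)) = 1 := by
  unfold vx
  rw [Finset.sum_eq_single i]
  · simp
  · intro j _ hj
    simp [Pi.single_eq_of_ne hj]
  · intro h
    exact absurd (Finset.mem_univ i) h

theorem mx_nonneg (M : Matrix (Fin n) (Fin n) ℝ) : 0 ≤ mx M :=
  Finset.sum_nonneg fun i _ => Finset.sum_nonneg fun j _ => abs_nonneg _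

theorem abs_le_mx (M : Matrix (Fin n) (Fin n) ℝ) (i j : Fin n) : |M i j| ≤ mx M := by
  have h1 : |M i j| ≤ ∑ j, |M i j| :=
    Finset.single_le_sum (f := fun j => |M i j|) (fun j _ => abs_nonneg _) (Finset.mem_univ j)
  have h2 : ∑ j, |M i j| ≤ mx M :=
    Finset.single_le_sum (f := fun i => ∑ j, |M i j|)
      (fun i _ => Finset.sum_nonneg fun j _ => abs_nonneg _) (Finset.mem_univ i)
  exact h1.trans h2

theorem mx_smul (t : ℝ) (M : Matrix (Fin n) (Fin n) ℝ) : mx (t • M) = |t| * mx M := by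
  unfold mx
  rw [Finset.mul_sum]
  refine Finset.sum_congr rfl fun i _ => ?_
  rw [Finset.mul_sum]
  exact Finset.sum_congr rfl fun j _ => by rw [Matrix.smul_apply, smul_eq_mul, abs_mul]

theorem mx_eq_zero {M : Matrix (Fin n) (Fin n) ℝ} : mx M = 0 ↔ M = 0 := by
  constructor
  · intro h
    ext i j
    have := abs_le_mx M i j
    rw [h] at this
    exact abs_nonpos_iff.mp this
  · rintro rfl
    simp [mx]

theorem continuous_mx : Continuous (mx : Matrix (Fin n) (Fin n) ℝ → ℝ) := by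
  unfold mx
  refine continuous_finsetSum _ fun i _ => continuous_finsetSum _ fun j _ => ?_
  exact continuous_abs.comp ((continuous_apply j).comp (continuous_apply i))

theorem vx_mulVec_le (M : Matrix (Fin n) (Fin n) ℝ) (v : Fin n → ℝ) :
    vx (M *ᵥ v) ≤ mx M * vx v := by
  unfold mx
  rw [Finset.sum_mul]
  refine Finset.sum_le_sum fun i _ => ?_
  rw [Finset.sum_mul]
  calc |(M *ᵥ v) i| = |∑ j, M i j * v j| := rfl
    _ ≤ ∑ j, |M i j * v j| := Finset.abs_sum_le_sum_abs _ _
    _ ≤ ∑ j, |M i j| * vx v := by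
        refine Finset.sum_le_sum fun j _ => ?_
        rw [abs_mul]
        exact mul_le_mul_of_nonneg_left (abs_le_vx v j) (abs_nonneg _)

theorem abs_dot_le (φ v : Fin n → ℝ) : |φ ⬝ᵥ v| ≤ vx φ * vx v := by
  calc |φ ⬝ᵥ v| = |∑ j, φ j * v j| := rfl
    _ ≤ ∑ j, |φ j * v j| := Finset.abs_sum_le_sum_abs _ _
    _ ≤ ∑ j, |φ j| * vx v := by
        refine Finset.sum_le_sum fun j _ => ?_
        rw [abs_mul]
        exact mul_le_mul_of_nonneg_left (abs_le_vx v j) (abs_nonneg _)
    _ = vx φ * vx v := by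
        unfold vx
        rw [Finset.sum_mul]

theorem NORM_R_eq (g : SLZ n) :
    R g = (Int.castRingHom ℝ).mapMatrix (g : Matrix (Fin n) (Fin n) ℤ) := rfl

theorem R_one : R (1 : SLZ n) = 1 := by
  rw [NORM_R_eq, Matrix.SpecialLinearGroup.coe_one, map_one]

theorem R_mul (g h : SLZ n) : R (g * h) = R g * R h := by
  rw [NORM_R_eq, NORM_R_eq, NORM_R_eq, Matrix.SpecialLinearGroup.coe_mul, map_mul]

theorem R_pow (g : SLZ n) (k : ℕ) : R (g ^ k) = R g ^ k := by
  rw [NORM_R_eq, NORM_R_eq, Matrix.SpecialLinearGroup.coe_pow, map_pow]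

theorem det_R (g : SLZ n) : (R g).det = 1 := by
  rw [NORM_R_eq, ← RingHom.map_det, Matrix.SpecialLinearGroup.det_coe, map_one]

theorem mx_R_pos (hn : 0 < n) (g : SLZ n) : 0 < mx (R g) := by
  rcases (mx_nonneg (R g)).lt_or_eq with h | h
  · exact h
  · exfalso
    have h0 : R g = 0 := mx_eq_zero.mp h.symm
    have h1 := det_R g
    have : Nonempty (Fin n) := ⟨⟨0, hn⟩⟩
    rw [h0, Matrix.det_zero] at h1
    exact zero_ne_one h1

/-- `R g` is injective in `g` -/
theorem R_injective : Function.Injective (R : SLZ n → Matrix (Fin n) (Fin n) ℝ) := by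
  intro g h hgh
  apply Subtype.ext
  ext i j
  have := congrFun (congrFun hgh i) j
  simpa [R] using this

/-- if the real matrix is scalar then `g` is scalar (`n ≥ 1`; compare the entries) -/
theorem scal_of_real (hn : 0 < n) {g : SLZ n} {t : ℝ}
    (h : R g = t • (1 : Matrix (Fin n) (Fin n) ℝ)) : Scal g := by
  refine ⟨(g : Matrix (Fin n) (Fin n) ℤ) ⟨0, hn⟩ ⟨0, hn⟩, ?_⟩
  have h0 : (((g : Matrix (Fin n) (Fin n) ℤ) ⟨0, hn⟩ ⟨0, hn⟩ : ℤ) : ℝ) = t := by
    have := congrFun (congrFun h ⟨0, hn⟩) ⟨0, hn⟩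
    simpa [R] using this
  ext i j
  have hij := congrFun (congrFun h i) j
  have : (((g : Matrix (Fin n) (Fin n) ℤ) i j : ℤ) : ℝ) = t * (1 : Matrix (Fin n) (Fin n) ℝ) i j := by
    simpa [R] using hij
  rw [← h0] at this
  by_cases hE : i = j
  · subst hE
    rw [Matrix.one_apply_eq, mul_one] at this
    rw [Matrix.smul_apply, Matrix.one_apply_eq, smul_eq_mul, mul_one]
    exact_mod_cast this
  · rw [Matrix.one_apply_ne hE, mul_zero] at this
    rw [Matrix.smul_apply, Matrix.one_apply_ne hE, smul_eq_mul, mul_zero]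
    exact_mod_cast this

theorem scal_one : Scal (1 : SLZ n) :=
  ⟨1, by rw [Matrix.SpecialLinearGroup.coe_one, one_smul]⟩

theorem Scal.mul {g h : SLZ n} (hg : Scal g) (hh : Scal h) : Scal (g * h) := by
  obtain ⟨a, ha⟩ := hg
  obtain ⟨b, hb⟩ := hh
  exact ⟨a * b, by rw [Matrix.SpecialLinearGroup.coe_mul, ha, hb, smul_mul_smul_comm, mul_one]⟩

/-- scalar elements are central -/
theorem Scal.comm {g : SLZ n} (hg : Scal g) (h : SLZ n) : g * h = h * g := by
  obtain ⟨a, ha⟩ := hg
  apply Subtype.ext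
  change (g : Matrix (Fin n) (Fin n) ℤ) * (h : Matrix (Fin n) (Fin n) ℤ)
    = (h : Matrix (Fin n) (Fin n) ℤ) * (g : Matrix (Fin n) (Fin n) ℤ)
  rw [ha, smul_mul_assoc, one_mul, mul_smul_comm, mul_one]

theorem NORM_pow_eq_one {g : SLZ n} {a : ℤ}
    (ha : (g : Matrix (Fin n) (Fin n) ℤ) = a • (1 : Matrix (Fin n) (Fin n) ℤ)) : a ^ n = 1 := by
  have h1 := g.det_coe
  rw [ha, Matrix.det_smul, Matrix.det_one, mul_one, Fintype.card_fin] at h1
  exact h1

theorem NORM_sq {g : SLZ n} {a : ℤ}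
    (ha : (g : Matrix (Fin n) (Fin n) ℤ) = a • (1 : Matrix (Fin n) (Fin n) ℤ)) :
    n = 0 ∨ a = 1 ∨ a = -1 := by
  rcases Nat.eq_zero_or_pos n with h | h
  · exact Or.inl h
  · right
    have h1 := NORM_pow_eq_one ha
    have : IsUnit a := IsUnit.of_pow_eq_one h1 h.ne'
    exact Int.isUnit_iff.mp this

theorem Scal.inv {g : SLZ n} (hg : Scal g) : Scal g⁻¹ := by
  obtain ⟨a, ha⟩ := hg
  rcases NORM_sq ha with h | h
  · subst h
    exact ⟨1, Subsingleton.elim _ _⟩
  · have haa : a * a = 1 := by rcases h with h | h <;> rw [h] <;> norm_num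
    have hgg : g * g = 1 := by
      apply Subtype.ext
      change (g : Matrix (Fin n) (Fin n) ℤ) * (g : Matrix (Fin n) (Fin n) ℤ) = 1
      rw [ha, smul_mul_smul_comm, mul_one, haa, one_smul]
    have : g⁻¹ = g := inv_eq_of_mul_eq_one_left hgg
    exact ⟨a, by rw [this, ha]⟩

/-- a scalar element acts as `1` or as `-1` (the determinant is `1`, so `a ^ n = 1`) -/
theorem Scal.mulVec {g : SLZ n} (hg : Scal g) (w : Fin n → ℝ) : R g *ᵥ w = w ∨ R g *ᵥ w = -w := by
  obtain ⟨a, ha⟩ := hg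
  rcases NORM_sq ha with h | h
  · subst h
    exact Or.inl (Subsingleton.elim _ _)
  · have hR : R g = (a : ℝ) • (1 : Matrix (Fin n) (Fin n) ℝ) := by
      ext i j
      have : R g i j = (((g : Matrix (Fin n) (Fin n) ℤ) i j : ℤ) : ℝ) := rfl
      rw [this, ha]
      by_cases hE : i = j
      · subst hE; simp
      · simp [Matrix.one_apply_ne hE]
    rcases h with h | h
    · left
      rw [hR, h]; simp
    · right
      rw [hR, h, Matrix.smul_mulVec, Matrix.one_mulVec]
      simp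

/-- conjugates of non-scalar elements are not scalar -/
theorem scal_conj_iff (x g : SLZ n) : Scal (x * g * x⁻¹) ↔ Scal g := by
  constructor
  · intro h
    have h1 := h.comm x
    have h2 : g = x * g * x⁻¹ := by
      have : x * (x * g * x⁻¹) * x⁻¹ = x * g * x⁻¹ := by
        rw [← h1]; group
      have h3 : x * g * x⁻¹ = g := by
        have h4 := congrArg (fun y => x⁻¹ * y * x) this
        simpa [mul_assoc] using h4
      exact h3.symm
    rw [h2]
    exact h
  · intro h
    have : x * g * x⁻¹ = g := by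
      rw [← h.comm x, mul_inv_cancel_right]
    rw [this]
    exact h

end H93I
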