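import Pool.Agent.Lib.H93I.Norm

/-! # H93I, chunk PSI: an integral functional vanishing at `v` and at none of finitely many vectors

PROOF of `exists_psi`.  Choose `a` with `v a ≠ 0`.  For `t ∈ ℕ` put
`ψ_t = Σ_b t^b (v_a e_b - v_b e_a)`, that is `ψ_t b = v_a t^b` for `b ≠ a` and
`ψ_t a = v_a t^a - Σ_b t^b v_b`; then `ψ_t · v = Σ_b t^b (v_a v_b - v_b v_a) = 0`.  For `y ∈ Y` the number
`ψ_t · y = Σ_b t^b (v_a y_b - v_b y_a)` is a polynomial in `t`; it is not the zero polynomial, for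
otherwise `y = (y_a / v_a) v`.  So it is nonzero for all large `t`; finitely many `y`. -/

namespace H93I

open Matrix Filter

variable {n : ℕ}

theorem exists_psi (v : Fin n → ℤ) (hv : v ≠ 0) (Y : Set (Fin n → ℝ)) (hY : Y.Finite)
    (hYv : ∀ y ∈ Y, ∀ t : ℝ, y ≠ t • rv v) :
    ∃ ψ : Fin n → ℤ, ψ ⬝ᵥ v = 0 ∧ ∀ y ∈ Y, rv ψ ⬝ᵥ y ≠ 0 := by
  classical
  obtain ⟨a, ha⟩ : ∃ a, v a ≠ 0 := by
    by_contra hc
    push Not at hc
    exact hv (funext hc)
  have ha' : (v a : ℝ) ≠ 0 := by exact_mod_cast ha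
  -- the family
  obtain ⟨ψ, hψ⟩ : ∃ ψ : ℕ → Fin n → ℤ, ∀ t i,
      ψ t i = v a * (t : ℤ) ^ (i : ℕ) - if i = a then ∑ b : Fin n, (t : ℤ) ^ (b : ℕ) * v b else 0 :=
    ⟨_, fun _ _ => rfl⟩
  have hdot : ∀ (t : ℕ) (y : Fin n → ℝ),
      rv (ψ t) ⬝ᵥ y = ∑ b : Fin n, (v a * y b - v b * y a) * (t : ℝ) ^ (b : ℕ) := by
    intro t y
    unfold dotProduct rv
    have h1 : ∀ i : Fin n, ((ψ t i : ℤ) : ℝ) * y i = v a * (t : ℝ) ^ (i : ℕ) * y i
        - if i = a then (∑ b : Fin n, (t : ℝ) ^ (b : ℕ) * v b) * y a else 0 := by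
      intro i
      rw [hψ]
      by_cases h : i = a
      · subst h; push_cast; simp; ring
      · simp [h]
    rw [Finset.sum_congr rfl fun i _ => h1 i, Finset.sum_sub_distrib, Finset.sum_ite_eq',
      if_pos (Finset.mem_univ _), Finset.sum_mul, ← Finset.sum_sub_distrib]
    exact Finset.sum_congr rfl fun i _ => by ring
  have hzero : ∀ t, ψ t ⬝ᵥ v = 0 := by
    intro t
    have h1 := hdot t (rv v)
    have h2 : rv (ψ t) ⬝ᵥ rv v = ((ψ t ⬝ᵥ v : ℤ) : ℝ) := by simp [rv, dotProduct]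
    rw [h2] at h1
    have h3 : ∑ b : Fin n, ((v a : ℝ) * rv v b - v b * rv v a) * (t : ℝ) ^ (b : ℕ) = 0 :=
      Finset.sum_eq_zero fun b _ => by unfold rv; ring
    rw [h3] at h1
    exact_mod_cast h1
  have hev : ∀ y ∈ Y, ∀ᶠ t : ℕ in atTop, rv (ψ t) ⬝ᵥ y ≠ 0 := by
    intro y hy
    obtain ⟨p, hp⟩ : ∃ p : Polynomial ℝ, p = ∑ b : Fin n,
      Polynomial.C (v a * y b - v b * y a) * Polynomial.X ^ (b : ℕ) := ⟨_, rfl⟩
    have hcoef : ∀ b : Fin n, p.coeff b = v a * y b - v b * y a := by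
      intro b
      rw [hp, Polynomial.finset_sum_coeff, Finset.sum_eq_single b]
      · rw [Polynomial.coeff_C_mul, Polynomial.coeff_X_pow, if_pos rfl, mul_one]
      · intro c _ hc
        rw [Polynomial.coeff_C_mul, Polynomial.coeff_X_pow, if_neg, mul_zero]
        intro h
        exact hc (Fin.ext h).symm
      · intro h
        exact absurd (Finset.mem_univ _) h
    have hp0 : p ≠ 0 := by
      intro h0
      refine hYv y hy (y a / v a) (funext fun b => ?_)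
      have h1 := hcoef b
      rw [h0, Polynomial.coeff_zero] at h1
      rw [Pi.smul_apply, smul_eq_mul]
      unfold rv
      field_simp
      linarith
    have h2 : ∀ᶠ x : ℝ in atTop, ¬ p.IsRoot x := Polynomial.eventually_no_roots p hp0
    have h3 := (tendsto_natCast_atTop_atTop (R := ℝ)).eventually h2
    filter_upwards [h3] with t ht h4
    apply ht
    rw [Polynomial.IsRoot.def, hp, Polynomial.eval_finset_sum, ← h4, hdot]
    exact Finset.sum_congr rfl fun b _ => by simp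
  have hall : ∀ᶠ t : ℕ in atTop, ∀ y ∈ Y, rv (ψ t) ⬝ᵥ y ≠ 0 := (hY.eventually_all).mpr hev
  obtain ⟨t, ht⟩ := hall.exists
  exact ⟨ψ t, hzero t, ht⟩

end H93I
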