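import Pool.Agent.Lib.H93I.Step

/-! # H93I, chunk SEQ: the infinite sequence of data

PROOF.  `exists_seq` (abstract): choose for every list `L` of elements satisfying `inv` and every `k` an
element `next L k`; define `L 0 = []`, `L (k+1) = next (L k) k :: L k` and `f k = next (L k) k`.
`ping` : apply it to an enumeration of the countable type of the elements with `LD`. -/

namespace H93I

open Matrix

theorem exists_seq {α : Type*} (inv : α → Prop) (good : ℕ → α → Prop) (compat : α → α → Prop)
    (h : ∀ (k : ℕ) (L : List α), (∀ a ∈ L, inv a) →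
      ∃ a, good k a ∧ inv a ∧ ∀ a' ∈ L, compat a' a) :
    ∃ f : ℕ → α, (∀ k, good k (f k)) ∧ ∀ i j, i < j → compat (f i) (f j) := by
  classical
  choose nx h1 h2 h3 using h
  -- the sequence of lists, with the proof of the invariant
  let S : ℕ → {L : List α // ∀ a ∈ L, inv a} := fun k =>
    Nat.rec (motive := fun _ => {L : List α // ∀ a ∈ L, inv a}) ⟨[], by simp⟩
      (fun k L => ⟨nx k L.1 L.2 :: L.1, by
        intro a ha
        rcases List.mem_cons.mp ha with rfl | ha
        · exact h2 k L.1 L.2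
        · exact L.2 a ha⟩) k
  have hS : ∀ k, (S (k + 1)).1 = nx k (S k).1 (S k).2 :: (S k).1 := fun k => rfl
  have hmem : ∀ i j, i < j → nx i (S i).1 (S i).2 ∈ (S j).1 := by
    intro i j hij
    induction j with
    | zero => omega
    | succ j ih =>
      rw [hS]
      rcases Nat.lt_succ_iff_lt_or_eq.mp hij with hlt | rfl
      · exact List.mem_cons_of_mem _ (ih hlt)
      · exact List.mem_cons_self
  exact ⟨fun k => nx k (S k).1 (S k).2, fun k => h1 k _ _, fun i j hij => h3 j _ _ _ (hmem i j hij)⟩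

variable {n : ℕ}

theorem seq {i1 i2 i3 : Fin n} (h12 : i1 ≠ i2) (h13 : i1 ≠ i3) (h23 : i2 ≠ i3) (g : ℕ → SLZ n)
    (hLD : ∀ k, LD (g k)) :
    ∃ f : ℕ → Dat n, (∀ k, Good i1 (g k) (f k)) ∧ ∀ i j, i ≠ j → (f j).A ⊆ (f i).P := by
  obtain ⟨f, hf1, hf2⟩ := exists_seq (Inv i2 i3) (fun k d => Good i1 (g k) d) Compat
    (fun k L hL => step h12 h13 h23 (g k) (hLD k) L hL)
  refine ⟨f, hf1, fun i j hij => ?_⟩
  rcases lt_or_gt_of_ne hij with h | h
  · exact (hf2 i j h).2
  · exact (hf2 j i h).1

end H93I
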