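import Pool.Agent.Lib.H93I.Norm

/-! # H93I, chunk TRANSV: the transvection `1 + T v φ^T`

PROOF.  `1 + T v φ^T` has determinant `1 + T φ·v = 1` (`Matrix.det_one_add_...`), its inverse is
`1 - T v φ^T`, because `(1 + T v φ^T) (1 - T v φ^T) = 1 - T² (φ·v) v φ^T = 1`. -/

namespace H93I

open Matrix

variable {n : ℕ}

theorem TRANSV_det (v φ : Fin n → ℤ) (h : φ ⬝ᵥ v = 0) (T : ℤ) :
    ((1 : Matrix (Fin n) (Fin n) ℤ) + vecMulVec (fun i => T * v i) φ).det = 1 := by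
  have h1 : vecMulVec (fun i => T * v i) φ
      = replicateCol Unit (fun i => T * v i) * replicateRow Unit φ := by
    ext i j
    rw [vecMulVec_apply, Matrix.mul_apply, Fintype.sum_unique]
    rfl
  have h2 := Matrix.det_one_add_replicateCol_mul_replicateRow (ι := Unit) (fun i => T * v i) φ
  rw [← h1] at h2
  rw [h2]
  have h3 : φ ⬝ᵥ (fun i => T * v i) = T * (φ ⬝ᵥ v) := by
    unfold dotProduct
    rw [Finset.mul_sum]
    exact Finset.sum_congr rfl fun i _ => by ring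
  rw [h3, h, mul_zero, add_zero]

theorem TRANSV_R (x : SLZ n) (v φ : Fin n → ℤ) (T : ℤ)
    (hx : (x : Matrix (Fin n) (Fin n) ℤ) = 1 + vecMulVec (fun i => T * v i) φ) :
    R x = 1 + (T : ℝ) • vecMulVec (rv v) (rv φ) := by
  ext i j
  unfold R
  rw [hx, Matrix.map_apply, Matrix.add_apply, Matrix.add_apply, Matrix.smul_apply, vecMulVec_apply,
    vecMulVec_apply, smul_eq_mul]
  by_cases hE : i = j
  · subst hE; simp [rv, mul_assoc]
  · simp [rv, Matrix.one_apply_ne hE, mul_assoc]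

theorem transvection (v φ : Fin n → ℤ) (h : φ ⬝ᵥ v = 0) (T : ℤ) :
    ∃ x : SLZ n, R x = 1 + (T : ℝ) • vecMulVec (rv v) (rv φ) ∧
      R x⁻¹ = 1 - (T : ℝ) • vecMulVec (rv v) (rv φ) := by
  obtain ⟨x, hx⟩ : ∃ x : SLZ n, (x : Matrix (Fin n) (Fin n) ℤ)
      = 1 + vecMulVec (fun i => T * v i) φ := ⟨⟨_, TRANSV_det v φ h T⟩, rfl⟩
  obtain ⟨y, hy⟩ : ∃ y : SLZ n, (y : Matrix (Fin n) (Fin n) ℤ)
      = 1 + vecMulVec (fun i => (-T) * v i) φ := ⟨⟨_, TRANSV_det v φ h (-T)⟩, rfl⟩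
  have hX := TRANSV_R x v φ T hx
  have hY := TRANSV_R y v φ (-T) hy
  have hvφ : rv φ ⬝ᵥ rv v = 0 := by
    have : ((φ ⬝ᵥ v : ℤ) : ℝ) = 0 := by exact_mod_cast h
    simpa [rv, dotProduct] using this
  have hxy : x * y = 1 := by
    apply R_injective
    have h0 : vecMulVec (rv v) (rv φ) * vecMulVec (rv v) (rv φ) = 0 := by
      rw [Matrix.vecMulVec_mul_vecMulVec, hvφ, zero_smul, Matrix.vecMulVec_zero]
    rw [R_mul, R_one, hX, hY, add_mul, one_mul, mul_add, mul_one, smul_mul_smul_comm, h0,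
      smul_zero, add_zero, Int.cast_neg, neg_smul]
    abel
  have hinv : x⁻¹ = y := inv_eq_of_mul_eq_one_right hxy
  refine ⟨x, hX, ?_⟩
  rw [hinv, hY, Int.cast_neg, neg_smul, sub_eq_add_neg]

end H93I
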