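import Pool.Agent.Lib.H93I.Flag
import Pool.Agent.Lib.H93I.Contract
import Pool.Agent.Lib.H93I.Transv

/-! # H93I, chunk STEP: one more element can be added

PROOF.  Choose `ε > 0` small (`ε ≤ 1/4`) such that for all `d' ∈ L` (finitely many):
(i) `δ' (1 + (n+1) ε) ≤ |φ'_{i2}| - 2 ε vx φ'` (possible since `δ' < |φ'_{i2}|`), and
(ii) `γ' := |v'_{i3}| - η' - ε (vx v' + η') > 0` (possible since `η' < |v'_{i3}|`); `vx φ' = vx (rv φ')` etc.
Take `v, φ, c` from `flag` with this `ε`.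

Choose `δ > 0` with `δ < |φ i2|`, `δ ≤ |φ i1|` and `δ (vx v' + η') ≤ φ i3 · γ'` for all `d' ∈ L`.
Choose `η > 0` with `η < v i2`, `η ≤ ε v i2`, `η < |v i3|`.  Let `T0` be given by `contract` for
`rv v, rv φ, c, δ, η`; take an integer `T ≥ T0` and `x` from `transvection`.  `d = ⟨v, φ, δ, η, x⟩`.

* Good: `R (x g^m x⁻¹) = (1 + T v φ^T) R(g^m) (1 - T v φ^T)`; apply `contract` (`mx_R_pos`).
  `e_{i1} ∈ P`: `vx e_{i1} = 1`, `φ · e_{i1} = φ i1`.  `e_{i1} ∉ A`: if `vx (e_{i1} - α v) ≤ η |α|`, the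
  coordinate `i2` gives `|α| v i2 ≤ η |α|`, impossible for `α ≠ 0` as `η < v i2`.
* Inv: clear.
* `d'.A ⊆ d.P`: `w = α (v' + ρ)` with `α ≠ 0`, `vx ρ ≤ η'`; `|w i3| ≥ |α| (|v' i3| - η')`,
  `vx w ≤ |α| (vx v' + η')`, `|φ · w| ≥ φ i3 |w i3| - ε φ i3 vx w ≥ φ i3 |α| γ' ≥ δ vx w`; `vx w > 0`.
* `d.A ⊆ d'.P`: `w = α (v + ρ)`, `vx ρ ≤ η ≤ ε v i2`: `|φ' · w| ≥ |α| v i2 (|φ' i2| - 2 ε vx φ')` because
  `|φ' · v - φ' i2 v i2| ≤ ε v i2 vx φ'` and `|φ' · ρ| ≤ vx φ' · η`; `vx w ≤ |α| v i2 (1 + (n+1) ε)`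
  (`n` coordinates, each other one at most `ε v i2`); `vx w > 0` since `|w i2| ≥ |α| (v i2 - η)`. -/

namespace H93I

open Matrix Filter

variable {n : ℕ}

/-- a linear functional close to a coordinate, `|φ·w - φ_i w_i| ≤ ε φ_i vx w` -/
theorem STEP_near (φ w : Fin n → ℝ) (i : Fin n) {κ : ℝ} (hκ : 0 ≤ κ) (h : ∀ j, j ≠ i → |φ j| ≤ κ) :
    |φ ⬝ᵥ w - φ i * w i| ≤ κ * vx w := by
  classical
  have h1 : φ ⬝ᵥ w - φ i * w i = ∑ j ∈ Finset.univ.erase i, φ j * w j := by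
    unfold dotProduct
    rw [← Finset.add_sum_erase _ _ (Finset.mem_univ i)]
    ring
  rw [h1]
  calc |∑ j ∈ Finset.univ.erase i, φ j * w j| ≤ ∑ j ∈ Finset.univ.erase i, |φ j * w j| :=
        Finset.abs_sum_le_sum_abs _ _
    _ ≤ ∑ j ∈ Finset.univ.erase i, κ * |w j| := by
        refine Finset.sum_le_sum fun j hj => ?_
        rw [abs_mul]
        exact mul_le_mul_of_nonneg_right (h j (Finset.ne_of_mem_erase hj)) (abs_nonneg _)
    _ ≤ ∑ j, κ * |w j| :=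
        Finset.sum_le_sum_of_subset_of_nonneg (Finset.erase_subset _ _)
          fun j _ _ => mul_nonneg hκ (abs_nonneg _)
    _ = κ * vx w := by
        unfold vx
        rw [Finset.mul_sum]

/-- size of a vector close to a coordinate axis -/
theorem STEP_vx (v : Fin n → ℝ) (i : Fin n) {κ : ℝ} (hκ : 0 ≤ κ) (h : ∀ j, j ≠ i → |v j| ≤ κ) :
    vx v ≤ |v i| + n * κ := by
  classical
  unfold vx
  rw [← Finset.add_sum_erase _ _ (Finset.mem_univ i)]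
  refine add_le_add le_rfl ?_
  calc ∑ j ∈ Finset.univ.erase i, |v j| ≤ ∑ j ∈ Finset.univ.erase i, κ :=
        Finset.sum_le_sum fun j hj => h j (Finset.ne_of_mem_erase hj)
    _ ≤ ∑ _j : Fin n, κ :=
        Finset.sum_le_sum_of_subset_of_nonneg (Finset.erase_subset _ _) fun j _ _ => hκ
    _ = n * κ := by simp

/-- elements of the attracting set -/
theorem STEP_A (d : Dat n) (w : Fin n → ℝ) (hw : w ∈ d.A) :
    ∃ α : ℝ, α ≠ 0 ∧ ∃ ρ : Fin n → ℝ, w = α • (rv d.v + ρ) ∧ vx ρ ≤ d.η := by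
  obtain ⟨α, hα, h⟩ := hw
  refine ⟨α, hα, α⁻¹ • (w - α • rv d.v), ?_, ?_⟩
  · rw [smul_add, smul_smul, mul_inv_cancel₀ hα, one_smul]
    abel
  · rw [vx_smul, abs_inv]
    rw [inv_mul_le_iff₀ (abs_pos.mpr hα)]
    linarith [mul_comm |α| d.η]

/-- old attracting sets are in the new complement -/
theorem STEP_old {i2 i3 : Fin n} (d d' : Dat n) (hd' : Inv i2 i3 d') {ε : ℝ} (hε : 0 < ε)
    (h3 : 0 < d.φ i3) (hφ : ∀ j, j ≠ i3 → |(d.φ j : ℝ)| ≤ ε * d.φ i3)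
    (hγ : 0 < |(d'.v i3 : ℝ)| - d'.η - ε * (vx (rv d'.v) + d'.η))
    (hδ : d.δ * (vx (rv d'.v) + d'.η) ≤
      d.φ i3 * (|(d'.v i3 : ℝ)| - d'.η - ε * (vx (rv d'.v) + d'.η))) (hδ0 : 0 < d.δ) :
    d'.A ⊆ d.P := by
  intro w hw
  obtain ⟨α, hα, ρ, hwρ, hρ⟩ := STEP_A d' w hw
  have h3' : (0 : ℝ) < d.φ i3 := by exact_mod_cast h3
  obtain ⟨u, hu⟩ : ∃ u, u = rv d'.v + ρ := ⟨_, rfl⟩
  rw [← hu] at hwρ
  have hα' : 0 < |α| := abs_pos.mpr hα
  have hui : |(d'.v i3 : ℝ)| - d'.η ≤ |u i3| := by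
    have h1 : (d'.v i3 : ℝ) = u i3 - ρ i3 := by rw [hu]; simp [rv]
    have h2 : |ρ i3| ≤ d'.η := (abs_le_vx ρ i3).trans hρ
    have h4 : |(d'.v i3 : ℝ)| ≤ |u i3| + |ρ i3| := by rw [h1]; exact abs_sub _ _
    linarith
  have huv : vx u ≤ vx (rv d'.v) + d'.η := by
    rw [hu]; exact (vx_add_le _ _).trans (add_le_add le_rfl hρ)
  have hu3 : |u i3| ≤ vx u := abs_le_vx u i3
  have hη' := hd'.2.2.1
  have hVn := vx_nonneg (rv d'.v)
  have hpos : 0 < vx u := by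
    have : 0 < |(d'.v i3 : ℝ)| - d'.η := by
      have : 0 ≤ ε * (vx (rv d'.v) + d'.η) := by positivity
      linarith
    linarith
  have hdot : d.φ i3 * |u i3| - ε * d.φ i3 * vx u ≤ |rv d.φ ⬝ᵥ u| := by
    have h1 := STEP_near (rv d.φ) u i3 (κ := ε * d.φ i3) (by positivity) hφ
    have h2 : |rv d.φ i3 * u i3| = d.φ i3 * |u i3| := by
      rw [abs_mul]; congr 1; exact abs_of_pos h3'
    have h5 : |rv d.φ i3 * u i3| ≤ |rv d.φ ⬝ᵥ u| + |rv d.φ ⬝ᵥ u - rv d.φ i3 * u i3| := by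
      have := abs_sub_abs_le_abs_sub (rv d.φ i3 * u i3) (rv d.φ ⬝ᵥ u)
      rw [abs_sub_comm] at this
      linarith
    rw [h2] at h5
    linarith
  refine ⟨?_, ?_⟩
  · rw [hwρ, vx_smul]; positivity
  · rw [hwρ, vx_smul, dotProduct_smul, smul_eq_mul, abs_mul]
    have hmain : d.δ * vx u ≤ |rv d.φ ⬝ᵥ u| := by
      have h6 : d.δ * vx u ≤ d.δ * (vx (rv d'.v) + d'.η) := mul_le_mul_of_nonneg_left huv hδ0.le
      have h7 : (d.φ i3 : ℝ) * (|(d'.v i3 : ℝ)| - d'.η - ε * (vx (rv d'.v) + d'.η))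
          ≤ d.φ i3 * |u i3| - ε * d.φ i3 * vx u := by
        have h8 : |(d'.v i3 : ℝ)| - d'.η - ε * (vx (rv d'.v) + d'.η) ≤ |u i3| - ε * vx u := by
          have := mul_le_mul_of_nonneg_left huv hε.le
          linarith
        have := mul_le_mul_of_nonneg_left h8 h3'.le
        linarith [this]
      linarith
    have := mul_le_mul_of_nonneg_left hmain hα'.le
    linarith

/-- the new attracting set is in the old complements -/
theorem STEP_new {i2 : Fin n} (d d' : Dat n) {ε : ℝ} (hε : 0 < ε)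
    (h2 : 0 < d.v i2) (hv : ∀ j, j ≠ i2 → |(d.v j : ℝ)| ≤ ε * d.v i2) (hη : d.η < d.v i2)
    (hη2 : d.η ≤ ε * d.v i2) (hη0 : 0 < d.η) (hδ' : 0 < d'.δ)
    (hc : d'.δ * (1 + (n + 1) * ε) ≤ |(d'.φ i2 : ℝ)| - 2 * ε * vx (rv d'.φ)) :
    d.A ⊆ d'.P := by
  intro w hw
  obtain ⟨α, hα, ρ, hwρ, hρ⟩ := STEP_A d w hw
  have h2' : (0 : ℝ) < d.v i2 := by exact_mod_cast h2
  obtain ⟨u, hu⟩ : ∃ u, u = rv d.v + ρ := ⟨_, rfl⟩
  rw [← hu] at hwρ
  have hα' : 0 < |α| := abs_pos.mpr hα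
  have hΦ := vx_nonneg (rv d'.φ)
  have hui : (d.v i2 : ℝ) - d.η ≤ |u i2| := by
    have h1 : (d.v i2 : ℝ) = u i2 - ρ i2 := by rw [hu]; simp [rv]
    have h3 : |ρ i2| ≤ d.η := (abs_le_vx ρ i2).trans hρ
    have h4 : |(d.v i2 : ℝ)| ≤ |u i2| + |ρ i2| := by rw [h1]; exact abs_sub _ _
    rw [abs_of_pos h2'] at h4
    linarith
  have hpos : 0 < vx u := lt_of_lt_of_le (by linarith) (abs_le_vx u i2)
  have huv : vx u ≤ d.v i2 * (1 + (n + 1) * ε) := by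
    have h1 := STEP_vx (rv d.v) i2 (κ := ε * d.v i2) (by positivity) hv
    have h3 : |rv d.v i2| = d.v i2 := abs_of_pos h2'
    rw [h3] at h1
    have h4 : vx u ≤ vx (rv d.v) + vx ρ := by rw [hu]; exact vx_add_le _ _
    have h5 : (d.v i2 : ℝ) * (1 + (n + 1) * ε) = d.v i2 + n * (ε * d.v i2) + ε * d.v i2 := by ring
    rw [h5]
    linarith
  have hdot : d.v i2 * |(d'.φ i2 : ℝ)| - 2 * ε * d.v i2 * vx (rv d'.φ) ≤ |rv d'.φ ⬝ᵥ u| := by
    have h1 := STEP_near (rv d.v) (rv d'.φ) i2 (κ := ε * d.v i2) (by positivity) hv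
    have h3 : |rv d.v i2 * rv d'.φ i2| = d.v i2 * |(d'.φ i2 : ℝ)| := by
      rw [abs_mul]; congr 1; exact abs_of_pos h2'
    have h5 : rv d'.φ ⬝ᵥ u = rv d.v ⬝ᵥ rv d'.φ + rv d'.φ ⬝ᵥ ρ := by
      rw [hu, dotProduct_add, dotProduct_comm]
    have h6 : |rv d'.φ ⬝ᵥ ρ| ≤ vx (rv d'.φ) * (ε * d.v i2) :=
      (abs_dot_le _ _).trans (mul_le_mul_of_nonneg_left (hρ.trans hη2) hΦ)
    have h7 : |rv d.v i2 * rv d'.φ i2| ≤ |rv d'.φ ⬝ᵥ u|
        + |rv d.v ⬝ᵥ rv d'.φ - rv d.v i2 * rv d'.φ i2| + |rv d'.φ ⬝ᵥ ρ| := by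
      have e : rv d.v i2 * rv d'.φ i2 = rv d'.φ ⬝ᵥ u
        - (rv d.v ⬝ᵥ rv d'.φ - rv d.v i2 * rv d'.φ i2) - rv d'.φ ⬝ᵥ ρ := by
        rw [h5]; ring
      calc |rv d.v i2 * rv d'.φ i2| = |rv d'.φ ⬝ᵥ u
        - (rv d.v ⬝ᵥ rv d'.φ - rv d.v i2 * rv d'.φ i2) - rv d'.φ ⬝ᵥ ρ| := by rw [← e]
        _ ≤ |rv d'.φ ⬝ᵥ u - (rv d.v ⬝ᵥ rv d'.φ - rv d.v i2 * rv d'.φ i2)| + |rv d'.φ ⬝ᵥ ρ| :=
            abs_sub _ _
        _ ≤ _ := add_le_add (abs_sub _ _) le_rfl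
    rw [h3] at h7
    linarith
  refine ⟨?_, ?_⟩
  · rw [hwρ, vx_smul]; positivity
  · rw [hwρ, vx_smul, dotProduct_smul, smul_eq_mul, abs_mul]
    have hmain : d'.δ * vx u ≤ |rv d'.φ ⬝ᵥ u| := by
      have h6 : d'.δ * vx u ≤ d'.δ * (d.v i2 * (1 + (n + 1) * ε)) :=
        mul_le_mul_of_nonneg_left huv hδ'.le
      have h8 := mul_le_mul_of_nonneg_left hc h2'.le
      linarith
    have := mul_le_mul_of_nonneg_left hmain hα'.le
    linarith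

/-- a common small `ε` -/
theorem STEP_eps {i2 i3 : Fin n} (L : List (Dat n)) (hL : ∀ d ∈ L, Inv i2 i3 d) :
    ∃ ε : ℝ, 0 < ε ∧ ∀ d' ∈ L,
      d'.δ * (1 + (n + 1) * ε) ≤ |(d'.φ i2 : ℝ)| - 2 * ε * vx (rv d'.φ) ∧
      0 < |(d'.v i3 : ℝ)| - d'.η - ε * (vx (rv d'.v) + d'.η) := by
  induction L with
  | nil => exact ⟨1, one_pos, by simp⟩
  | cons a L ih =>
    obtain ⟨ε, hε, h⟩ := ih fun d hd => hL d (List.mem_cons_of_mem _ hd)
    obtain ⟨hδ0, hδ, hη0, hη⟩ := hL a List.mem_cons_self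
    have hΦ := vx_nonneg (rv a.φ)
    have hV := vx_nonneg (rv a.v)
    -- slack
    have hs1 : 0 < |(a.φ i2 : ℝ)| - a.δ := by linarith
    have hs2 : 0 < |(a.v i3 : ℝ)| - a.η := by linarith
    have hD1 : 0 < a.δ * (n + 1) + 2 * vx (rv a.φ) := by positivity
    have hD2 : 0 < vx (rv a.v) + a.η := by positivity
    refine ⟨min ε (min ((|(a.φ i2 : ℝ)| - a.δ) / (a.δ * (n + 1) + 2 * vx (rv a.φ)))
      ((|(a.v i3 : ℝ)| - a.η) / (2 * (vx (rv a.v) + a.η)))), ?_, ?_⟩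
    · exact lt_min hε (lt_min (div_pos hs1 hD1) (div_pos hs2 (by positivity)))
    · intro d' hd'
      obtain ⟨e, he⟩ : ∃ e, e = min ε (min ((|(a.φ i2 : ℝ)| - a.δ) /
        (a.δ * (n + 1) + 2 * vx (rv a.φ))) ((|(a.v i3 : ℝ)| - a.η) / (2 * (vx (rv a.v) + a.η)))) :=
        ⟨_, rfl⟩
      rw [← he]
      have he1 : e ≤ ε := by rw [he]; exact min_le_left _ _
      have he2 : e ≤ (|(a.φ i2 : ℝ)| - a.δ) / (a.δ * (n + 1) + 2 * vx (rv a.φ)) := by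
        rw [he]; exact (min_le_right _ _).trans (min_le_left _ _)
      have he3 : e ≤ (|(a.v i3 : ℝ)| - a.η) / (2 * (vx (rv a.v) + a.η)) := by
        rw [he]; exact (min_le_right _ _).trans (min_le_right _ _)
      rcases List.mem_cons.mp hd' with rfl | hd'
      · rw [le_div_iff₀ hD1] at he2
        rw [le_div_iff₀ (by positivity)] at he3
        constructor
        · linarith
        · linarith
      · obtain ⟨h1, h2⟩ := h d' hd'
        have hi := hL d' (List.mem_cons_of_mem _ hd')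
        have hδ' := hi.1
        have hη' := hi.2.2.1
        have hΦ' := vx_nonneg (rv d'.φ)
        have hV' := vx_nonneg (rv d'.v)
        constructor
        · have h3 : d'.δ * ((n + 1) * e) ≤ d'.δ * ((n + 1) * ε) :=
            mul_le_mul_of_nonneg_left (mul_le_mul_of_nonneg_left he1 (by positivity)) hδ'.le
          have h4 : vx (rv d'.φ) * e ≤ vx (rv d'.φ) * ε := mul_le_mul_of_nonneg_left he1 hΦ'
          linarith
        · have h3 : (vx (rv d'.v) + d'.η) * e ≤ (vx (rv d'.v) + d'.η) * ε :=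
            mul_le_mul_of_nonneg_left he1 (by positivity)
          linarith

/-- a common small `δ` -/
theorem STEP_delta (L : List (Dat n)) (F : Dat n → ℝ) (G : Dat n → ℝ) (hF : ∀ d ∈ L, 0 < F d)
    (hG : ∀ d ∈ L, 0 < G d) (b : ℝ) (hb : 0 < b) :
    ∃ δ : ℝ, 0 < δ ∧ δ < b ∧ ∀ d ∈ L, δ * F d ≤ G d := by
  induction L with
  | nil => exact ⟨b / 2, by linarith, by linarith, by simp⟩
  | cons a L ih =>
    obtain ⟨δ, h0, h1, h2⟩ := ih (fun d hd => hF d (List.mem_cons_of_mem _ hd))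
      (fun d hd => hG d (List.mem_cons_of_mem _ hd))
    have ha := hF a List.mem_cons_self
    have ha' := hG a List.mem_cons_self
    refine ⟨min δ (G a / F a), lt_min h0 (div_pos ha' ha), lt_of_le_of_lt (min_le_left _ _) h1, ?_⟩
    intro d hd
    rcases List.mem_cons.mp hd with rfl | hd'
    · have := min_le_right δ (G d / F d)
      rwa [le_div_iff₀ ha] at this
    · exact (mul_le_mul_of_nonneg_right (min_le_left _ _)
        (hF d (List.mem_cons_of_mem _ hd')).le).trans (h2 d hd')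

theorem step {i1 i2 i3 : Fin n} (h12 : i1 ≠ i2) (h13 : i1 ≠ i3) (h23 : i2 ≠ i3) (g : SLZ n)
    (hLD : LD g) (L : List (Dat n)) (hL : ∀ d ∈ L, Inv i2 i3 d) :
    ∃ d : Dat n, Good i1 g d ∧ Inv i2 i3 d ∧ ∀ d' ∈ L, Compat d' d := by
  have hn : 0 < n := i1.pos
  obtain ⟨ε, hε, hL2⟩ := STEP_eps L hL
  obtain ⟨v, φ, hφv, hv2, hv, hv3, hφ3, hφ, hφ1, hφ2, c, hc, hcm⟩ := flag h12 h13 h23 g hLD hε
  have hv2' : (0 : ℝ) < v i2 := by exact_mod_cast hv2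
  have hφ3' : (0 : ℝ) < φ i3 := by exact_mod_cast hφ3
  have hv3' : (0 : ℝ) < |(v i3 : ℝ)| := abs_pos.mpr (by exact_mod_cast hv3)
  have hφ1' : (0 : ℝ) < |(φ i1 : ℝ)| := abs_pos.mpr (by exact_mod_cast hφ1)
  have hφ2' : (0 : ℝ) < |(φ i2 : ℝ)| := abs_pos.mpr (by exact_mod_cast hφ2)
  obtain ⟨δ, hδ0, hδ1, hδ2⟩ := STEP_delta L (fun d' => vx (rv d'.v) + d'.η)
    (fun d' => φ i3 * (|(d'.v i3 : ℝ)| - d'.η - ε * (vx (rv d'.v) + d'.η)))
    (fun d hd => add_pos_of_nonneg_of_pos (vx_nonneg _) (hL d hd).2.2.1)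
    (fun d hd => mul_pos hφ3' (hL2 d hd).2)
    (min |(φ i1 : ℝ)| |(φ i2 : ℝ)|) (lt_min hφ1' hφ2')
  obtain ⟨η, hη⟩ : ∃ η : ℝ, η = min ((v i2 : ℝ) / 2) (min (ε * (v i2 : ℝ)) (|(v i3 : ℝ)| / 2)) := ⟨_, rfl⟩
  have hη0 : 0 < η := by
    rw [hη]; exact lt_min (by linarith) (lt_min (mul_pos hε hv2') (by linarith))
  have hη1 : η < v i2 := by
    have : η ≤ (v i2 : ℝ) / 2 := by rw [hη]; exact min_le_left _ _
    linarith
  have hη2 : η ≤ ε * v i2 := by rw [hη]; exact (min_le_right _ _).trans (min_le_left _ _)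
  have hη3 : η < |(v i3 : ℝ)| := by
    have : η ≤ |(v i3 : ℝ)| / 2 := by rw [hη]; exact (min_le_right _ _).trans (min_le_right _ _)
    linarith
  have hφv' : rv φ ⬝ᵥ rv v = 0 := by
    have : ((φ ⬝ᵥ v : ℤ) : ℝ) = 0 := by exact_mod_cast hφv
    simpa [rv, dotProduct] using this
  obtain ⟨T0, hT0⟩ := contract (rv v) (rv φ) hφv' hc hδ0 hη0
  obtain ⟨T, hT⟩ := exists_int_gt T0
  obtain ⟨x, hx, hx'⟩ := transvection v φ hφv T
  refine ⟨⟨v, φ, δ, η, x⟩, ⟨?_, ?_, ?_⟩, ⟨hδ0, ?_, hη0, hη3⟩, ?_⟩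
  · intro m hm w hw
    have := hT0 T hT.le (R (g ^ m)) (mx_R_pos hn _) (hcm m hm) w hw.1 hw.2
    change R (x * g ^ m * x⁻¹) *ᵥ w ∈ _
    rw [R_mul, R_mul, hx, hx']
    exact this
  · refine ⟨?_, ?_⟩
    · rw [vx_single]; exact one_pos
    · change δ * vx (Pi.single i1 1) ≤ |rv φ ⬝ᵥ Pi.single i1 1|
      rw [vx_single, mul_one, dotProduct_single_one]
      exact (hδ1.trans_le (min_le_left _ _)).le
  · rintro ⟨α, hα, h⟩
    change vx (Pi.single i1 1 - α • rv v) ≤ η * |α| at h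
    have h1 := (abs_le_vx (Pi.single i1 1 - α • rv v) i2).trans h
    rw [Pi.sub_apply, Pi.single_eq_of_ne h12.symm, Pi.smul_apply, smul_eq_mul, zero_sub, abs_neg,
      abs_mul] at h1
    have h2 : |rv v i2| = v i2 := abs_of_pos hv2'
    rw [h2] at h1
    have hα' : 0 < |α| := abs_pos.mpr hα
    nlinarith
  · exact hδ1.trans_le (min_le_right _ _)
  · intro d' hd'
    constructor
    · exact STEP_old _ d' (hL d' hd') hε hφ3 hφ (hL2 d' hd').2 (hδ2 d' hd') hδ0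
    · exact STEP_new _ d' hε hv2 hv hη1 hη2 hη0 (hL d' hd').1 (hL2 d' hd').1

end H93I
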